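import Pool.Agent.Helper43x.NW.Wave
import Pool.Agent.Y149.CR.Pol

/-! Dirichlet series of products of Fourier coefficients at the edge of convergence. -/

set_option autoImplicit false

namespace Pool.Agent.Helper43x.NW

open MeasureTheory Filter Topology UpperHalfPlane CongruenceSubgroup
open scoped ENNReal MatrixGroups Modular
open Pool.Agent.W165.RS (SS Inv Dec LN LN_ne_zero LN_ne_top rs_limit EE)
open Pool.Agent.Y722.RS (TT rs_bdd kap one_le_LN CR CR_summable)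
open Pool.Agent.Y149.CR (CC LC LC_lower summable_e norm_le_of_re up up_ne_top measurable_up comp_bdd)

noncomputable section

/-- summability of the Dirichlet series of the squares -/
def Smc (c : ℕ → ℝ) : Prop := ∀ s : ℝ, 1 < s → Summable fun n : ℕ => c n ^ 2 / n * (n : ℝ) ^ (-s)

/-- the Mellin transform at real points -/
def MR (ψ ψ' : ℝ → ℝ) (s : ℝ) : ℝ := (MI ψ ψ' s).re

theorem MI_ofReal (ψ ψ' : ℝ → ℝ) (s : ℝ) : MI ψ ψ' s = (MR ψ ψ' s : ℂ) := by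
  have h1 : MI ψ ψ' s = ((∫ t in Set.Ioi (0 : ℝ), ψ t * ψ' t * t ^ (s - 2) : ℝ) : ℂ) := by
    unfold MI
    rw [← integral_complex_ofReal]
    refine setIntegral_congr_fun measurableSet_Ioi fun t ht => ?_
    have ht0 : (0 : ℝ) < t := ht
    rw [Complex.ofReal_mul (ψ t * ψ' t) (t ^ (s - 2)), Complex.ofReal_cpow ht0.le]
    push_cast
    rfl
  unfold MR
  rw [h1, Complex.ofReal_re]

section
variable {w N : ℕ} {c₁ c₂ : ℕ → ℝ} {ψ₁ ψ₂ : ℝ → ℝ} {H₁ H₂ : ℍ → ℂ}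

/-- the real value of the density -/
def vr (c₁ c₂ : ℕ → ℝ) (ψ₁ ψ₂ : ℝ → ℝ) (u : ℝ) (s : ℝ) (n : ℕ) : ℝ :=
  MR ψ₁ ψ₁ s * (c₁ n * c₁ n / n * (n : ℝ) ^ (-s)) +
    2 * u * MR ψ₁ ψ₂ s * (c₁ n * c₂ n / n * (n : ℝ) ^ (-s)) +
    u ^ 2 * MR ψ₂ ψ₂ s * (c₂ n * c₂ n / n * (n : ℝ) ^ (-s))

theorem vq_ofReal (u s : ℝ) (n : ℕ) :
    vq c₁ c₂ ψ₁ ψ₂ u s n = (vr c₁ c₂ ψ₁ ψ₂ u s n : ℂ) := by
  unfold vq vr
  rw [MI_ofReal, MI_ofReal, MI_ofReal]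
  have h : (n : ℂ) ^ (-(s : ℂ)) = (((n : ℝ) ^ (-s) : ℝ) : ℂ) := by
    rw [Complex.ofReal_cpow (Nat.cast_nonneg n)]
    push_cast
    rfl
  rw [h]
  push_cast
  ring

theorem strip_real (h₁ : Wv w N c₁ ψ₁ H₁) (h₂ : Wv w N c₂ ψ₂ H₂) (z₁ : c₁ 0 = 0) (z₂ : c₂ 0 = 0)
    (u : ℝ) {s : ℝ} (hs : 0 < s) :
    (∀ n, 0 ≤ vr c₁ c₂ ψ₁ ψ₂ u s n) ∧
    ∫⁻ z in SS, FU H₁ H₂ u z * ENNReal.ofReal (z.im ^ s) =
      ∑' n : ℕ, ENNReal.ofReal (vr c₁ c₂ ψ₁ ψ₂ u s n) := by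
  have key : ∀ n, (∫ y in Set.Ioi (0 : ℝ), qq c₁ c₂ ψ₁ ψ₂ u n y ^ 2 * (1 / y) ^ 2 * y ^ s) =
      vr c₁ c₂ ψ₁ ψ₂ u s n ∧
      IntegrableOn (fun y : ℝ => qq c₁ c₂ ψ₁ ψ₂ u n y ^ 2 * (1 / y) ^ 2 * y ^ s) (Set.Ioi 0) := by
    intro n
    obtain ⟨h1, h2⟩ := pq_integral (e := 1) h₁.kern h₂.kern z₁ z₂ u (s := (s : ℂ))
      (by simpa using hs) one_pos n
    have e1 : ∀ y ∈ Set.Ioi (0 : ℝ), pq c₁ c₂ ψ₁ ψ₂ u s 1 n y =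
        ((qq c₁ c₂ ψ₁ ψ₂ u n y ^ 2 * (1 / y) ^ 2 * y ^ s : ℝ) : ℂ) := by
      intro y hy
      have hy' : (0 : ℝ) < y := hy
      unfold pq
      rw [Nat.cast_one, one_pow, div_one, ← Complex.ofReal_cpow hy'.le]
      push_cast
      ring
    rw [setIntegral_congr_fun measurableSet_Ioi e1, integral_complex_ofReal, vq_ofReal] at h2
    simp only [Nat.cast_one, Complex.one_cpow, one_mul] at h2
    refine ⟨by exact_mod_cast h2, ?_⟩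
    have h3 := ((integrableOn_congr_fun e1 measurableSet_Ioi).1 h1).re
    exact h3.congr (Eventually.of_forall fun y => Complex.ofReal_re _)
  have hpos : ∀ n, ∀ y ∈ Set.Ioi (0 : ℝ),
      0 ≤ qq c₁ c₂ ψ₁ ψ₂ u n y ^ 2 * (1 / y) ^ 2 * y ^ s := by
    intro n y hy
    have hy' : (0 : ℝ) < y := hy
    positivity
  refine ⟨fun n => ?_, ?_⟩
  · rw [← (key n).1]
    exact setIntegral_nonneg measurableSet_Ioi (hpos n)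
  · have hm : Measurable fun y : ℝ => ENNReal.ofReal (y ^ s) :=
      ENNReal.measurable_ofReal.comp (measurable_id.pow_const s)
    rw [strip_FU h₁ h₂ u hm fun _ => ENNReal.ofReal_ne_top]
    refine tsum_congr fun n => ?_
    rw [← (key n).1, ofReal_integral_eq_lintegral_ofReal (key n).2
      ((ae_restrict_iff' measurableSet_Ioi).2 (Eventually.of_forall (hpos n)))]
    refine lintegral_congr fun y => ?_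
    rw [← ENNReal.ofReal_mul (by positivity)]

/-! ### one function -/

theorem one_bound (h : Wv w N c₁ ψ₁ H₁) [NeZero N] (z₁ : c₁ 0 = 0) (hc : c₁ 1 = 1)
    (hM : ∀ s : ℝ, 0 < s → 0 < MR ψ₁ ψ₁ s) :
    Smc c₁ ∧ ∃ C : ℝ, 0 < C ∧ ∀ᶠ s : ℝ in 𝓝[>] 1, (s - 1) * (MR ψ₁ ψ₁ s * CR c₁ c₁ s) ≤ C := by
  set F : ℍ → ℝ≥0∞ := FU H₁ H₁ 0 with hF
  have hvr : ∀ (s : ℝ) (n : ℕ), vr c₁ c₁ ψ₁ ψ₁ 0 s n =
      MR ψ₁ ψ₁ s * (c₁ n * c₁ n / n * (n : ℝ) ^ (-s)) := by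
    intro s n; unfold vr; ring
  have hne : ∫⁻ z, F z ≠ 0 := by
    intro h0
    rw [lintegral_eq_zero_iff (FU_meas h h 0)] at h0
    have h2 : ∫⁻ z in SS, F z * ENNReal.ofReal (z.im ^ (2 : ℝ)) = 0 := by
      refine le_antisymm ?_ zero_le
      refine (setLIntegral_le_lintegral _ _).trans (le_of_eq ?_)
      have hme : Measurable fun z : ℍ => F z * ENNReal.ofReal (z.im ^ (2 : ℝ)) :=
        (FU_meas h h 0).mul (ENNReal.measurable_ofReal.comp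
          (continuous_im.measurable.pow_const _))
      rw [lintegral_eq_zero_iff hme]
      filter_upwards [h0] with z hz
      simp only [Pi.zero_apply] at hz ⊢
      show FU H₁ H₁ 0 z * _ = 0
      rw [hz, zero_mul]
    rw [(strip_real h h z₁ z₁ 0 two_pos).2, ENNReal.tsum_eq_zero] at h2
    have h4 := h2 1
    rw [ENNReal.ofReal_eq_zero, hvr, hc] at h4
    have := hM 2 two_pos
    norm_num at h4
    linarith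
  obtain ⟨c, hc0, hctop, hlim⟩ := rs_limit (FU_meas h h 0) (FU_inv h h 0) (FU_dec h h 0) hne
  have hterm : ∀ (s : ℝ) (n : ℕ), 0 ≤ c₁ n ^ 2 / n * (n : ℝ) ^ (-s) := fun s n => by positivity
  have hfin : ∀ᶠ s : ℝ in 𝓝[>] 1, ENNReal.ofReal (s - 1) *
      ∫⁻ z in SS, F z * ENNReal.ofReal (z.im ^ s) < ⊤ :=
    hlim.eventually (gt_mem_nhds hctop.lt_top)
  have hsum : Smc c₁ := by
    intro s hs
    obtain ⟨t, ht1, ht2, ht3⟩ := (hfin.and ((eventually_mem_nhdsWithin (a := (1 : ℝ))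
      (s := Set.Ioi 1)).and
      (Filter.Eventually.filter_mono nhdsWithin_le_nhds (gt_mem_nhds hs)))).exists
    have ht2' : (1 : ℝ) < t := ht2
    obtain ⟨g1, g2⟩ := strip_real h h z₁ z₁ 0 (show (0 : ℝ) < t by linarith)
    have h2 : ∑' n : ℕ, ENNReal.ofReal (vr c₁ c₁ ψ₁ ψ₁ 0 t n) ≠ ⊤ := by
      intro htop
      rw [g2, htop, ENNReal.mul_top] at ht1
      · exact lt_irrefl _ ht1
      · rw [Ne, ENNReal.ofReal_eq_zero, not_le]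
        linarith
    have h3 : Summable fun n : ℕ => vr c₁ c₁ ψ₁ ψ₁ 0 t n :=
      (ENNReal.summable_toReal h2).congr fun n => ENNReal.toReal_ofReal (g1 n)
    have hMt := hM t (by linarith)
    have h4 : Summable fun n : ℕ => c₁ n ^ 2 / n * (n : ℝ) ^ (-t) := by
      refine (h3.mul_left (MR ψ₁ ψ₁ t)⁻¹).congr fun n => ?_
      rw [hvr]
      field_simp
    refine Summable.of_nonneg_of_le (hterm s) (fun n => ?_) h4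
    rcases Nat.eq_zero_or_pos n with rfl | hn
    · simp
    · refine mul_le_mul_of_nonneg_left ?_ (by positivity)
      exact Real.rpow_le_rpow_of_exponent_le (by exact_mod_cast hn) (by linarith)
  refine ⟨hsum, c.toReal + 1, by positivity, ?_⟩
  have hcr : Tendsto (fun s : ℝ => (ENNReal.ofReal (s - 1) *
      ∫⁻ z in SS, F z * ENNReal.ofReal (z.im ^ s)).toReal) (𝓝[>] 1) (𝓝 c.toReal) :=
    (ENNReal.tendsto_toReal hctop).comp hlim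
  filter_upwards [hcr.eventually (gt_mem_nhds (lt_add_one c.toReal)), self_mem_nhdsWithin]
    with s h1 h2
  have hs1 : (1 : ℝ) < s := h2
  obtain ⟨g1, g2⟩ := strip_real h h z₁ z₁ 0 (show (0 : ℝ) < s by linarith)
  have h3 : Summable fun n : ℕ => vr c₁ c₁ ψ₁ ψ₁ 0 s n := by
    refine ((hsum s hs1).mul_left (MR ψ₁ ψ₁ s)).congr fun n => ?_
    rw [hvr]
    ring
  rw [g2, ← ENNReal.ofReal_tsum_of_nonneg g1 h3, ← ENNReal.ofReal_mul (by linarith),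
    ENNReal.toReal_ofReal (mul_nonneg (by linarith) (tsum_nonneg g1))] at h1
  have h4 : ∑' n : ℕ, vr c₁ c₁ ψ₁ ψ₁ 0 s n = MR ψ₁ ψ₁ s * CR c₁ c₁ s := by
    simp_rw [hvr]
    rw [tsum_mul_left]
    rfl
  rw [h4] at h1
  exact h1.le

/-! ### two functions -/

/-- the real value of the strip integral -/
def SDu (c₁ c₂ : ℕ → ℝ) (ψ₁ ψ₂ : ℝ → ℝ) (u s : ℝ) : ℝ :=
  MR ψ₁ ψ₁ s * CR c₁ c₁ s + 2 * u * MR ψ₁ ψ₂ s * CR c₁ c₂ s + u ^ 2 * MR ψ₂ ψ₂ s * CR c₂ c₂ s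

theorem Smc.cr {c c' : ℕ → ℝ} (h : Smc c) (h' : Smc c') {s : ℝ} (hs : 1 < s) :
    Summable fun n : ℕ => c n * c' n / n * (n : ℝ) ^ (-s) :=
  (CR_summable (h s hs) (h' s hs)).of_abs

theorem strip_SDu (h₁ : Wv w N c₁ ψ₁ H₁) (h₂ : Wv w N c₂ ψ₂ H₂) (z₁ : c₁ 0 = 0) (z₂ : c₂ 0 = 0)
    (s₁ : Smc c₁) (s₂ : Smc c₂) (u : ℝ) {s : ℝ} (hs : 1 < s) :
    0 ≤ SDu c₁ c₂ ψ₁ ψ₂ u s ∧ ∫⁻ z in SS, FU H₁ H₂ u z * ENNReal.ofReal (z.im ^ s) =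
      ENNReal.ofReal (SDu c₁ c₂ ψ₁ ψ₂ u s) := by
  obtain ⟨g1, g2⟩ := strip_real h₁ h₂ z₁ z₂ u (show (0 : ℝ) < s by linarith)
  have a11 := (s₁.cr s₁ hs).hasSum.mul_left (MR ψ₁ ψ₁ s)
  have a12 := (s₁.cr s₂ hs).hasSum.mul_left (2 * u * MR ψ₁ ψ₂ s)
  have a22 := (s₂.cr s₂ hs).hasSum.mul_left (u ^ 2 * MR ψ₂ ψ₂ s)
  have h3 : HasSum (fun n : ℕ => vr c₁ c₂ ψ₁ ψ₂ u s n) (SDu c₁ c₂ ψ₁ ψ₂ u s) :=
    (a11.add a12).add a22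
  have h0 : 0 ≤ SDu c₁ c₂ ψ₁ ψ₂ u s := h3.nonneg g1
  refine ⟨h0, ?_⟩
  rw [g2, ← ENNReal.ofReal_tsum_of_nonneg g1 h3.summable, h3.tsum_eq]

/-- functions with the same mean value -/
theorem I_le [NeZero N] {F₁ F₂ : ℍ → ℝ≥0∞} (m₁ : Measurable F₁) (i₁ : Inv N F₁) (d₁ : Dec F₁)
    (m₂ : Measurable F₂) (i₂ : Inv N F₂) (d₂ : Dec F₂) (hT : TT N F₁ = TT N F₂) :
    ∃ C : ℝ≥0∞, C ≠ ∞ ∧ ∀ᶠ s : ℝ in 𝓝[>] 1,
      ∫⁻ z in SS, F₁ z * ENNReal.ofReal (z.im ^ s) ≤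
        (∫⁻ z in SS, F₂ z * ENNReal.ofReal (z.im ^ s)) + C := by
  obtain ⟨C₁, hC₁, h1⟩ := rs_bdd m₁ i₁ d₁
  obtain ⟨C₂, hC₂, h2⟩ := rs_bdd m₂ i₂ d₂
  refine ⟨C₂ + C₁, ENNReal.add_ne_top.2 ⟨hC₂, hC₁⟩, ?_⟩
  filter_upwards [h1, h2, self_mem_nhdsWithin] with s hs1 hs2 hs
  have hs' : (1 : ℝ) < s := hs
  have h3 : LN N s * ∫⁻ z in SS, F₁ z * ENNReal.ofReal (z.im ^ s) ≤
      LN N s * (∫⁻ z in SS, F₂ z * ENNReal.ofReal (z.im ^ s)) + (C₂ + C₁) := by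
    refine hs1.1.trans ?_
    rw [hT, ← add_assoc]
    exact add_le_add_left hs2.2 C₁
  have hne := LN_ne_zero N s
  have hnt := LN_ne_top N hs'.le
  have h4 : (C₂ + C₁) ≤ LN N s * (C₂ + C₁) := by
    calc (C₂ + C₁) = 1 * (C₂ + C₁) := (one_mul _).symm
      _ ≤ _ := mul_le_mul_left (one_le_LN N s) _
  have h5 := h3.trans (add_le_add_right h4 _)
  rw [← mul_add] at h5
  exact (ENNReal.mul_le_mul_iff_right hne hnt).1 h5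

variable {c₁' c₂' : ℕ → ℝ} {H₁' H₂' : ℍ → ℂ}

theorem SDu_le [NeZero N] (h₁ : Wv w N c₁ ψ₁ H₁) (h₂ : Wv w N c₂ ψ₂ H₂)
    (h₁' : Wv w N c₁' ψ₁ H₁') (h₂' : Wv w N c₂' ψ₂ H₂') (z₁ : c₁ 0 = 0) (z₂ : c₂ 0 = 0)
    (z₁' : c₁' 0 = 0) (z₂' : c₂' 0 = 0) (s₁ : Smc c₁) (s₂ : Smc c₂) (s₁' : Smc c₁')
    (s₂' : Smc c₂') (u : ℝ) (hT : TT N (FU H₁ H₂ u) = TT N (FU H₁' H₂' u)) :
    ∃ C : ℝ, ∀ᶠ s : ℝ in 𝓝[>] 1,
      |SDu c₁ c₂ ψ₁ ψ₂ u s - SDu c₁' c₂' ψ₁ ψ₂ u s| ≤ C := by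
  obtain ⟨C, hC, hev⟩ := I_le (FU_meas h₁ h₂ u) (FU_inv h₁ h₂ u) (FU_dec h₁ h₂ u)
    (FU_meas h₁' h₂' u) (FU_inv h₁' h₂' u) (FU_dec h₁' h₂' u) hT
  obtain ⟨C', hC', hev'⟩ := I_le (FU_meas h₁' h₂' u) (FU_inv h₁' h₂' u) (FU_dec h₁' h₂' u)
    (FU_meas h₁ h₂ u) (FU_inv h₁ h₂ u) (FU_dec h₁ h₂ u) hT.symm
  refine ⟨C.toReal + C'.toReal, ?_⟩
  filter_upwards [hev, hev', self_mem_nhdsWithin] with s e1 e2 hs
  have hs' : (1 : ℝ) < s := hs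
  obtain ⟨p1, q1⟩ := strip_SDu h₁ h₂ z₁ z₂ s₁ s₂ u hs'
  obtain ⟨p2, q2⟩ := strip_SDu h₁' h₂' z₁' z₂' s₁' s₂' u hs'
  rw [q1, q2] at e1 e2
  have g0 : 0 ≤ C.toReal := ENNReal.toReal_nonneg
  have g0' : 0 ≤ C'.toReal := ENNReal.toReal_nonneg
  rw [← ENNReal.ofReal_toReal hC, ← ENNReal.ofReal_add p2 g0,
    ENNReal.ofReal_le_ofReal_iff (by positivity)] at e1
  rw [← ENNReal.ofReal_toReal hC', ← ENNReal.ofReal_add p1 g0',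
    ENNReal.ofReal_le_ofReal_iff (by positivity)] at e2
  rw [abs_le]
  constructor <;> linarith

/-- **Comparison of the products.** -/
theorem cross_cmp [NeZero N] (h₁ : Wv w N c₁ ψ₁ H₁) (h₂ : Wv w N c₂ ψ₂ H₂)
    (h₁' : Wv w N c₁' ψ₁ H₁') (h₂' : Wv w N c₂' ψ₂ H₂') (z₁ : c₁ 0 = 0) (z₂ : c₂ 0 = 0)
    (z₁' : c₁' 0 = 0) (z₂' : c₂' 0 = 0) (s₁ : Smc c₁) (s₂ : Smc c₂) (s₁' : Smc c₁')
    (s₂' : Smc c₂') (hT : ∀ u : ℝ, TT N (FU H₁ H₂ u) = TT N (FU H₁' H₂' u)) {m : ℝ} (hm : 0 < m)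
    (hM : ∀ᶠ s : ℝ in 𝓝[>] 1, m ≤ |MR ψ₁ ψ₂ s|) :
    ∃ C : ℝ, 0 ≤ C ∧ ∀ᶠ s : ℝ in 𝓝[>] 1, |CR c₁ c₂ s - CR c₁' c₂' s| ≤ C := by
  obtain ⟨C1, g1⟩ := SDu_le h₁ h₂ h₁' h₂' z₁ z₂ z₁' z₂' s₁ s₂ s₁' s₂' 1 (hT 1)
  obtain ⟨C2, g2⟩ := SDu_le h₁ h₂ h₁' h₂' z₁ z₂ z₁' z₂' s₁ s₂ s₁' s₂' (-1) (hT (-1))
  refine ⟨(|C1| + |C2|) / (4 * m), by positivity, ?_⟩
  filter_upwards [g1, g2, hM] with s e1 e2 e3
  have key : 4 * MR ψ₁ ψ₂ s * (CR c₁ c₂ s - CR c₁' c₂' s) =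
      (SDu c₁ c₂ ψ₁ ψ₂ 1 s - SDu c₁' c₂' ψ₁ ψ₂ 1 s) -
      (SDu c₁ c₂ ψ₁ ψ₂ (-1) s - SDu c₁' c₂' ψ₁ ψ₂ (-1) s) := by
    unfold SDu; ring
  have h5 : |4 * MR ψ₁ ψ₂ s * (CR c₁ c₂ s - CR c₁' c₂' s)| ≤ |C1| + |C2| := by
    rw [key]
    refine (abs_sub _ _).trans (add_le_add (e1.trans (le_abs_self _)) (e2.trans (le_abs_self _)))
  rw [abs_mul, abs_mul, abs_of_pos (by norm_num : (0 : ℝ) < 4)] at h5
  rw [le_div_iff₀ (by positivity)]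
  have h6 : 4 * m * |CR c₁ c₂ s - CR c₁' c₂' s| ≤
      4 * |MR ψ₁ ψ₂ s| * |CR c₁ c₂ s - CR c₁' c₂' s| :=
    mul_le_mul_of_nonneg_right (by linarith) (abs_nonneg _)
  linarith

/-! ### heights -/

theorem norm_term_eq {c c' : ℕ → ℝ} (hc : c 0 = 0) (s : ℂ) (n : ℕ) :
    ‖((c n * c' n / n : ℝ) : ℂ) * (n : ℂ) ^ (-s)‖ = |c n * c' n / n * (n : ℝ) ^ (-s.re)| := by
  rw [norm_mul, Complex.norm_real, Real.norm_eq_abs, abs_mul]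
  rcases Nat.eq_zero_or_pos n with hn | hn
  · subst hn
    rw [hc]; simp
  · rw [Complex.norm_natCast_cpow_of_pos hn, Complex.neg_re,
      abs_of_nonneg (by positivity : 0 ≤ (n : ℝ) ^ (-s.re))]

theorem Smc.cc {c c' : ℕ → ℝ} (h : Smc c) (h' : Smc c') (hc : c 0 = 0) {s : ℂ} (hs : 1 < s.re) :
    Summable fun n : ℕ => ‖((c n * c' n / n : ℝ) : ℂ) * (n : ℂ) ^ (-s)‖ :=
  (CR_summable (h s.re hs) (h' s.re hs)).congr fun n =>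
    (norm_term_eq hc s n).symm

theorem vq_summable (s₁ : Smc c₁) (s₂ : Smc c₂) (z₁ : c₁ 0 = 0) (z₂ : c₂ 0 = 0) (u : ℝ) {s : ℂ}
    (hs : 1 < s.re) : Summable fun n => ‖vq c₁ c₂ ψ₁ ψ₂ u s n‖ := by
  have b11 := (s₁.cc s₁ z₁ hs).mul_left ‖MI ψ₁ ψ₁ s‖
  have b12 := (s₁.cc s₂ z₁ hs).mul_left ‖2 * u * MI ψ₁ ψ₂ s‖
  have b22 := (s₂.cc s₂ z₂ hs).mul_left ‖(u : ℂ) ^ 2 * MI ψ₂ ψ₂ s‖
  refine Summable.of_nonneg_of_le (fun n => norm_nonneg _) (fun n => ?_) ((b11.add b12).add b22)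
  unfold vq
  refine (norm_add_le _ _).trans (add_le_add ((norm_add_le _ _).trans (add_le_add ?_ ?_)) ?_)
  · rw [norm_mul]
  · rw [norm_mul]
  · rw [norm_mul]

theorem vq_hasSum (s₁ : Smc c₁) (s₂ : Smc c₂) (z₁ : c₁ 0 = 0) (z₂ : c₂ 0 = 0) (u : ℝ) {s : ℂ}
    (hs : 1 < s.re) : HasSum (vq c₁ c₂ ψ₁ ψ₂ u s)
      (MI ψ₁ ψ₁ s * CC c₁ c₁ s + 2 * u * MI ψ₁ ψ₂ s * CC c₁ c₂ s +
        u ^ 2 * MI ψ₂ ψ₂ s * CC c₂ c₂ s) := by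
  have b11 := (s₁.cc s₁ z₁ hs).of_norm.hasSum.mul_left (MI ψ₁ ψ₁ s)
  have b12 := (s₁.cc s₂ z₁ hs).of_norm.hasSum.mul_left (2 * u * MI ψ₁ ψ₂ s)
  have b22 := (s₂.cc s₂ z₂ hs).of_norm.hasSum.mul_left ((u : ℂ) ^ 2 * MI ψ₂ ψ₂ s)
  exact (b11.add b12).add b22

theorem norm_pq (u : ℝ) (s : ℂ) {e : ℕ} (he : 0 < e) (n : ℕ) {y : ℝ} (hy : 0 < y) :
    ((‖pq c₁ c₂ ψ₁ ψ₂ u s e n y‖ : ℝ) : ℂ) = pq c₁ c₂ ψ₁ ψ₂ u (s.re : ℂ) e n y := by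
  have he' : (0 : ℝ) < e := by exact_mod_cast he
  have hq : 0 < y / (e : ℝ) ^ 2 := by positivity
  unfold pq
  rw [norm_mul, Pool.Agent.Y149.CR.norm_cpow_real hq, Complex.norm_real,
    Real.norm_of_nonneg (by positivity), Complex.ofReal_mul, Complex.ofReal_cpow hq.le]

/-- the terms of the double series -/
def VV (c₁ c₂ : ℕ → ℝ) (ψ₁ ψ₂ : ℝ → ℝ) (u : ℝ) (s : ℂ) (x : EE N × ℕ) : ℂ :=
  ((x.1.1 : ℕ) : ℂ) ^ (-(2 * s)) * vq c₁ c₂ ψ₁ ψ₂ u s x.2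

theorem VV_summable [NeZero N] (s₁ : Smc c₁) (s₂ : Smc c₂) (z₁ : c₁ 0 = 0) (z₂ : c₂ 0 = 0) (u : ℝ) {s : ℂ}
    (hs : 1 < s.re) : Summable fun x : EE N × ℕ => ‖VV c₁ c₂ ψ₁ ψ₂ u s x‖ := by
  have h := Summable.mul_norm (summable_e (N := N) hs)
    (vq_summable (ψ₁ := ψ₁) (ψ₂ := ψ₂) s₁ s₂ z₁ z₂ u hs)
  exact h.congr fun x => rfl

theorem VV_tsum [NeZero N] (s₁ : Smc c₁) (s₂ : Smc c₂) (z₁ : c₁ 0 = 0) (z₂ : c₂ 0 = 0) (u : ℝ) {s : ℂ}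
    (hs : 1 < s.re) : ∑' x : EE N × ℕ, VV c₁ c₂ ψ₁ ψ₂ u s x =
      LC N s * ∑' n, vq c₁ c₂ ψ₁ ψ₂ u s n := by
  have h3 := tsum_mul_tsum_of_summable_norm (summable_e (N := N) hs)
    (vq_summable (ψ₁ := ψ₁) (ψ₂ := ψ₂) s₁ s₂ z₁ z₂ u hs)
  unfold LC
  rw [h3]
  exact tsum_congr fun x => rfl

/-- the completed series is bounded -/
theorem X_bdd [NeZero N] (h₁ : Wv w N c₁ ψ₁ H₁) (h₂ : Wv w N c₂ ψ₂ H₂) (z₁ : c₁ 0 = 0)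
    (z₂ : c₂ 0 = 0) (s₁ : Smc c₁) (s₂ : Smc c₂) (u : ℝ) {τ : ℝ} (hτ : τ ≠ 0) :
    ∃ C : ℝ, ∀ᶠ σ : ℝ in 𝓝[>] 1, ‖LC N (σ + τ * Complex.I) *
      ∑' n, vq c₁ c₂ ψ₁ ψ₂ u (σ + τ * Complex.I) n‖ ≤ C := by
  obtain ⟨C, hC, hev⟩ := comp_bdd (FU_meas h₁ h₂ u) (FU_inv h₁ h₂ u) (FU_dec h₁ h₂ u) hτ
  refine ⟨C.toReal, ?_⟩
  filter_upwards [hev, self_mem_nhdsWithin] with σ h1 h2
  have hσ : (1 : ℝ) < σ := h2
  generalize hs : (σ : ℂ) + τ * Complex.I = s at h1 ⊢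
  have hre : s.re = σ := by rw [← hs]; simp
  have hs1 : 1 < s.re := by rw [hre]; exact hσ
  have hs0 : 0 < s.re := by linarith
  obtain ⟨P, hP⟩ : ∃ P : EE N × ℕ → ℝ → ℂ, P = fun x y => pq c₁ c₂ ψ₁ ψ₂ u s x.1.1 x.2 y :=
    ⟨_, rfl⟩
  obtain ⟨V, hV⟩ : ∃ V : ℂ → EE N × ℕ → ℂ, V = fun s x => VV c₁ c₂ ψ₁ ψ₂ u s x := ⟨_, rfl⟩
  have hVs : ∀ s : ℂ, 1 < s.re → Summable fun x => ‖V s x‖ := fun s hs => by
    rw [hV]; exact VV_summable s₁ s₂ z₁ z₂ u hs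
  have htsum : ∑' x, V s x = LC N s * ∑' n, vq c₁ c₂ ψ₁ ψ₂ u s n := by
    rw [hV]; exact VV_tsum s₁ s₂ z₁ z₂ u hs1
  rw [← htsum]
  refine norm_le_of_re fun ζ hζ => ?_
  have h3 := h1 ζ hζ
  have hstrip : ∀ ξ : ℂ, (∑' e : EE N, ∫⁻ z in SS, FU H₁ H₂ u z * up ξ s (z.im / (e.1 : ℝ) ^ 2)) =
      ∑' x : EE N × ℕ, ∫⁻ y in Set.Ioi (0 : ℝ), ENNReal.ofReal (ξ * P x y).re := by
    intro ξ
    rw [ENNReal.tsum_prod']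
    refine tsum_congr fun e => ?_
    have hm : Measurable fun y : ℝ => up ξ s (y / (e.1 : ℝ) ^ 2) :=
      (measurable_up ξ s).comp (measurable_id.div_const _)
    have h4 := strip_FU h₁ h₂ u hm (fun y => up_ne_top _ _ _)
    rw [h4]
    refine tsum_congr fun n => ?_
    refine lintegral_congr fun y => ?_
    unfold up
    rw [← ENNReal.ofReal_mul (by positivity)]
    congr 1
    rw [hP]
    simp only
    unfold pq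
    rw [← Complex.re_ofReal_mul]
    congr 1
    ring
  rw [hstrip, hstrip] at h3
  have hint : ∀ x : EE N × ℕ, IntegrableOn (P x) (Set.Ioi 0) := fun x => by
    rw [hP]
    exact (pq_integral h₁.kern h₂.kern z₁ z₂ u hs0 x.1.2.1 x.2).1
  have hPV : ∀ x : EE N × ℕ, ∫ y in Set.Ioi (0 : ℝ), P x y = V s x := fun x => by
    rw [hP, hV]
    exact (pq_integral h₁.kern h₂.kern z₁ z₂ u hs0 x.1.2.1 x.2).2
  have hnorm : ∀ x : EE N × ℕ, ((∫ y in Set.Ioi (0 : ℝ), ‖P x y‖ : ℝ) : ℂ) =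
      V (s.re : ℂ) x := by
    intro x
    have h5 := (pq_integral h₁.kern h₂.kern z₁ z₂ u (s := (s.re : ℂ)) (by simpa using hs0)
      x.1.2.1 x.2).2
    rw [hV, hP]
    simp only
    unfold VV
    rw [← h5, ← integral_complex_ofReal]
    exact setIntegral_congr_fun measurableSet_Ioi fun y hy => norm_pq u s x.1.2.1 x.2 hy
  have hb : ∀ (ξ : ℂ), ‖ξ‖ ≤ 1 → ∀ x : EE N × ℕ,
      ∫⁻ y in Set.Ioi (0 : ℝ), ENNReal.ofReal (ξ * P x y).re ≤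
        ENNReal.ofReal ‖V (s.re : ℂ) x‖ := by
    intro ξ hξ x
    have h4 : ∫⁻ y in Set.Ioi (0 : ℝ), ENNReal.ofReal (ξ * P x y).re ≤
        ∫⁻ y in Set.Ioi (0 : ℝ), ENNReal.ofReal ‖P x y‖ := by
      refine lintegral_mono fun y => ENNReal.ofReal_le_ofReal ?_
      refine (Complex.re_le_norm _).trans ?_
      rw [norm_mul]
      exact mul_le_of_le_one_left (norm_nonneg _) hξ
    refine h4.trans (le_of_eq ?_)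
    rw [← ofReal_integral_eq_lintegral_ofReal (hint x).norm (Eventually.of_forall fun y =>
      norm_nonneg _), ← hnorm x, Complex.norm_real, Real.norm_of_nonneg
      (integral_nonneg fun y => norm_nonneg _)]
  have hfin : ∀ (ξ : ℂ), ‖ξ‖ ≤ 1 → (∑' x : EE N × ℕ, ∫⁻ y in Set.Ioi (0 : ℝ),
      ENNReal.ofReal (ξ * P x y).re) ≠ ∞ := by
    intro ξ hξ
    refine ne_top_of_le_ne_top ?_ (ENNReal.tsum_le_tsum (hb ξ hξ))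
    exact (hVs (s.re : ℂ) (by simpa using hs1)).tsum_ofReal_ne_top
  have hζ' : ‖-ζ‖ ≤ 1 := by rwa [norm_neg]
  have hval : ∀ x : EE N × ℕ, (ζ * V s x).re =
      (∫⁻ y in Set.Ioi (0 : ℝ), ENNReal.ofReal (ζ * P x y).re).toReal -
      (∫⁻ y in Set.Ioi (0 : ℝ), ENNReal.ofReal (-ζ * P x y).re).toReal := by
    intro x
    have hi1 : IntegrableOn (fun y => ζ * P x y) (Set.Ioi 0) := (hint x).const_mul ζ
    have hi2 : IntegrableOn (fun y => (ζ * P x y).re) (Set.Ioi 0) := hi1.re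
    have h4 := integral_eq_lintegral_pos_part_sub_lintegral_neg_part hi2
    have e : ∀ y, -(ζ * P x y).re = (-ζ * P x y).re := fun y => by
      rw [neg_mul, Complex.neg_re]
    simp_rw [e] at h4
    rw [← h4, ← hPV x, ← integral_const_mul]
    exact (integral_re hi1).symm
  have hX : Summable fun x : EE N × ℕ => ζ * V s x := (hVs s hs1).of_norm.mul_left ζ
  rw [← tsum_mul_left, Complex.re_tsum hX, tsum_congr hval, (ENNReal.summable_toReal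
    (hfin ζ hζ)).tsum_sub (ENNReal.summable_toReal (hfin (-ζ) hζ')), ← ENNReal.tsum_toReal_eq
    (fun x => ENNReal.ne_top_of_tsum_ne_top (hfin ζ hζ) x), ← ENNReal.tsum_toReal_eq
    (fun x => ENNReal.ne_top_of_tsum_ne_top (hfin (-ζ) hζ') x)]
  have h6 := ENNReal.toReal_mono (ENNReal.add_ne_top.2 ⟨hfin (-ζ) hζ', hC⟩) h3
  rw [ENNReal.toReal_add (hfin (-ζ) hζ') hC] at h6
  linarith

/-- **The series of the products is bounded near `1 + iτ`, `τ ≠ 0`.** -/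
theorem CC_bdd' [NeZero N] (h₁ : Wv w N c₁ ψ₁ H₁) (h₂ : Wv w N c₂ ψ₂ H₂) (z₁ : c₁ 0 = 0)
    (z₂ : c₂ 0 = 0) (s₁ : Smc c₁) (s₂ : Smc c₂) {τ : ℝ} (hτ : τ ≠ 0) {m : ℝ} (hm : 0 < m)
    (hM : ∀ᶠ σ : ℝ in 𝓝[>] 1, m ≤ ‖MI ψ₁ ψ₂ (σ + τ * Complex.I)‖) :
    ∃ C : ℝ, ∀ᶠ σ : ℝ in 𝓝[>] 1, ‖CC c₁ c₂ (σ + τ * Complex.I)‖ ≤ C := by
  obtain ⟨C1, g1⟩ := X_bdd h₁ h₂ z₁ z₂ s₁ s₂ 1 hτ
  obtain ⟨C2, g2⟩ := X_bdd h₁ h₂ z₁ z₂ s₁ s₂ (-1) hτ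
  refine ⟨(|C1| + |C2|) / m, ?_⟩
  filter_upwards [g1, g2, hM, self_mem_nhdsWithin] with σ e1 e2 e3 e4
  have hσ : (1 : ℝ) < σ := e4
  generalize hs : (σ : ℂ) + τ * Complex.I = s at e1 e2 e3 ⊢
  have hs1 : 1 < s.re := by rw [← hs]; simpa using hσ
  rw [(vq_hasSum s₁ s₂ z₁ z₂ 1 hs1).tsum_eq] at e1
  rw [(vq_hasSum s₁ s₂ z₁ z₂ (-1) hs1).tsum_eq] at e2
  have hLC := LC_lower N hs1
  have key : LC N s * (4 * (MI ψ₁ ψ₂ s * CC c₁ c₂ s)) =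
      LC N s * (MI ψ₁ ψ₁ s * CC c₁ c₁ s + 2 * ((1 : ℝ) : ℂ) * MI ψ₁ ψ₂ s * CC c₁ c₂ s +
        ((1 : ℝ) : ℂ) ^ 2 * MI ψ₂ ψ₂ s * CC c₂ c₂ s) -
      LC N s * (MI ψ₁ ψ₁ s * CC c₁ c₁ s + 2 * ((-1 : ℝ) : ℂ) * MI ψ₁ ψ₂ s * CC c₁ c₂ s +
        ((-1 : ℝ) : ℂ) ^ 2 * MI ψ₂ ψ₂ s * CC c₂ c₂ s) := by
    push_cast
    ring
  have h5 : ‖LC N s * (4 * (MI ψ₁ ψ₂ s * CC c₁ c₂ s))‖ ≤ |C1| + |C2| := by
    rw [key]
    exact (norm_sub_le _ _).trans (add_le_add (e1.trans (le_abs_self _))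
      (e2.trans (le_abs_self _)))
  rw [norm_mul, norm_mul, norm_mul] at h5
  have h4' : ‖(4 : ℂ)‖ = 4 := by simp
  rw [h4'] at h5
  rw [le_div_iff₀ hm]
  have h6 : m * ‖CC c₁ c₂ s‖ ≤ ‖MI ψ₁ ψ₂ s‖ * ‖CC c₁ c₂ s‖ :=
    mul_le_mul_of_nonneg_right e3 (norm_nonneg _)
  have h7 : 1 / 4 * (4 * (‖MI ψ₁ ψ₂ s‖ * ‖CC c₁ c₂ s‖)) ≤
      ‖LC N s‖ * (4 * (‖MI ψ₁ ψ₂ s‖ * ‖CC c₁ c₂ s‖)) :=
    mul_le_mul_of_nonneg_right hLC (by positivity)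
  linarith

end

end

end Pool.Agent.Helper43x.NW
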