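import Mathlib

/-! The circle operator: the averages of a function on the upper half-plane over the hyperbolic
circles of a fixed radius, against a character. It commutes with the group and changes the weight. -/

set_option autoImplicit false

namespace Pool.Agent.Helper43x.NW

open UpperHalfPlane MeasureTheory Filter Topology
open scoped MatrixGroups ComplexConjugate

noncomputable section

/-- the point of the circle of radius `1/2` -/
def cw (θ : ℝ) : ℂ := 1 / 2 * Complex.exp (θ * Complex.I)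

theorem norm_cw (θ : ℝ) : ‖cw θ‖ = 1 / 2 := by
  unfold cw
  rw [norm_mul, Complex.norm_exp_ofReal_mul_I, mul_one]
  norm_num

theorem one_sub_ne {w : ℂ} (hw : ‖w‖ = 1 / 2) : 1 - w ≠ 0 := by
  intro h
  rw [← sub_eq_zero.1 h, norm_one] at hw
  norm_num at hw

theorem cw_ne (θ : ℝ) : 1 - cw θ ≠ 0 := one_sub_ne (norm_cw θ)

theorem cw_add (θ α : ℝ) : cw (θ + α) = cw θ * Complex.exp (α * Complex.I) := by
  unfold cw
  push_cast
  rw [add_mul, Complex.exp_add]
  ring

theorem cw_period (θ : ℝ) : cw (θ + 2 * Real.pi) = cw θ := by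
  rw [cw_add]
  push_cast
  rw [Complex.exp_two_pi_mul_I, mul_one]

theorem continuous_cw : Continuous cw := by
  unfold cw
  fun_prop

theorem norm_one_sub_le {w : ℂ} (hw : ‖w‖ = 1 / 2) : ‖1 - w‖ ≤ 3 / 2 := by
  have := norm_sub_le (1 : ℂ) w
  rw [norm_one, hw] at this
  linarith

theorem le_norm_one_sub {w : ℂ} (hw : ‖w‖ = 1 / 2) : 1 / 2 ≤ ‖1 - w‖ := by
  have := norm_sub_norm_le (1 : ℂ) w
  rw [norm_one, hw] at this
  linarith

/-- the complex slope -/
def kay (w : ℂ) : ℂ := (1 + w) / (1 - w)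

theorem kay_re {w : ℂ} (hw : ‖w‖ = 1 / 2) : (kay w).re = 3 / 4 / ‖1 - w‖ ^ 2 := by
  have h0 := one_sub_ne hw
  have h1 : kay w = (1 + w) * conj (1 - w) / ((‖1 - w‖ ^ 2 : ℝ) : ℂ) := by
    unfold kay
    rw [← Complex.normSq_eq_norm_sq, ← Complex.mul_conj]
    have : conj (1 - w) ≠ 0 := (map_ne_zero (starRingEnd ℂ)).2 h0
    field_simp
  rw [h1, Complex.div_ofReal_re]
  congr 1
  have h2 : w.re ^ 2 + w.im ^ 2 = 1 / 4 := by
    have h3 := Complex.normSq_eq_norm_sq w
    rw [hw, Complex.normSq_apply] at h3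
    nlinarith
  simp
  nlinarith

theorem kay_re_pos {w : ℂ} (hw : ‖w‖ = 1 / 2) : 0 < (kay w).re := by
  rw [kay_re hw]
  have := le_norm_one_sub hw
  positivity

theorem kay_re_lower {w : ℂ} (hw : ‖w‖ = 1 / 2) : 1 / 3 ≤ (kay w).re := by
  have h1 := le_norm_one_sub hw
  have h2 := norm_one_sub_le hw
  rw [kay_re hw, le_div_iff₀ (by positivity)]
  nlinarith

theorem kay_re_upper {w : ℂ} (hw : ‖w‖ = 1 / 2) : (kay w).re ≤ 3 := by
  have h1 := le_norm_one_sub hw
  rw [kay_re hw, div_le_iff₀ (by positivity)]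
  nlinarith

/-- the point of the hyperbolic circle around `z` -/
def ptc (z : ℍ) (w : ℂ) : ℂ := z.re + z.im * Complex.I * kay w

theorem ptc_eq (z : ℍ) {w : ℂ} (hw : ‖w‖ = 1 / 2) :
    ptc z w = ((z : ℂ) - conj (z : ℂ) * w) / (1 - w) := by
  have h0 := one_sub_ne hw
  have h1 : (z : ℂ) = z.re + z.im * Complex.I := (Complex.re_add_im (z : ℂ)).symm
  have h2 : conj (z : ℂ) = z.re - z.im * Complex.I := by
    rw [h1]
    simp
    ring
  unfold ptc kay
  rw [h2, h1]
  field_simp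
  ring

theorem ptc_im (z : ℍ) (w : ℂ) : (ptc z w).im = z.im * (kay w).re := by
  unfold ptc
  simp

theorem ptc_im_pos (z : ℍ) {w : ℂ} (hw : ‖w‖ = 1 / 2) : 0 < (ptc z w).im := by
  rw [ptc_im]
  exact mul_pos z.im_pos (kay_re_pos hw)

/-- the point of the hyperbolic circle, in the upper half-plane -/
def ptH (z : ℍ) (θ : ℝ) : ℍ := ⟨ptc z (cw θ), ptc_im_pos z (norm_cw θ)⟩

theorem ptH_coe (z : ℍ) (θ : ℝ) : (ptH z θ : ℂ) = ptc z (cw θ) := rfl

theorem ptH_im (z : ℍ) (θ : ℝ) : (ptH z θ).im = z.im * (kay (cw θ)).re := ptc_im z (cw θ)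

theorem ptH_im_lower (z : ℍ) (θ : ℝ) : z.im ≤ 3 * (ptH z θ).im := by
  rw [ptH_im]
  have := kay_re_lower (norm_cw θ)
  nlinarith [z.im_pos]

theorem ptH_period (z : ℍ) (θ : ℝ) : ptH z (θ + 2 * Real.pi) = ptH z θ := by
  apply UpperHalfPlane.ext
  rw [ptH_coe, ptH_coe, cw_period]

theorem continuous_ptH : Continuous fun x : ℍ × ℝ => ptH x.1 x.2 := by
  rw [UpperHalfPlane.isEmbedding_coe.continuous_iff]
  have h1 : Continuous fun x : ℍ × ℝ => (x.1.re : ℂ) :=
    Complex.continuous_ofReal.comp (UpperHalfPlane.continuous_re.comp continuous_fst)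
  have h2 : Continuous fun x : ℍ × ℝ => (x.1.im : ℂ) :=
    Complex.continuous_ofReal.comp (UpperHalfPlane.continuous_im.comp continuous_fst)
  have h3 : Continuous fun x : ℍ × ℝ => cw x.2 := continuous_cw.comp continuous_snd
  have h4 : Continuous fun x : ℍ × ℝ => kay (cw x.2) := by
    unfold kay
    exact (continuous_const.add h3).div (continuous_const.sub h3) fun x => cw_ne x.2
  exact h1.add ((h2.mul continuous_const).mul h4)

/-! ## the group -/

/-- the unimodular automorphy factor -/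
def jj (γ : GL (Fin 2) ℝ) (z : ℍ) : ℂ := denom γ z / (‖denom γ z‖ : ℂ)

theorem norm_jj (γ : GL (Fin 2) ℝ) (z : ℍ) : ‖jj γ z‖ = 1 := by
  unfold jj
  rw [norm_div, Complex.norm_real, norm_norm, div_self]
  exact norm_ne_zero_iff.2 (denom_ne_zero γ z)

/-- the rotation -/
def rot (γ : GL (Fin 2) ℝ) (z : ℍ) : ℂ := conj (denom γ z) / denom γ z

theorem norm_rot (γ : GL (Fin 2) ℝ) (z : ℍ) : ‖rot γ z‖ = 1 := by
  unfold rot
  rw [norm_div, Complex.norm_conj, div_self]
  exact norm_ne_zero_iff.2 (denom_ne_zero γ z)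

theorem denom_pt (γ : GL (Fin 2) ℝ) (z P : ℍ) {w : ℂ} (hw : ‖w‖ = 1 / 2)
    (hP : (P : ℂ) = ptc z w) :
    denom γ P = denom γ z * (1 - w * rot γ z) / (1 - w) := by
  have h0 := one_sub_ne hw
  have hJ := denom_ne_zero γ z
  have e2 : conj (denom γ z) = γ 1 0 * conj (z : ℂ) + γ 1 1 := by
    unfold denom
    simp
  have e3 : denom γ z * (w * rot γ z) = w * conj (denom γ z) := by
    unfold rot
    field_simp
  rw [mul_sub, mul_one, e3, e2]
  unfold denom
  rw [hP, ptc_eq z hw]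
  field_simp
  ring

theorem pt_smul {γ : GL (Fin 2) ℝ} (hγ : 0 < γ.det.val) (z P : ℍ) {w : ℂ} (hw : ‖w‖ = 1 / 2)
    (hP : (P : ℂ) = ptc z w) : ptc (γ • z) (w * rot γ z) = ((γ • P : ℍ) : ℂ) := by
  have hw' : ‖w * rot γ z‖ = 1 / 2 := by rw [norm_mul, norm_rot, mul_one, hw]
  have h0 := one_sub_ne hw
  have h0' := one_sub_ne hw'
  have hJ := denom_ne_zero γ z
  have hJb : conj (denom γ z) ≠ 0 := (map_ne_zero (starRingEnd ℂ)).2 hJ
  rw [ptc_eq _ hw', coe_smul_of_det_pos hγ, coe_smul_of_det_pos hγ, denom_pt γ z P hw hP]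
  have e2 : conj (denom γ z) = γ 1 0 * conj (z : ℂ) + γ 1 1 := by
    unfold denom
    simp
  have e4 : conj (num γ z) = γ 0 0 * conj (z : ℂ) + γ 0 1 := by
    unfold num
    simp
  have e5 : num γ P = (num γ z - conj (num γ z) * w) / (1 - w) := by
    rw [e4]
    unfold num
    rw [hP, ptc_eq z hw]
    field_simp
    ring
  have e6 : conj (num γ z / denom γ z) * (w * rot γ z) = conj (num γ z) * w / denom γ z := by
    rw [map_div₀]
    unfold rot
    field_simp
  rw [e6, e5]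
  field_simp

/-- the unimodular factor on the circle -/
def uu (w : ℂ) : ℂ := (‖1 - w‖ : ℂ) / (1 - w)

theorem norm_uu {w : ℂ} (hw : ‖w‖ = 1 / 2) : ‖uu w‖ = 1 := by
  unfold uu
  rw [norm_div, Complex.norm_real, norm_norm, div_self]
  exact norm_ne_zero_iff.2 (one_sub_ne hw)

/-- the function under the integral -/
def ci (l j : ℕ) (H : ℍ → ℂ) (z : ℍ) (θ : ℝ) : ℂ :=
  H (ptH z θ) * uu (cw θ) ^ l * Complex.exp (-(θ * Complex.I)) ^ j

/-- **The circle operator.** -/
def CO (l j : ℕ) (H : ℍ → ℂ) (z : ℍ) : ℂ := ∫ θ in (0 : ℝ)..(2 * Real.pi), ci l j H z θ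

theorem norm_ci (l j : ℕ) (H : ℍ → ℂ) (z : ℍ) (θ : ℝ) : ‖ci l j H z θ‖ = ‖H (ptH z θ)‖ := by
  unfold ci
  have : ‖Complex.exp (-(θ * Complex.I))‖ = 1 := by
    rw [← neg_mul, ← Complex.ofReal_neg, Complex.norm_exp_ofReal_mul_I]
  rw [norm_mul, norm_mul, norm_pow, norm_pow, norm_uu (norm_cw θ), this, one_pow, one_pow,
    mul_one, mul_one]

theorem ci_period (l j : ℕ) (H : ℍ → ℂ) (z : ℍ) : Function.Periodic (ci l j H z) (2 * Real.pi) := by
  intro θ
  unfold ci
  rw [ptH_period, cw_period]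
  congr 2
  push_cast
  rw [add_mul, neg_add, Complex.exp_add, ← mul_one (Complex.exp (-(θ * Complex.I))), mul_assoc]
  congr 1
  rw [one_mul, Complex.exp_neg, Complex.exp_two_pi_mul_I, inv_one]

theorem CO_shift (l j : ℕ) (H : ℍ → ℂ) (z : ℍ) (α : ℝ) :
    CO l j H z = ∫ θ in (0 : ℝ)..(2 * Real.pi), ci l j H z (θ + α) := by
  unfold CO
  rw [intervalIntegral.integral_comp_add_right]
  have h := (ci_period l j H z).intervalIntegral_add_eq 0 α
  rw [zero_add] at h
  rw [h, zero_add, add_comm α]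

/-- **The circle operator commutes with the group.** -/
theorem CO_smul {γ : GL (Fin 2) ℝ} (hγ : 0 < γ.det.val) {l : ℕ} (j : ℕ) {H H' : ℍ → ℂ}
    (h : ∀ z, H (γ • z) = jj γ z ^ l * H' z) (z : ℍ) :
    CO l j H (γ • z) = jj γ z ^ (l + 2 * j) * CO l j H' z := by
  have hJ := denom_ne_zero γ z
  have hJn : (‖denom γ z‖ : ℂ) ≠ 0 := by exact_mod_cast norm_ne_zero_iff.2 hJ
  set α : ℝ := Complex.arg (rot γ z) with hα
  have hexp : Complex.exp (α * Complex.I) = rot γ z := by
    have h1 := Complex.norm_mul_exp_arg_mul_I (rot γ z)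
    rw [norm_rot, Complex.ofReal_one, one_mul] at h1
    exact h1
  have hconj : conj (denom γ z) * denom γ z = (‖denom γ z‖ : ℂ) ^ 2 := by
    rw [mul_comm, Complex.mul_conj, Complex.normSq_eq_norm_sq]
    push_cast
    ring
  rw [CO_shift l j H (γ • z) α]
  unfold CO
  rw [← intervalIntegral.integral_const_mul]
  refine intervalIntegral.integral_congr fun θ _ => ?_
  have hw := norm_cw θ
  have hw' : ‖cw θ * rot γ z‖ = 1 / 2 := by rw [norm_mul, norm_rot, mul_one, hw]
  have h0 := one_sub_ne hw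
  have h0' := one_sub_ne hw'
  have hcw : cw (θ + α) = cw θ * rot γ z := by rw [cw_add, hexp]
  have hpt : ptH (γ • z) (θ + α) = γ • ptH z θ := by
    apply UpperHalfPlane.ext
    rw [ptH_coe, hcw]
    exact pt_smul hγ z (ptH z θ) hw rfl
  have hd := denom_pt γ z (ptH z θ) hw rfl
  have hj : jj γ (ptH z θ) * uu (cw θ * rot γ z) = jj γ z * uu (cw θ) := by
    unfold jj uu
    rw [hd, norm_div, norm_mul]
    have a1 : (‖1 - cw θ * rot γ z‖ : ℂ) ≠ 0 := by exact_mod_cast norm_ne_zero_iff.2 h0'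
    have a2 : (‖1 - cw θ‖ : ℂ) ≠ 0 := by exact_mod_cast norm_ne_zero_iff.2 h0
    push_cast
    field_simp
  have he : Complex.exp (-(((θ + α : ℝ) : ℂ) * Complex.I)) =
      jj γ z ^ 2 * Complex.exp (-(θ * Complex.I)) := by
    push_cast
    rw [add_mul, neg_add, Complex.exp_add, Complex.exp_neg (α * Complex.I), hexp, mul_comm]
    congr 1
    unfold rot jj
    have hJb : conj (denom γ z) ≠ 0 := (map_ne_zero (starRingEnd ℂ)).2 hJ
    rw [inv_div, div_pow, ← hconj]
    field_simp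
  unfold ci
  rw [hpt, hcw, h, he, mul_pow (jj γ z ^ 2), ← pow_mul, pow_add]
  calc jj γ (ptH z θ) ^ l * H' (ptH z θ) * uu (cw θ * rot γ z) ^ l *
      (jj γ z ^ (2 * j) * Complex.exp (-(θ * Complex.I)) ^ j)
      = (jj γ (ptH z θ) * uu (cw θ * rot γ z)) ^ l * H' (ptH z θ) *
        (jj γ z ^ (2 * j) * Complex.exp (-(θ * Complex.I)) ^ j) := by rw [mul_pow]; ring
    _ = _ := by rw [hj, mul_pow]; ring

theorem norm_CO_le {l j : ℕ} {H : ℍ → ℂ} {z : ℍ} {B : ℝ} (h : ∀ θ, ‖H (ptH z θ)‖ ≤ B) :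
    ‖CO l j H z‖ ≤ B * (2 * Real.pi) := by
  unfold CO
  have h1 := intervalIntegral.norm_integral_le_of_norm_le_const (a := (0 : ℝ))
    (b := 2 * Real.pi) (f := ci l j H z) (C := B) (fun θ _ => by rw [norm_ci]; exact h θ)
  have hpi := Real.pi_pos
  rwa [sub_zero, abs_of_pos (by positivity)] at h1

theorem continuous_ci (l j : ℕ) {H : ℍ → ℂ} (hH : Continuous H) :
    Continuous fun x : ℍ × ℝ => ci l j H x.1 x.2 := by
  unfold ci
  have h3 : Continuous fun x : ℍ × ℝ => cw x.2 := continuous_cw.comp continuous_snd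
  have h4 : Continuous fun x : ℍ × ℝ => uu (cw x.2) := by
    unfold uu
    exact (Complex.continuous_ofReal.comp (continuous_const.sub h3).norm).div
      (continuous_const.sub h3) fun x => cw_ne x.2
  have h5 : Continuous fun x : ℍ × ℝ => Complex.exp (-(x.2 * Complex.I)) := by fun_prop
  exact ((hH.comp continuous_ptH).mul (h4.pow l)).mul (h5.pow j)

theorem continuous_CO (l j : ℕ) {H : ℍ → ℂ} (hH : Continuous H) : Continuous (CO l j H) := by
  unfold CO
  exact intervalIntegral.continuous_parametric_intervalIntegral_of_continuous'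
    (continuous_ci l j hH) 0 (2 * Real.pi)

end

end Pool.Agent.Helper43x.NW
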