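import Pool.Agent.Helper43x.NW.Forms

/-! The circle operator on cusp forms. -/

set_option autoImplicit false

namespace Pool.Agent.Helper43x.NW

open MeasureTheory Filter Topology UpperHalfPlane CongruenceSubgroup ConjAct
open scoped ENNReal MatrixGroups Modular ModularForm Pointwise
open Pool.Agent.W165.RS (ac ac_zero hasSum_f summable_f ee one_mem0)

noncomputable section

variable {κ N : ℕ}

/-! ### the circle operator -/

theorem exists_pt {γ : GL (Fin 2) ℝ} (hγ : 0 < γ.det.val) (z : ℍ) (θ : ℝ) :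
    ∃ θ' : ℝ, ptH (γ • z) θ = γ • ptH z θ' := by
  set α : ℝ := Complex.arg (rot γ z) with hα
  have hexp : Complex.exp (α * Complex.I) = rot γ z := by
    have h1 := Complex.norm_mul_exp_arg_mul_I (rot γ z)
    rw [norm_rot, Complex.ofReal_one, one_mul] at h1
    exact h1
  refine ⟨θ - α, ?_⟩
  apply UpperHalfPlane.ext
  rw [ptH_coe, ← pt_smul hγ z (ptH z (θ - α)) (norm_cw (θ - α)) rfl, ← hexp, ← cw_add,
    sub_add_cancel]

theorem uu_pow (κ : ℕ) {w : ℂ} (hw : ‖w‖ = 1 / 2) (y : ℝ) :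
    ((y * (kay w).re : ℝ) : ℂ) ^ κ * uu w ^ (2 * κ) =
      (3 / 4 * y : ℂ) ^ κ * ((1 - w)⁻¹) ^ (2 * κ) := by
  have h0 := one_sub_ne hw
  have hn : (‖1 - w‖ : ℂ) ≠ 0 := by exact_mod_cast norm_ne_zero_iff.2 h0
  rw [pow_mul, pow_mul, ← mul_pow, ← mul_pow, kay_re hw]
  congr 1
  unfold uu
  push_cast
  field_simp


theorem continuous_ki' (l j : ℕ) (t : ℝ) : Continuous (ki l j t) := by
  have h3 : Continuous fun x : ℝ => cw x := continuous_cw
  have h4 : Continuous fun x : ℝ => kay (cw x) := by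
    unfold kay
    exact (continuous_const.add h3).div (continuous_const.sub h3) fun x => cw_ne x
  have h5 : Continuous fun x : ℝ => (1 - cw x)⁻¹ :=
    (continuous_const.sub h3).inv₀ fun x => cw_ne x
  have h6 : Continuous fun x : ℝ => ee' x := by unfold ee'; fun_prop
  have h7 : Continuous fun x : ℝ => Complex.exp (-(2 * Real.pi * t * kay (cw x))) :=
    Complex.continuous_exp.comp (continuous_const.mul h4).neg
  exact ((h5.pow l).mul h7).mul (h6.pow j)

theorem continuous_cc (l j : ℕ) (t : ℝ) (c : ℂ) : Continuous fun θ => c * ki l j t θ :=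
  continuous_const.mul (continuous_ki' l j t)

theorem CO_dec [NeZero N] (j : ℕ) (f : SK κ N) (g : SL(2, ℤ)) : ∃ K : ℝ, 0 ≤ K ∧ ∀ z : ℍ,
    ‖CO (2 * κ) j (Ph f) ((g : GL (Fin 2) ℝ) • z)‖ * z.im ≤ K := by
  obtain ⟨K, hK, hb⟩ := Ph_dec f g
  have hpi := Real.pi_pos
  refine ⟨3 * K * (2 * Real.pi), by positivity, fun z => ?_⟩
  have hz := z.im_pos
  have h1 : ∀ θ, ‖Ph f (ptH ((g : GL (Fin 2) ℝ) • z) θ)‖ ≤ 3 * K / z.im := by
    intro θ
    obtain ⟨θ', hθ⟩ := exists_pt (γ := (g : GL (Fin 2) ℝ)) (by rw [det_SL]; exact one_pos) z θ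
    rw [hθ, le_div_iff₀ hz]
    have h2 := hb (ptH z θ')
    have h3 := ptH_im_lower z θ'
    have h4 := norm_nonneg (Ph f ((g : GL (Fin 2) ℝ) • ptH z θ'))
    nlinarith
  have h5 := norm_CO_le (l := 2 * κ) (j := j) h1
  calc ‖CO (2 * κ) j (Ph f) ((g : GL (Fin 2) ℝ) • z)‖ * z.im
      ≤ 3 * K / z.im * (2 * Real.pi) * z.im := mul_le_mul_of_nonneg_right h5 hz.le
    _ = _ := by field_simp

/-- the terms of the Fourier expansion on the circle -/
def FT (j : ℕ) (f : SK κ N) (x y : ℝ) (n : ℕ) (θ : ℝ) : ℂ :=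
  ac f n * ee n x * (3 / 4 * y : ℂ) ^ κ * ki (2 * κ) j (n * y) θ

theorem hasSum_FT [NeZero N] (j : ℕ) (f : SK κ N) (z : ℍ) (θ : ℝ) :
    HasSum (fun n => FT j f z.re z.im n θ) (ci (2 * κ) j (Ph f) z θ) := by
  have hw := norm_cw θ
  have h1 := (hasSum_ac f (ptH z θ)).mul_left (((ptH z θ).im : ℂ) ^ κ * uu (cw θ) ^ (2 * κ) *
    ee' θ ^ j)
  have e1 : ci (2 * κ) j (Ph f) z θ = ((ptH z θ).im : ℂ) ^ κ * uu (cw θ) ^ (2 * κ) *
      ee' θ ^ j * f (ptH z θ) := by
    unfold ci Ph ee'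
    ring
  rw [e1]
  refine h1.congr_fun fun n => ?_
  unfold FT
  rw [ptH_im, uu_pow κ hw z.im, ptH_coe]
  unfold ptc ki ee
  have e2 : Complex.exp (2 * Real.pi * Complex.I * n * (z.re + z.im * Complex.I * kay (cw θ))) =
      Complex.exp (2 * Real.pi * ((n : ℕ) : ℤ) * z.re * Complex.I) *
      Complex.exp (-(2 * Real.pi * ((n * z.im : ℝ) : ℂ) * kay (cw θ))) := by
    rw [← Complex.exp_add]
    congr 1
    push_cast
    linear_combination (2 * Real.pi * n * z.im * kay (cw θ)) * Complex.I_sq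
  rw [e2]
  ring

theorem continuous_FT (j : ℕ) (f : SK κ N) (x y : ℝ) (n : ℕ) : Continuous (FT j f x y n) := by
  have h3 := continuous_cc (2 * κ) j (n * y) (ac f n * ee n x * (3 / 4 * y : ℂ) ^ κ)
  exact h3

theorem FT_le (j : ℕ) (f : SK κ N) (x : ℝ) {y : ℝ} (hy : 0 < y) (n : ℕ) (θ : ℝ) :
    ‖FT j f x y n θ‖ ≤ ‖(3 / 4 * y : ℂ) ^ κ‖ * 2 ^ (2 * κ) *
        ‖ac f n * ((Real.exp (-(2 * Real.pi * n * (y / Real.pi))) : ℝ) : ℂ)‖ := by
  have hpi := Real.pi_pos
  unfold FT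
  rw [norm_mul, norm_mul, norm_mul, norm_mul, Pool.Agent.W165.RS.norm_ee, mul_one,
    Complex.norm_real, Real.norm_of_nonneg (Real.exp_pos _).le]
  have h2 := norm_ki_le (2 * κ) j (t := n * y) (by positivity) θ
  have e3 : 2 * Real.pi * n * (y / Real.pi) = 2 * (n * y) := by field_simp
  rw [e3]
  calc ‖ac f n‖ * ‖(3 / 4 * y : ℂ) ^ κ‖ * ‖ki (2 * κ) j (n * y) θ‖
      ≤ ‖ac f n‖ * ‖(3 / 4 * y : ℂ) ^ κ‖ * (2 ^ (2 * κ) * Real.exp (-(2 * (n * y)))) :=
        mul_le_mul_of_nonneg_left h2 (by positivity)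
    _ = _ := by ring

theorem FT_summable [NeZero N] (j : ℕ) (f : SK κ N) (x : ℝ) {y : ℝ} (hy : 0 < y) :
    Summable fun n => ∫ θ in Set.Ioc 0 (2 * Real.pi), ‖FT j f x y n θ‖ := by
  have hpi := Real.pi_pos
  have hle : (0 : ℝ) ≤ 2 * Real.pi := by positivity
  have hFi : ∀ n, Integrable (FT j f x y n) (volume.restrict (Set.Ioc 0 (2 * Real.pi))) :=
    fun n => (continuous_FT j f x y n).integrableOn_Ioc
  refine Summable.of_nonneg_of_le (fun n => integral_nonneg fun θ => norm_nonneg _)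
    (fun n => ?_) ((summable_f f (show 0 < y / Real.pi by positivity)).mul_left
      (‖(3 / 4 * y : ℂ) ^ κ‖ * 2 ^ (2 * κ) * (2 * Real.pi)))
  have h3 : ∫ θ in Set.Ioc 0 (2 * Real.pi), ‖FT j f x y n θ‖ ≤ ∫ θ in Set.Ioc 0 (2 * Real.pi),
      (‖(3 / 4 * y : ℂ) ^ κ‖ * 2 ^ (2 * κ) *
      ‖ac f n * ((Real.exp (-(2 * Real.pi * n * (y / Real.pi))) : ℝ) : ℂ)‖ : ℝ) :=
    integral_mono (hFi n).norm (integrable_const _) fun θ => FT_le j f x hy n θ
  refine h3.trans (le_of_eq ?_)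
  rw [integral_const]
  simp only [MeasurableSet.univ, measureReal_restrict_apply, Set.univ_inter, smul_eq_mul]
  rw [Real.volume_real_Ioc_of_le hle, sub_zero]
  ring

theorem FT_int (hκ : 0 < κ) (j : ℕ) {f : SK κ N} [NeZero N] (hf : ∀ n, (ac f n).im = 0) (x y : ℝ)
    (n : ℕ) : ∫ θ in Set.Ioc 0 (2 * Real.pi), FT j f x y n θ =
    ((rn f n / n * psi κ j (n * y) : ℝ) : ℂ) * ee n x := by
  have hpi := Real.pi_pos
  have hle : (0 : ℝ) ≤ 2 * Real.pi := by positivity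
  unfold FT
  rw [Complex.ofReal_mul, ← psc_eq, integral_const_mul, ← intervalIntegral.integral_of_le hle]
  unfold psc
  rcases Nat.eq_zero_or_pos n with hn | hn
  · subst hn
    rw [ac_zero, rn_zero]
    simp
  · rw [ac_eq hκ hf hn]
    push_cast
    ring

theorem CO_sum [NeZero N] (hκ : 0 < κ) (j : ℕ) {f : SK κ N} (hf : ∀ n, (ac f n).im = 0) (z : ℍ) :
    HasSum (fun n : ℕ => ((rn f n / n * psi κ j (n * z.im) : ℝ) : ℂ) * ee n z.re)
      (CO (2 * κ) j (Ph f) z) := by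
  have hpi := Real.pi_pos
  have hle : (0 : ℝ) ≤ 2 * Real.pi := by positivity
  have h4 := hasSum_integral_of_summable_integral_norm
    (μ := volume.restrict (Set.Ioc 0 (2 * Real.pi))) (F := FT j f z.re z.im)
    (fun n => (continuous_FT j f z.re z.im n).integrableOn_Ioc) (FT_summable j f z.re z.im_pos)
  have h5 : ∫ θ in Set.Ioc 0 (2 * Real.pi), ∑' n, FT j f z.re z.im n θ =
      CO (2 * κ) j (Ph f) z := by
    unfold CO
    rw [intervalIntegral.integral_of_le hle]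
    exact integral_congr_ae (Eventually.of_forall fun θ => (hasSum_FT j f z θ).tsum_eq)
  rw [h5] at h4
  exact h4.congr_fun fun n => (FT_int hκ j hf z.re z.im n).symm

theorem CO_abs [NeZero N] (hκ : 0 < κ) (j : ℕ) {f : SK κ N} (hf : ∀ n, (ac f n).im = 0) {y : ℝ}
    (hy : 0 < y) : Summable fun n : ℕ => ‖((rn f n / n * psi κ j (n * y) : ℝ) : ℂ)‖ := by
  have hpi := Real.pi_pos
  refine Summable.of_nonneg_of_le (fun n => norm_nonneg _) (fun n => ?_)
    ((summable_f f (show 0 < y / Real.pi by positivity)).mul_left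
      ((3 / 4 * y) ^ κ * 2 ^ (2 * κ) * (2 * Real.pi)))
  rcases Nat.eq_zero_or_pos n with hn | hn
  · subst hn
    rw [ac_zero, rn_zero]
    simp
  · have hn' : (0 : ℝ) < n := by exact_mod_cast hn
    have h1 : ‖((psi κ j (n * y) : ℝ) : ℂ)‖ ≤ (3 / 4 * (n * y)) ^ κ *
        (2 ^ (2 * κ) * Real.exp (-(2 * (n * y))) * (2 * Real.pi)) := by
      rw [← psc_eq]
      unfold psc
      rw [norm_mul, norm_pow]
      have e1 : ‖(3 / 4 * ((n * y : ℝ) : ℂ))‖ = 3 / 4 * (n * y) := by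
        have : (3 / 4 * ((n * y : ℝ) : ℂ)) = ((3 / 4 * (n * y) : ℝ) : ℂ) := by push_cast; ring
        rw [this, Complex.norm_real, Real.norm_of_nonneg (by positivity)]
      rw [e1]
      exact mul_le_mul_of_nonneg_left (norm_int_ki_le (2 * κ) j (by positivity)) (by positivity)
    have e3 : 2 * Real.pi * n * (y / Real.pi) = 2 * (n * y) := by field_simp
    rw [e3, ac_eq hκ hf hn, ← Complex.ofReal_mul (rn f n / n * (n : ℝ) ^ κ),
      Complex.norm_real (rn f n / n * (n : ℝ) ^ κ * _), norm_mul (rn f n / n * (n : ℝ) ^ κ),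
      norm_mul (rn f n / n), Real.norm_of_nonneg (Real.exp_pos _).le,
      Complex.ofReal_mul (rn f n / n), norm_mul ((rn f n / n : ℝ) : ℂ),
      Complex.norm_real (rn f n / n), Real.norm_of_nonneg (pow_nonneg hn'.le κ)]
    refine (mul_le_mul_of_nonneg_left h1 (norm_nonneg _)).trans (le_of_eq ?_)
    rw [mul_pow, mul_pow, mul_pow]
    ring

theorem wv_CO [NeZero N] (hκ : 0 < κ) (j : ℕ) {f : SK κ N} (hf : ∀ n, (ac f n).im = 0) :
    Wv (2 * κ + 2 * j) N (rn f) (psi κ j) (CO (2 * κ) j (Ph f)) where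
  cont := continuous_CO _ _ (continuous_Ph f)
  kern := kern_psi hκ j
  inv := fun γ hγ z => CO_smul (by rw [det_SL]; exact one_pos) j (fun z => Ph_inv f hγ z) z
  dec := CO_dec j f
  sum := fun x y hy => by
    have h := CO_sum hκ j hf ⟨x + y * Complex.I, by simpa using hy⟩
    have hzim : (⟨x + y * Complex.I, by simpa using hy⟩ : ℍ).im = y := by
      simp [UpperHalfPlane.im]
    have hzre : (⟨x + y * Complex.I, by simpa using hy⟩ : ℍ).re = x := by
      simp [UpperHalfPlane.re]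
    rwa [hzim, hzre] at h
  abs := fun {y} hy => CO_abs hκ j hf hy

end

end Pool.Agent.Helper43x.NW
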