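import Pool.Agent.Helper43x.NW.Circf
import Pool.Agent.Helper43x.NW.Bdd
import Pool.Agent.Y722.RS.Dbdd

/-! Two cusp forms of different weights: the cross terms at a prime not dividing the level. -/

set_option autoImplicit false

namespace Pool.Agent.Helper43x.NW

open MeasureTheory Filter Topology UpperHalfPlane CongruenceSubgroup
open scoped ENNReal MatrixGroups Modular ModularForm Pointwise
open Pool.Agent.W97.TW (al al_GL slash_al zero_slash' holo_slash mkSL mkSL_coe mkSL_mem exists_mkSL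
  mkSL_GL al_mul al_det)
open Pool.Agent.W165.RS (ac ac_zero ee)
open Pool.Agent.Y722.RS (al_pos al_al mk_al W W_pos TT TT_W exists_hab CR CR_summable CR_comm
  tsum_upf summable_upf CR_rel shift_summable)

noncomputable section

variable {κ N : ℕ}

theorem slash_scalar (κ : ℕ) (f : ℍ → ℂ) (p : ℕ) [NeZero p] (h : (0:ℤ) < (p:ℤ) * p - 0 * 0) :
    f ∣[((2 * κ : ℕ) : ℤ)] al p 0 0 p h = ((p : ℂ) ^ (2 * ((κ : ℤ) - 1))) • f := by
  funext z
  rw [slash_al]
  have hp : (p : ℂ) ≠ 0 := by exact_mod_cast NeZero.ne p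
  have e1 : (((p : ℤ) : ℂ) * (z : ℂ) + ((0 : ℤ) : ℂ)) / (((0 : ℤ) : ℂ) * z + ((p : ℤ) : ℂ)) = z := by
    push_cast
    rw [zero_mul, zero_add, add_zero, mul_div_cancel_left₀ _ hp]
  have e2 : (((p : ℤ) * p - 0 * 0 : ℤ) : ℂ) = (p : ℂ) ^ (2 : ℤ) := by
    push_cast
    rw [zpow_two]
    ring
  have e3 : (((0 : ℤ) : ℂ) * z + ((p : ℤ) : ℂ)) = p := by push_cast; ring
  rw [e1, ofComplex_apply, e2, e3, Pi.smul_apply, smul_eq_mul, ← zpow_mul, mul_assoc,
    ← zpow_add₀ hp, mul_comm]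
  congr 2
  push_cast
  ring

section
variable [NeZero N] {p : ℕ} [NeZero p] {a b c d : ℤ} (hab : (p : ℤ) * a * d - N * b * c = 1)

theorem det_W : ((W hab).det.val : ℝ) = p := by
  unfold W
  rw [al_det]
  have e : ((p : ℤ) * a) * (p * d) - b * (N * p * c) = p := by linear_combination (p : ℤ) * hab
  rw [e]
  simp

theorem det_W_pos : 0 < (W hab).det.val := by
  rw [det_W]
  exact_mod_cast NeZero.pos p

theorem slf_W (f : SK κ N) : (slf p f : ℍ → ℂ) ∣[((2 * κ : ℕ) : ℤ)] W hab =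
    ((p : ℂ) ^ (2 * ((κ : ℤ) - 1))) • (f : ℍ → ℂ) := by
  have hp0 : (0:ℤ) < (p:ℤ) * p - 0 * 0 := by
    have : (0:ℤ) < p := by exact_mod_cast NeZero.pos p
    rw [mul_zero, sub_zero]
    exact mul_pos this this
  have hdet : ((p : ℤ) * a) * d - b * (N * c) = 1 := by linear_combination hab
  rw [slf_coe, ← SlashAction.slash_mul]
  have e1 : al p 0 0 1 (al_pos p) * W hab =
      (mkSL (p * a) b (N * c) d hdet : GL (Fin 2) ℝ) * al p 0 0 p hp0 := by
    rw [mk_al]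
    refine al_al _ _ _ _ ?_
    rw [Matrix.mul_fin_two, Matrix.mul_fin_two]
    ext i j
    fin_cases i <;> fin_cases j <;> simp <;> ring
  rw [e1, SlashAction.slash_mul, slash_mem f ((mkSL_mem _ _ _ _ hdet N).2 (dvd_mul_right _ _)),
    slash_scalar]

theorem σ_W (u : ℂ) : σ (W hab) u = u := by
  have hdet := det_W_pos hab
  unfold σ
  rw [if_pos hdet]
  rfl

theorem upf_W (f : SK κ N) : (upf p f : ℍ → ℂ) ∣[((2 * κ : ℕ) : ℤ)] W hab =
    ((((W hab).det.val : ℝ) : ℂ) ^ ((κ : ℤ) - 1)) • (f : ℍ → ℂ) := by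
  have hp : (p : ℂ) ≠ 0 := by exact_mod_cast NeZero.ne p
  rw [upf_coe, ModularForm.smul_slash, slf_W, σ_W, smul_smul, ← zpow_add₀ hp, det_W]
  congr 2
  ring

theorem g_W (g : SK κ N) : (g : ℍ → ℂ) ∣[((2 * κ : ℕ) : ℤ)] W hab =
    ((((W hab).det.val : ℝ) : ℂ) ^ ((κ : ℤ) - 1)) • (upf p g : ℍ → ℂ) := by
  have hp : (p : ℂ) ≠ 0 := by exact_mod_cast NeZero.ne p
  have hdet : a * (p * d) - b * (N * c) = 1 := by linear_combination hab
  have e1 : W hab = (mkSL a b (N * c) (p * d) hdet : GL (Fin 2) ℝ) * al p 0 0 1 (al_pos p) := by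
    rw [mk_al]
    apply Units.ext
    rw [Units.val_mul]
    unfold W
    rw [al_GL, al_GL, al_GL, Matrix.mul_fin_two]
    ext i j
    fin_cases i <;> fin_cases j <;> simp <;> ring
  have e2 : (g : ℍ → ℂ) ∣[((2 * κ : ℕ) : ℤ)] W hab = (slf p g : ℍ → ℂ) := by
    rw [e1, SlashAction.slash_mul, slash_mem g ((mkSL_mem _ _ _ _ hdet N).2 (dvd_mul_right _ _)),
      slf_coe]
  rw [e2, upf_coe, smul_smul, det_W, Complex.ofReal_natCast, ← zpow_add₀ hp]
  have : ((κ : ℤ) - 1) + (1 - (κ : ℤ)) = 0 := by ring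
  rw [this, zpow_zero, one_smul]

end

theorem restr_coe [NeZero N] (M : ℕ) [NeZero M] (hNM : N ∣ M) (f : SK κ N) :
    (restr M hNM f : ℍ → ℂ) = f := rfl

theorem real_restr [NeZero N] (M : ℕ) [NeZero M] (hNM : N ∣ M) {f : SK κ N}
    (hf : ∀ n, (ac f n).im = 0) (n : ℕ) : (ac (restr M hNM f) n).im = 0 := hf n

theorem real_upf [NeZero N] (p : ℕ) [NeZero p] {f : SK κ N} (hf : ∀ n, (ac f n).im = 0) (n : ℕ) :
    (ac (upf p f) n).im = 0 := by
  rw [ac_upf]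
  split_ifs
  · have h1 : ac f (n / p) = ((ac f (n / p)).re : ℂ) := by
      apply Complex.ext
      · simp
      · simp [hf]
    rw [h1, ← Complex.ofReal_natCast, ← Complex.ofReal_pow, ← Complex.ofReal_mul,
      Complex.ofReal_im]
  · simp

theorem rn_upf [NeZero N] (hκ : 0 < κ) (p : ℕ) [NeZero p] (f : SK κ N) (n : ℕ) :
    rn (upf p f) n = if p ∣ n then p * rn f (n / p) else 0 := by
  unfold rn
  rw [ac_upf]
  split_ifs with h
  · obtain ⟨m, rfl⟩ := h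
    have hp : (p : ℝ) ≠ 0 := by exact_mod_cast NeZero.ne p
    rw [Nat.mul_div_cancel_left _ (NeZero.pos p)]
    have h1 : (((p : ℂ) ^ κ) * ac f m).re = (p : ℝ) ^ κ * (ac f m).re := by
      rw [← Complex.ofReal_natCast, ← Complex.ofReal_pow, Complex.re_ofReal_mul]
    rw [h1]
    rcases Nat.eq_zero_or_pos m with hm | hm
    · subst hm
      rw [ac_zero]
      simp
    · have hm' : (m : ℝ) ≠ 0 := by exact_mod_cast hm.ne'
      generalize (ac f m).re = r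
      obtain ⟨k, hk⟩ : ∃ k, κ = k + 1 := ⟨κ - 1, by omega⟩
      have hk' : κ - 1 = k := by omega
      rw [hk', hk, Nat.cast_mul, mul_pow, pow_succ]
      field_simp
  · simp

theorem Wv.cast {w w' : ℕ} (e : w = w') {c : ℕ → ℝ} {ψ : ℝ → ℝ} {H : ℍ → ℂ} (h : Wv w N c ψ H) :
    Wv w' N c ψ H := e ▸ h

theorem wv_Ph' [NeZero N] (hκ : 0 < κ) (j : ℕ) {f : SK (κ + j) N} (hf : ∀ n, (ac f n).im = 0) :
    Wv (2 * κ + 2 * j) N (rn f) (phi (κ + j)) (Ph f) :=
  Wv.cast (mul_add 2 κ j) (wv_Ph (by omega) hf)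

/-- **Equality of the mean values for two forms of different weights.** -/
theorem TT_cross [NeZero N] {p : ℕ} [NeZero p] (h : Nat.Coprime p N) (hκ : 0 < κ) (j : ℕ)
    {f : SK (κ + j) N} {g : SK κ N} (hf : ∀ n, (ac f n).im = 0) (hg : ∀ n, (ac g n).im = 0)
    (u : ℝ) :
    TT (N * p) (FU (Ph (upf p f)) (CO (2 * κ) j (Ph (restr (N * p) (dvd_mul_right N p) g))) u) =
      TT (N * p) (FU (Ph (restr (N * p) (dvd_mul_right N p) f)) (CO (2 * κ) j (Ph (upf p g))) u)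
      := by
  obtain ⟨a, b, hab⟩ := exists_hab h
  have w1 := wv_Ph' hκ j (real_upf p hf)
  have w2 := wv_CO hκ j (real_restr (N * p) (dvd_mul_right N p) hg)
  have h1 := TT_W hab (FU_meas w1 w2 u) (FU_inv w1 w2 u)
  rw [← h1]
  congr 1
  funext z
  refine FU_smul (2 * κ + 2 * j) ?_ ?_ u
  · rw [← mul_add]
    exact Ph_smul (det_W_pos hab) (upf p f) (restr (N * p) (dvd_mul_right N p) f) (upf_W hab f) z
  · exact CO_smul (det_W_pos hab) j (fun z => Ph_smul (det_W_pos hab)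
      (restr (N * p) (dvd_mul_right N p) g) (upf p g) (g_W hab g) z) z

/-! ### sequences -/

/-- the sequence of `p f(pz)` -/
def us (p : ℕ) (c : ℕ → ℝ) (n : ℕ) : ℝ := if p ∣ n then p * c (n / p) else 0

theorem rn_upf' [NeZero N] (hκ : 0 < κ) (p : ℕ) [NeZero p] (f : SK κ N) :
    rn (upf p f) = us p (rn f) := funext (rn_upf hκ p f)

theorem us_zero {p : ℕ} {c : ℕ → ℝ} (h : c 0 = 0) : us p c 0 = 0 := by
  unfold us
  simp [h]

theorem CR_us (p : ℕ) [NeZero p] (c b : ℕ → ℝ) (s : ℝ) :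
    CR (us p c) b s = (p : ℝ) ^ (-s) * CR c (fun n => b (p * n)) s := by
  unfold CR
  rw [tsum_upf p, ← tsum_mul_left]
  · refine tsum_congr fun m => ?_
    unfold us
    rw [if_pos (dvd_mul_right p m), Nat.mul_div_cancel_left _ (NeZero.pos p)]
    push_cast
    rw [Real.mul_rpow (Nat.cast_nonneg _) (Nat.cast_nonneg _)]
    have hp : (p : ℝ) ≠ 0 := by exact_mod_cast NeZero.ne p
    rcases Nat.eq_zero_or_pos m with rfl | hm
    · simp
    · have hm' : (m : ℝ) ≠ 0 := by exact_mod_cast hm.ne'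
      field_simp
  · intro n hn
    unfold us
    rw [if_neg hn]
    simp

theorem Smc.us {p : ℕ} [NeZero p] {c : ℕ → ℝ} (h : Smc c) : Smc (us p c) := by
  intro s hs
  rw [summable_upf p]
  · have h1 := (h s hs).mul_left ((p : ℝ) * (p : ℝ) ^ (-s))
    refine h1.congr fun m => ?_
    unfold NW.us
    rw [if_pos (dvd_mul_right p m), Nat.mul_div_cancel_left _ (NeZero.pos p)]
    push_cast
    rw [Real.mul_rpow (Nat.cast_nonneg _) (Nat.cast_nonneg _)]
    have hp : (p : ℝ) ≠ 0 := by exact_mod_cast NeZero.ne p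
    rcases Nat.eq_zero_or_pos m with rfl | hm
    · simp
    · have hm' : (m : ℝ) ≠ 0 := by exact_mod_cast hm.ne'
      field_simp
  · intro n hn
    unfold NW.us
    rw [if_neg hn]
    simp

theorem MR_lower (hκ : 0 < κ) (j : ℕ) : ∃ m : ℝ, 0 < m ∧ ∀ᶠ s : ℝ in 𝓝[>] 1,
    m ≤ |MR (phi (κ + j)) (psi κ j) s| := by
  obtain ⟨c, hc, hev⟩ := MI_lower hκ j 0
  refine ⟨c, hc, ?_⟩
  filter_upwards [hev] with s hs
  rw [Complex.ofReal_zero, zero_mul, add_zero, MI_ofReal, Complex.norm_real,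
    Real.norm_eq_abs] at hs
  exact hs

theorem MR_phi_eq (hκ : 0 < κ) (s : ℝ) (hs : 0 < s) : MR (phi κ) (phi κ) s =
    (1 / (4 * Real.pi)) ^ (2 * (κ : ℝ) + s - 1) * Real.Gamma (2 * (κ : ℝ) + s - 1) := by
  have hpi := Real.pi_pos
  have hκ1 : (1 : ℝ) ≤ κ := by exact_mod_cast hκ
  have ha : 0 < 2 * (κ : ℝ) + s - 1 := by linarith
  have h1 : MI (phi κ) (phi κ) s = ((∫ t in Set.Ioi (0 : ℝ),
      t ^ ((2 * (κ : ℝ) + s - 1) - 1) * Real.exp (-(4 * Real.pi * t)) : ℝ) : ℂ) := by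
    unfold MI
    rw [← integral_complex_ofReal]
    refine setIntegral_congr_fun measurableSet_Ioi fun t ht => ?_
    have ht0 : (0 : ℝ) < t := ht
    have e1 : (t : ℂ) ^ ((s : ℂ) - 2) = ((t ^ (s - 2) : ℝ) : ℂ) := by
      rw [Complex.ofReal_cpow ht0.le]
      push_cast
      rfl
    have e2 : t ^ ((2 * (κ : ℝ) + s - 1) - 1) = t ^ κ * t ^ κ * t ^ (s - 2) := by
      rw [← pow_add, ← Real.rpow_natCast, ← Real.rpow_add ht0]
      congr 1
      push_cast
      ring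
    have e3 : Real.exp (-(4 * Real.pi * t)) =
        Real.exp (-(2 * Real.pi * t)) * Real.exp (-(2 * Real.pi * t)) := by
      rw [← Real.exp_add]
      congr 1
      ring
    rw [e1, ← Complex.ofReal_mul, e2, e3]
    congr 1
    unfold phi
    ring
  have h2 : MR (phi κ) (phi κ) s = ∫ t in Set.Ioi (0 : ℝ),
      t ^ ((2 * (κ : ℝ) + s - 1) - 1) * Real.exp (-(4 * Real.pi * t)) := by
    unfold MR
    rw [h1, Complex.ofReal_re]
  rw [h2, Real.integral_rpow_mul_exp_neg_mul_Ioi ha (by positivity : 0 < 4 * Real.pi)]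

theorem MR_phi_pos (hκ : 0 < κ) (s : ℝ) (hs : 0 < s) : 0 < MR (phi κ) (phi κ) s := by
  have hpi := Real.pi_pos
  have hκ1 : (1 : ℝ) ≤ κ := by exact_mod_cast hκ
  rw [MR_phi_eq hκ s hs]
  exact mul_pos (by positivity) (Real.Gamma_pos_of_pos (by linarith))

theorem MR_phi_lower (hκ : 0 < κ) : ∃ m : ℝ, 0 < m ∧ ∀ᶠ s : ℝ in 𝓝[>] 1,
    m ≤ MR (phi κ) (phi κ) s := by
  have hpi := Real.pi_pos
  have hκ1 : (1 : ℝ) ≤ κ := by exact_mod_cast hκ
  have c1 : ContinuousAt (fun s : ℝ => (1 / (4 * Real.pi)) ^ (2 * (κ : ℝ) + s - 1)) 1 :=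
    ContinuousAt.rpow continuousAt_const (by fun_prop) (Or.inl (by positivity))
  have c2 : ContinuousAt (fun s : ℝ => Real.Gamma (2 * (κ : ℝ) + s - 1)) 1 := by
    have : ContinuousAt Real.Gamma (2 * (κ : ℝ) + 1 - 1) := by
      refine (Real.differentiableAt_Gamma fun m => ?_).continuousAt
      have : (0 : ℝ) ≤ m := Nat.cast_nonneg m
      intro h
      linarith
    exact ContinuousAt.comp (f := fun s : ℝ => 2 * (κ : ℝ) + s - 1) this (by fun_prop)
  have hlim := ((c1.mul c2).tendsto).mono_left (nhdsWithin_le_nhds (s := Set.Ioi (1 : ℝ)))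
  have hpos := MR_phi_pos hκ 1 one_pos
  rw [MR_phi_eq hκ 1 one_pos] at hpos
  refine ⟨_, half_pos hpos, ?_⟩
  filter_upwards [hlim.eventually (lt_mem_nhds (half_lt_self hpos)), self_mem_nhdsWithin]
    with s hs h1
  have h1' : (1 : ℝ) < s := h1
  rw [MR_phi_eq hκ s (by linarith)]
  exact hs.le

/-- the form gives a good sequence -/
theorem rs_seq [NeZero N] (hκ : 0 < κ) {f : SK κ N} (hf : ∀ n, (ac f n).im = 0)
    (h1 : rn f 1 = 1) :
    Smc (rn f) ∧ ∃ C : ℝ, ∀ᶠ s : ℝ in 𝓝[>] 1, (s - 1) * CR (rn f) (rn f) s ≤ C := by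
  obtain ⟨a, C, hC, hev⟩ := one_bound (wv_Ph hκ hf) (rn_zero f) h1 (MR_phi_pos hκ)
  obtain ⟨m, hm, hM⟩ := MR_phi_lower hκ
  refine ⟨a, C / m, ?_⟩
  filter_upwards [hev, hM, self_mem_nhdsWithin] with s e1 e2 e3
  have e3' : (1 : ℝ) < s := e3
  have h0 : 0 ≤ CR (rn f) (rn f) s := tsum_nonneg fun n => by
    have : 0 ≤ rn f n * rn f n := mul_self_nonneg _
    positivity
  rw [le_div_iff₀ hm]
  have h2 : m * ((s - 1) * CR (rn f) (rn f) s) ≤
      MR (phi κ) (phi κ) s * ((s - 1) * CR (rn f) (rn f) s) :=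
    mul_le_mul_of_nonneg_right e2 (mul_nonneg (by linarith) h0)
  linarith

/-- **The cross terms.** -/
theorem cross_bdd [NeZero N] {p : ℕ} [NeZero p] (h : Nat.Coprime p N) (hκ : 0 < κ) (j : ℕ)
    {f : SK (κ + j) N} {g : SK κ N} (hf : ∀ n, (ac f n).im = 0) (hg : ∀ n, (ac g n).im = 0)
    (sf : Smc (rn f)) (sg : Smc (rn g)) :
    ∃ C : ℝ, ∀ᶠ s : ℝ in 𝓝[>] 1,
      |CR (rn f) (fun n => rn g (p * n)) s - CR (rn g) (fun n => rn f (p * n)) s| ≤ C := by
  have hNM := dvd_mul_right N p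
  have hκj : 0 < κ + j := by omega
  obtain ⟨m, hm, hM⟩ := MR_lower hκ j
  have w1 := wv_Ph' hκ j (real_upf p hf)
  have w2 := wv_CO hκ j (real_restr (N * p) hNM hg)
  have w1' := wv_Ph' hκ j (real_restr (N * p) hNM hf)
  have w2' := wv_CO hκ j (real_upf p hg)
  rw [rn_upf' hκj] at w1
  rw [rn_upf' hκ] at w2'
  have e1 : rn (restr (N * p) hNM g) = rn g := rfl
  have e2 : rn (restr (N * p) hNM f) = rn f := rfl
  rw [e1] at w2
  rw [e2] at w1'
  have zf := rn_zero f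
  have zg := rn_zero g
  obtain ⟨C, hC, hev⟩ := cross_cmp w1 w2 w1' w2' (us_zero zf) zg zf (us_zero zg) sf.us sg sf
    sg.us (TT_cross h hκ j hf hg) hm hM
  have hp0 : (0 : ℝ) < p := by exact_mod_cast NeZero.pos p
  have hlt : ∀ᶠ s : ℝ in 𝓝[>] 1, s < 2 :=
    Filter.Eventually.filter_mono nhdsWithin_le_nhds (gt_mem_nhds one_lt_two)
  refine ⟨C * (p : ℝ) ^ (2 : ℝ), ?_⟩
  filter_upwards [hev, self_mem_nhdsWithin, hlt] with s e3 hs hs2
  rw [CR_us, CR_comm (rn f) (NW.us p (rn g)), CR_us, ← mul_sub, abs_mul] at e3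
  set A := CR (rn f) (fun n => rn g (p * n)) s
  set B := CR (rn g) (fun n => rn f (p * n)) s
  have hps : 0 < (p : ℝ) ^ (-s) := Real.rpow_pos_of_pos hp0 _
  rw [abs_of_pos hps] at e3
  have h6 : (1 : ℝ) ≤ (p : ℝ) ^ (-s) * (p : ℝ) ^ (2 : ℝ) := by
    rw [← Real.rpow_add hp0]
    exact Real.one_le_rpow (by exact_mod_cast NeZero.pos p) (by linarith)
  calc |A - B| ≤ |A - B| * ((p : ℝ) ^ (-s) * (p : ℝ) ^ (2 : ℝ)) :=
        le_mul_of_one_le_right (abs_nonneg _) h6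
    _ = (p : ℝ) ^ (-s) * |A - B| * (p : ℝ) ^ (2 : ℝ) := by ring
    _ ≤ _ := mul_le_mul_of_nonneg_right e3 (by positivity)

end

end Pool.Agent.Helper43x.NW
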