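import Pool.Agent.Y149.TL.Defs

/-!
# Tensor products with newforms on the edge line: definitions

The files are about the `L`-functions `L(M ⊗ M(f_1) ⊗ ⋯ ⊗ M(f_k), s)`, `M` an arbitrary motive over `ℚ`
and `f_i` newforms of arbitrary even weights and levels (trivial character), on the line
`Re s = w/2 + 1` at the edge of the half plane of absolute convergence, `w` the weight.
-/

set_option autoImplicit false

namespace Pool.Agent.Helper43x.NW

open Filter Topology Polynomial CongruenceSubgroup
open scoped MatrixGroups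
open Pool.Agent.Y149.TL (Motive edge IsEuler HasOrder tensL)

/-- A newform `f = ∑ a(n) q^n` of weight `2 κ` for `Γ₀(N)`, `N = level`, with the properties of its
Fourier coefficients which are used: `f` is a cusp form, `a(1) = 1`, the `a(n)` are real, the Hecke
relations (at the primes dividing `N` also), the bound of Deligne and, at the primes dividing `N`,
the trivial bound.  Every newform of even weight and trivial character has all these properties
(Hecke, Atkin-Lehner, Deligne). -/
structure Newform where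
  κ : ℕ
  level : ℕ
  form : CuspForm (Gamma0 level : Subgroup (GL (Fin 2) ℝ)) ((2 * κ : ℕ) : ℤ)
  a : ℕ → ℝ
  κ_pos : 0 < κ
  level_pos : 0 < level
  fourier : ∀ z : UpperHalfPlane, HasSum (fun n : ℕ =>
    (a n : ℂ) * Complex.exp (2 * Real.pi * Complex.I * n * z)) (form z)
  one : a 1 = 1
  mul : ∀ m n : ℕ, Nat.Coprime m n → a (m * n) = a m * a n
  pow : ∀ p j : ℕ, p.Prime → a (p ^ (j + 2)) = a p * a (p ^ (j + 1)) -
    (if p ∣ level then 0 else (p : ℝ) ^ (2 * κ - 1) * a (p ^ j))
  good : ∀ p : ℕ, p.Prime → ¬ p ∣ level → |a p| ≤ 2 * Real.sqrt ((p : ℝ) ^ (2 * κ - 1))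
  bad : ∀ p : ℕ, p.Prime → p ∣ level → |a p| ≤ (p : ℝ) ^ (κ - 1)

/-- The newforms `f` and `g` have different normalised Hecke eigenvalues `a(p) / p^{κ - 1/2}` at a prime
`p` not dividing the levels.  By strong multiplicity one this holds for any two different newforms. -/
def Differ (f g : Newform) : Prop :=
  ∃ p : ℕ, p.Prime ∧ ¬ p ∣ f.level ∧ ¬ p ∣ g.level ∧
    f.a p * (p : ℝ) ^ g.κ ≠ g.a p * (p : ℝ) ^ f.κ

/-- The eigenvalues of Frobenius on the motive `M(f)`, of weight `2 κ - 1`, at a prime `p` not dividing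
the level: the roots of `X² - a(p) X + p^{2κ-1}`. -/
noncomputable def frobN (f : Newform) (p : ℕ) : Multiset ℂ :=
  (X ^ 2 - C (f.a p : ℂ) * X + C ((p : ℂ) ^ (2 * f.κ - 1))).roots

/-- The weight of `M(f_{l_1}) ⊗ ⋯ ⊗ M(f_{l_k})`. -/
def wt {ι : Type} (F : ι → Newform) (l : List ι) : ℤ :=
  (l.map fun i => (2 * ((F i).κ : ℤ) - 1)).sum

/-- `B` are the Euler factors of `L(H ⊗ M(f_{l_1}) ⊗ ⋯ ⊗ M(f_{l_k}), s)`. -/
def IsLFactor {ι : Type} (M : Motive) (F : ι → Newform) (l : List ι) (B : Nat.Primes → ℂ[X]) :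
    Prop :=
  IsEuler (M.weight + wt F l) (fun p => tensL (M.frob p) (fun i => frobN (F i) p) l) B

end Pool.Agent.Helper43x.NW
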