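import Pool.Agent.Helper43x.NW.Wave
import Pool.Agent.Y722.RS.Conj

/-! Cusp forms of even weight as functions of unimodular weight, before and after the circle
operator. -/

set_option autoImplicit false

namespace Pool.Agent.Helper43x.NW

open MeasureTheory Filter Topology UpperHalfPlane CongruenceSubgroup ConjAct
open scoped ENNReal MatrixGroups Modular ModularForm Pointwise
open Pool.Agent.W97.TW (al al_GL slash_al zero_slash' holo_slash mkSL mkSL_coe mkSL_mem exists_mkSL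
  mkSL_GL al_mul al_det)
open Pool.Agent.W165.RS (ac ac_zero hasSum_f summable_f ee one_mem0)
open Pool.Agent.Y722.RS (isCusp_iff al_pos im_pos_mul qp al_al mk_al W W_pos)

noncomputable section

/-- cusp forms of weight `2 κ` on `Γ₀(N)` -/
abbrev SK (κ N : ℕ) : Type := CuspForm (Gamma0 N : Subgroup (GL (Fin 2) ℝ)) ((2 * κ : ℕ) : ℤ)

variable {κ N : ℕ}

theorem slash_mem (f : SK κ N) {γ : SL(2, ℤ)} (h : γ ∈ Gamma0 N) :
    (f : ℍ → ℂ) ∣[((2 * κ : ℕ) : ℤ)] (γ : GL (Fin 2) ℝ) = f :=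
  SlashInvariantForm.slash_action_eqn f.toSlashInvariantForm _ ⟨γ, h, rfl⟩

/-- a form of level `N` as a form of level `M`, `N ∣ M` -/
def restr [NeZero N] (M : ℕ) [NeZero M] (hNM : N ∣ M) (f : SK κ N) : SK κ M where
  toFun := f
  slash_action_eq' := by
    intro γ hγ
    obtain ⟨γ', hγ', rfl⟩ := hγ
    refine slash_mem f ?_
    obtain ⟨a, b, c, d, hdet, rfl⟩ := exists_mkSL γ'
    have h1 : (M : ℤ) ∣ c := (mkSL_mem a b c d hdet M).1 hγ'
    exact (mkSL_mem a b c d hdet N).2 ((Int.natCast_dvd_natCast.2 hNM).trans h1)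
  holo' := f.holo'
  zero_at_cusps' := fun hc => f.zero_at_cusps' (isCusp_iff N M hc)

theorem ac_restr [NeZero N] (M : ℕ) [NeZero M] (hNM : N ∣ M) (f : SK κ N) (n : ℕ) :
    ac (restr M hNM f) n = ac f n := rfl

/-- `p^{2κ-1} f(pz)` -/
def slf [NeZero N] (p : ℕ) [NeZero p] (f : SK κ N) : SK κ (N * p) where
  toFun := (f : ℍ → ℂ) ∣[((2 * κ : ℕ) : ℤ)] al p 0 0 1 (al_pos p)
  slash_action_eq' := by
    intro γ hγ
    obtain ⟨γ', hγ', rfl⟩ := hγ
    obtain ⟨a, b, c, d, hdet, rfl⟩ := exists_mkSL γ'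
    have hdvd : ((N * p : ℕ) : ℤ) ∣ c := (mkSL_mem a b c d hdet (N * p)).1 hγ'
    obtain ⟨c', rfl⟩ := hdvd
    have hdet' : a * d - ((p : ℤ) * b) * (N * c') = 1 := by
      push_cast at hdet
      linear_combination hdet
    have hmul := al_mul (al_pos p) (al_pos p) (mkSL a b ((N * p : ℕ) * c') d hdet)
      (mkSL a (p * b) (N * c') d hdet') (by
        rw [mkSL_coe, mkSL_coe, Matrix.mul_fin_two, Matrix.mul_fin_two]
        ext i j
        fin_cases i <;> fin_cases j <;> simp <;> ring)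
    change ((f : ℍ → ℂ) ∣[((2 * κ : ℕ) : ℤ)] al p 0 0 1 (al_pos p)) ∣[((2 * κ : ℕ) : ℤ)]
      ((mkSL a b ((N * p : ℕ) * c') d hdet : SL(2, ℤ)) : GL (Fin 2) ℝ) = _
    rw [← SlashAction.slash_mul, hmul, SlashAction.slash_mul,
      slash_mem f ((mkSL_mem a (p * b) (N * c') d hdet' N).2 (dvd_mul_right _ _))]
  holo' := holo_slash f p 0 0 1 (al_pos p)
  zero_at_cusps' := fun hc => zero_slash' f p 0 0 1 (al_pos p) (isCusp_iff N (N * p) hc)

theorem slf_coe [NeZero N] (p : ℕ) [NeZero p] (f : SK κ N) :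
    (slf p f : ℍ → ℂ) = (f : ℍ → ℂ) ∣[((2 * κ : ℕ) : ℤ)] al p 0 0 1 (al_pos p) := rfl

/-- `p^κ f(pz)` -/
def upf [NeZero N] (p : ℕ) [NeZero p] (f : SK κ N) : SK κ (N * p) :=
  ((p : ℂ) ^ (1 - (κ : ℤ))) • slf p f

theorem upf_coe [NeZero N] (p : ℕ) [NeZero p] (f : SK κ N) :
    (upf p f : ℍ → ℂ) = ((p : ℂ) ^ (1 - (κ : ℤ))) • (slf p f : ℍ → ℂ) := rfl

theorem upf_apply [NeZero N] (p : ℕ) [NeZero p] (f : SK κ N) (z : ℍ) :
    upf p f z = (p : ℂ) ^ κ * f (ofComplex ((p : ℂ) * z)) := by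
  have hp : (p : ℂ) ≠ 0 := by exact_mod_cast NeZero.ne p
  have h1 : upf p f z = (p : ℂ) ^ (1 - (κ : ℤ)) * slf p f z := rfl
  have h2 : slf p f z = ((f : ℍ → ℂ) ∣[((2 * κ : ℕ) : ℤ)] al p 0 0 1 (al_pos p)) z := rfl
  rw [h1, h2, slash_al]
  have e1 : (((p : ℤ) : ℂ) * (z : ℂ) + ((0 : ℤ) : ℂ)) / (((0 : ℤ) : ℂ) * z + ((1 : ℤ) : ℂ)) =
      (p : ℂ) * z := by push_cast; simp
  have e2 : (((p : ℤ) * 1 - 0 * 0 : ℤ) : ℂ) = (p : ℂ) := by push_cast; ring
  have e3 : (((0 : ℤ) : ℂ) * z + ((1 : ℤ) : ℂ)) = 1 := by push_cast; ring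
  rw [e1, e2, e3, one_zpow, mul_one, mul_comm (f _), ← mul_assoc, ← zpow_add₀ hp]
  congr 1
  rw [← zpow_natCast]
  congr 1
  push_cast
  ring

theorem hasSum_ac [NeZero N] (f : SK κ N) (z : ℍ) :
    HasSum (fun n : ℕ => ac f n * Complex.exp (2 * Real.pi * Complex.I * n * z)) (f z) := by
  have h := ModularForm.hasSum_qExpansion (Γ := (Gamma0 N : Subgroup (GL (Fin 2) ℝ)))
    (k := ((2 * κ : ℕ) : ℤ)) f one_pos one_mem0 z
  refine h.congr_fun fun n => ?_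
  rw [qp]
  rfl

theorem ac_unique [NeZero N] (f : SK κ N) (c : ℕ → ℂ)
    (h : ∀ z : ℍ, HasSum (fun n : ℕ => c n * Complex.exp (2 * Real.pi * Complex.I * n * z)) (f z))
    (n : ℕ) : ac f n = c n := by
  have h1 := ModularFormClass.qExpansion_coeff_unique (Γ := (Gamma0 N : Subgroup (GL (Fin 2) ℝ)))
    (k := ((2 * κ : ℕ) : ℤ)) (c := c) one_pos one_mem0 (f := f) (fun τ => by
      refine (h τ).congr_fun fun m => ?_
      rw [qp, smul_eq_mul]) n
  exact h1.symm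

theorem ac_upf [NeZero N] (p : ℕ) [NeZero p] (f : SK κ N) (n : ℕ) :
    ac (upf p f) n = if p ∣ n then (p : ℂ) ^ κ * ac f (n / p) else 0 := by
  refine ac_unique _ (fun n => if p ∣ n then (p : ℂ) ^ κ * ac f (n / p) else 0) (fun z => ?_) n
  rw [upf_apply]
  have h1 := (hasSum_ac f (ofComplex ((p : ℂ) * z))).mul_left ((p : ℂ) ^ κ)
  have hinj : Function.Injective (fun n : ℕ => p * n) := fun a b hab =>
    Nat.eq_of_mul_eq_mul_left (NeZero.pos p) hab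
  refine (Function.Injective.hasSum_iff hinj ?_).1 ?_
  · intro m hm
    rw [if_neg, zero_mul]
    rintro ⟨n, rfl⟩
    exact hm ⟨n, rfl⟩
  · refine h1.congr_fun fun m => ?_
    simp only [Function.comp_apply]
    rw [if_pos (dvd_mul_right p m), Nat.mul_div_cancel_left _ (NeZero.pos p),
      ofComplex_apply_of_im_pos (im_pos_mul p z), mul_assoc]
    congr 3
    push_cast
    ring

/-! ### the functions of unimodular weight -/

/-- `y^κ f(z)` -/
def Ph (f : SK κ N) (z : ℍ) : ℂ := (z.im : ℂ) ^ κ * f z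

theorem Ph_smul {N' : ℕ} {γ : GL (Fin 2) ℝ} (hγ : 0 < γ.det.val) (f : SK κ N) (f' : SK κ N')
    (h : (f : ℍ → ℂ) ∣[((2 * κ : ℕ) : ℤ)] γ =
      (((γ.det.val : ℝ) : ℂ) ^ ((κ : ℤ) - 1)) • (f' : ℍ → ℂ)) (z : ℍ) :
    Ph f (γ • z) = jj γ z ^ (2 * κ) * Ph f' z := by
  have h1 := congrFun h z
  rw [ModularForm.slash_apply] at h1
  have hσ : σ γ = ContinuousAlgEquiv.refl ℝ ℂ := by
    unfold σ
    rw [if_pos hγ]
  have hJ := denom_ne_zero γ z
  have hn : ‖denom γ z‖ ≠ 0 := norm_ne_zero_iff.2 hJ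
  have hnc : (‖denom γ z‖ : ℂ) ≠ 0 := by exact_mod_cast hn
  have hD : ((γ.det.val : ℝ) : ℂ) ≠ 0 := by exact_mod_cast hγ.ne'
  rw [hσ, abs_of_pos hγ] at h1
  simp only [ContinuousAlgEquiv.refl_apply, Pi.smul_apply, smul_eq_mul] at h1
  have him : (γ • z).im = γ.det.val * z.im / ‖denom γ z‖ ^ 2 := by
    rw [im_smul_eq_div_normSq, abs_of_pos hγ, Complex.normSq_eq_norm_sq]
  unfold Ph jj
  rw [him]
  have h2 : f (γ • z) = ((γ.det.val : ℝ) : ℂ) ^ ((κ : ℤ) - 1) * f' z *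
      (((γ.det.val : ℝ) : ℂ) ^ (((2 * κ : ℕ) : ℤ) - 1))⁻¹ * denom γ z ^ (2 * κ) := by
    rw [← h1, zpow_neg, zpow_natCast]
    have a1 : ((γ.det.val : ℝ) : ℂ) ^ (((2 * κ : ℕ) : ℤ) - 1) ≠ 0 := zpow_ne_zero _ hD
    field_simp
  have e1 : ((γ.det.val : ℝ) : ℂ) ^ κ * ((γ.det.val : ℝ) : ℂ) ^ ((κ : ℤ) - 1) *
      (((γ.det.val : ℝ) : ℂ) ^ (((2 * κ : ℕ) : ℤ) - 1))⁻¹ = 1 := by
    rw [← zpow_natCast, ← zpow_neg, ← zpow_add₀ hD, ← zpow_add₀ hD]
    have : ((κ : ℕ) : ℤ) + ((κ : ℤ) - 1) + -(((2 * κ : ℕ) : ℤ) - 1) = 0 := by push_cast; ring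
    rw [this, zpow_zero]
  rw [h2]
  push_cast
  rw [div_pow, div_pow, mul_pow, ← pow_mul]
  calc ((γ.det.val : ℝ) : ℂ) ^ κ * (z.im : ℂ) ^ κ / (‖denom γ z‖ : ℂ) ^ (2 * κ) *
      (((γ.det.val : ℝ) : ℂ) ^ ((κ : ℤ) - 1) * f' z *
        (((γ.det.val : ℝ) : ℂ) ^ (2 * (κ : ℤ) - 1))⁻¹ * denom γ z ^ (2 * κ))
      = (((γ.det.val : ℝ) : ℂ) ^ κ * ((γ.det.val : ℝ) : ℂ) ^ ((κ : ℤ) - 1) *
        (((γ.det.val : ℝ) : ℂ) ^ (2 * (κ : ℤ) - 1))⁻¹) *
        (denom γ z ^ (2 * κ) / (‖denom γ z‖ : ℂ) ^ (2 * κ) * ((z.im : ℂ) ^ κ * f' z)) := by ring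
    _ = _ := by
        have : (((2 * κ : ℕ) : ℤ) - 1) = 2 * (κ : ℤ) - 1 := by push_cast; ring
        rw [← this, e1, one_mul]

theorem det_SL (γ : SL(2, ℤ)) : ((γ : GL (Fin 2) ℝ).det.val : ℝ) = 1 := by
  simp

theorem Ph_inv (f : SK κ N) {γ : SL(2, ℤ)} (h : γ ∈ Gamma0 N) (z : ℍ) :
    Ph f ((γ : GL (Fin 2) ℝ) • z) = jj (γ : GL (Fin 2) ℝ) z ^ (2 * κ) * Ph f z := by
  refine Ph_smul (by rw [det_SL]; exact one_pos) f f ?_ z
  rw [slash_mem f h, det_SL, Complex.ofReal_one, one_zpow, one_smul]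

theorem Ph_norm (f : SK κ N) (z : ℍ) :
    ‖Ph f z‖ ^ 2 = ‖petersson ((2 * κ : ℕ) : ℤ) f f z‖ := by
  unfold Ph petersson
  rw [norm_mul, norm_mul, norm_mul, Complex.norm_conj, norm_zpow, norm_pow, Complex.norm_real,
    Real.norm_of_nonneg z.im_pos.le, zpow_natCast]
  ring

theorem continuous_Ph (f : SK κ N) : Continuous (Ph f) := by
  unfold Ph
  exact ((Complex.continuous_ofReal.comp continuous_im).pow κ).mul (ModularFormClass.continuous f)

theorem Ph_dec [NeZero N] (f : SK κ N) (g : SL(2, ℤ)) : ∃ K : ℝ, 0 ≤ K ∧ ∀ z : ℍ,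
    ‖Ph f ((g : GL (Fin 2) ℝ) • z)‖ * z.im ≤ K := by
  obtain ⟨B, hB⟩ := CuspFormClass.petersson_bounded_left ((2 * κ : ℕ) : ℤ)
    (Gamma0 N : Subgroup (GL (Fin 2) ℝ)) f f
  have hArith : ((toConjAct (g : GL (Fin 2) ℝ)⁻¹) •
      (Gamma0 N : Subgroup (GL (Fin 2) ℝ))).IsArithmetic := by
    simpa [(show Rat.castHom ℝ = algebraMap ℚ ℝ by rfl), map_inv, Matrix.SpecialLinearGroup.map_mapGL]
      using! Subgroup.IsArithmetic.conj (Gamma0 N : Subgroup (GL (Fin 2) ℝ))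
        (Matrix.SpecialLinearGroup.mapGL ℚ g)⁻¹
  obtain ⟨a, ha, hO⟩ := (CuspFormClass.zero_at_infty
    (CuspForm.translate f g)).petersson_exp_decay_left ((2 * κ : ℕ) : ℤ) _ (CuspForm.translate f g)
  obtain ⟨C, hC⟩ := hO.bound
  rw [atImInfty, eventually_comap, eventually_atTop] at hC
  obtain ⟨A, hA⟩ := hC
  have hexp : ∀ t : ℝ, 0 ≤ t → t ^ 2 * Real.exp (-a * t) ≤ 2 / a ^ 2 := by
    intro t ht
    have h1 : (a * t) ^ 2 / 2 ≤ Real.exp (a * t) := by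
      have := Real.quadratic_le_exp_of_nonneg (mul_nonneg ha.le ht)
      nlinarith [mul_nonneg ha.le ht]
    rw [show -a * t = -(a * t) by ring, Real.exp_neg, ← div_eq_mul_inv, div_le_div_iff₀
      (Real.exp_pos _) (by positivity)]
    nlinarith
  refine ⟨Real.sqrt (|C| * (2 / a ^ 2) + |B| * |A| ^ 2), Real.sqrt_nonneg _, fun w => ?_⟩
  have hv := w.im_pos
  refine Real.le_sqrt_of_sq_le ?_
  rw [mul_pow, Ph_norm, ← ModularGroup.sl_moeb]
  rcases le_total A w.im with h | h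
  · have h1 := hA w.im h w rfl
    rw [CuspForm.coe_translate, petersson_slash_SL, Real.norm_of_nonneg (Real.exp_pos _).le] at h1
    have h2 := hexp w.im hv.le
    calc ‖petersson ((2 * κ : ℕ) : ℤ) f f (g • w)‖ * w.im ^ 2
        ≤ (|C| * Real.exp (-a * w.im)) * w.im ^ 2 := by
          gcongr
          refine h1.trans ?_
          gcongr
          exact le_abs_self C
      _ = |C| * (w.im ^ 2 * Real.exp (-a * w.im)) := by ring
      _ ≤ |C| * (2 / a ^ 2) := by gcongr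
      _ ≤ _ := by have : 0 ≤ |B| * |A| ^ 2 := by positivity
                  linarith
  · have h1 := hB (g • w)
    have h3 : 0 ≤ |C| * (2 / a ^ 2) := by positivity
    have h2 : ‖petersson ((2 * κ : ℕ) : ℤ) f f (g • w)‖ * w.im ^ 2 ≤ |B| * |A| ^ 2 := by
      have hA' : w.im ≤ |A| := h.trans (le_abs_self A)
      have hB' : ‖petersson ((2 * κ : ℕ) : ℤ) f f (g • w)‖ ≤ |B| := h1.trans (le_abs_self B)
      gcongr
    linarith

/-- the normalised coefficients -/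
def rn (f : SK κ N) (n : ℕ) : ℝ := (ac f n).re / (n : ℝ) ^ (κ - 1)

theorem rn_zero [NeZero N] (f : SK κ N) : rn f 0 = 0 := by
  unfold rn; rw [ac_zero]; simp

theorem ac_eq (hκ : 0 < κ) {f : SK κ N} (hf : ∀ n, (ac f n).im = 0) {n : ℕ} (hn : 0 < n) :
    ac f n = ((rn f n / n * (n : ℝ) ^ κ : ℝ) : ℂ) := by
  have hn' : (n : ℝ) ≠ 0 := by exact_mod_cast hn.ne'
  have h1 : ac f n = ((ac f n).re : ℂ) := by
    apply Complex.ext
    · simp
    · simp [hf n]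
  rw [h1]
  unfold rn
  congr 1
  obtain ⟨m, rfl⟩ : ∃ m, κ = m + 1 := ⟨κ - 1, by omega⟩
  rw [Nat.add_sub_cancel, pow_succ]
  field_simp

theorem wv_Ph [NeZero N] (hκ : 0 < κ) {f : SK κ N} (hf : ∀ n, (ac f n).im = 0) :
    Wv (2 * κ) N (rn f) (phi κ) (Ph f) where
  cont := continuous_Ph f
  kern := kern_phi hκ
  inv := fun _ hγ z => Ph_inv f hγ z
  dec := Ph_dec f
  sum := fun x y hy => by
    have h1 := (hasSum_f f x hy).mul_left ((y : ℂ) ^ κ)
    have e2 : (⟨x + y * Complex.I, by simpa using hy⟩ : ℍ).im = y := by simp [UpperHalfPlane.im]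
    have e3 : Ph f ⟨x + y * Complex.I, by simpa using hy⟩ =
        (y : ℂ) ^ κ * f ⟨x + y * Complex.I, by simpa using hy⟩ := by
      unfold Ph
      rw [e2]
    rw [e3]
    refine h1.congr_fun fun n => ?_
    rcases Nat.eq_zero_or_pos n with hn | hn
    · subst hn
      rw [ac_zero, rn_zero]
      simp
    · rw [ac_eq hκ hf hn]
      unfold phi
      rw [mul_pow]
      push_cast
      ring_nf
  abs := fun {y} hy => by
    refine ((summable_f f hy).mul_left (y ^ κ)).congr fun n => ?_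
    rcases Nat.eq_zero_or_pos n with hn | hn
    · subst hn
      rw [ac_zero, rn_zero]
      simp
    · rw [ac_eq hκ hf hn, ← Complex.ofReal_mul, Complex.norm_real, Complex.norm_real]
      unfold phi
      have e4 : y ^ κ = ‖y ^ κ‖ := (Real.norm_of_nonneg (pow_nonneg hy.le κ)).symm
      rw [e4, ← norm_mul]
      congr 1
      rw [mul_pow]
      ring_nf

end

end Pool.Agent.Helper43x.NW
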