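import Pool.Agent.Helper43x.NW.Circ
import Pool.Agent.H581R3.GPR.Rot

/-! The kernels of the circle operator on exponentials, and their Mellin transforms. -/

set_option autoImplicit false

namespace Pool.Agent.Helper43x.NW

open MeasureTheory Filter Topology
open scoped ComplexConjugate
open Pool.Agent.H581R3.GPR.Rot (rot_formula int_rpow_exp)

noncomputable section

/-! ### The angular integrals -/

theorem re_one_sub {w : ℂ} (hw : ‖w‖ = 1 / 2) : 1 / 2 ≤ (1 - w).re := by
  have := (Complex.abs_re_le_norm w)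
  rw [hw] at this
  have := (abs_le.1 this).2
  simp only [Complex.sub_re, Complex.one_re]
  linarith

/-- `e^{-iθ}` -/
def ee' (θ : ℝ) : ℂ := Complex.exp (-(θ * Complex.I))

theorem cw_mul_ee (θ : ℝ) : cw θ * ee' θ = 1 / 2 := by
  unfold cw ee'
  rw [mul_assoc, ← Complex.exp_add, add_neg_cancel, Complex.exp_zero, mul_one]

theorem norm_ee (θ : ℝ) : ‖ee' θ‖ = 1 := by
  unfold ee'
  rw [← neg_mul, ← Complex.ofReal_neg, Complex.norm_exp_ofReal_mul_I]

/-- the angular integral -/
def GI (j : ℕ) (b : ℂ) : ℂ := ∫ θ in (0 : ℝ)..(2 * Real.pi), (1 - cw θ) ^ b * ee' θ ^ j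

theorem continuous_gi (j : ℕ) (b : ℂ) : Continuous fun θ : ℝ => (1 - cw θ) ^ b * ee' θ ^ j := by
  have h1 : Continuous fun θ : ℝ => 1 - cw θ := continuous_const.sub continuous_cw
  refine Continuous.mul ?_ ?_
  · refine h1.cpow continuous_const fun θ => ?_
    left
    have := re_one_sub (norm_cw θ)
    linarith
  · unfold ee'
    fun_prop

theorem GI_zero (b : ℂ) : GI 0 b = 2 * Real.pi := by
  have h1 : ∀ z ∈ Metric.closedBall (0 : ℂ) (1 / 2), 0 < (1 - z).re := by
    intro z hz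
    rw [mem_closedBall_zero_iff] at hz
    have := (abs_le.1 ((Complex.abs_re_le_norm z).trans hz)).2
    simp only [Complex.sub_re, Complex.one_re]
    linarith
  have hd : ∀ z ∈ Metric.closedBall (0 : ℂ) (1 / 2),
      DifferentiableAt ℂ (fun z : ℂ => (1 - z) ^ b) z := fun z hz =>
    DifferentiableAt.cpow_const (by fun_prop) (Or.inl (h1 z hz))
  have h2 := Complex.circleIntegral_sub_center_inv_smul_of_differentiable_on_off_countable
    (c := (0 : ℂ)) (R := 1 / 2) (f := fun z : ℂ => (1 - z) ^ b) (s := ∅) (by norm_num)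
    Set.countable_empty (fun z hz => (hd z hz).continuousAt.continuousWithinAt)
    (fun z hz => hd z (Metric.ball_subset_closedBall hz.1))
  unfold circleIntegral at h2
  have h3 : ∀ θ : ℝ, circleMap (0 : ℂ) (1 / 2) θ = cw θ := by
    intro θ
    unfold circleMap cw
    push_cast
    ring
  have h4 : ∀ θ : ℝ, deriv (circleMap (0 : ℂ) (1 / 2)) θ •
      ((circleMap (0 : ℂ) (1 / 2) θ - 0)⁻¹ • (1 - circleMap (0 : ℂ) (1 / 2) θ) ^ b) =
      Complex.I * ((1 - cw θ) ^ b * ee' θ ^ 0) := by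
    intro θ
    rw [deriv_circleMap, h3, sub_zero, smul_eq_mul, smul_eq_mul, pow_zero, mul_one]
    have h5 : cw θ ≠ 0 := by
      rw [← norm_pos_iff, norm_cw]; norm_num
    field_simp
  simp_rw [h4] at h2
  rw [intervalIntegral.integral_const_mul, sub_zero, Complex.one_cpow, smul_eq_mul, mul_one] at h2
  have h7 : Complex.I * (∫ θ in (0 : ℝ)..(2 * Real.pi), (1 - cw θ) ^ b * ee' θ ^ 0) =
      Complex.I * (2 * Real.pi) := by rw [h2]; ring
  exact mul_left_cancel₀ Complex.I_ne_zero h7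

theorem GI_succ (j : ℕ) (b : ℂ) : GI (j + 1) b = -(b / (2 * (j + 1))) * GI j (b - 1) := by
  have hd : ∀ θ : ℝ, HasDerivAt (fun θ : ℝ => (1 - cw θ) ^ b * ee' θ ^ (j + 1))
      (-(Complex.I * b / 2) * ((1 - cw θ) ^ (b - 1) * ee' θ ^ j) -
        Complex.I * (j + 1) * ((1 - cw θ) ^ b * ee' θ ^ (j + 1))) θ := by
    intro θ
    have e1 : HasDerivAt (fun θ : ℝ => (θ : ℂ) * Complex.I) Complex.I θ := by
      simpa using (Complex.ofRealCLM.hasDerivAt (x := θ)).mul_const Complex.I
    have e2 : HasDerivAt cw (cw θ * Complex.I) θ := by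
      unfold cw
      have := e1.cexp.const_mul (1 / 2 : ℂ)
      rw [← mul_assoc] at this
      exact this
    have e3 : HasDerivAt ee' (-(ee' θ * Complex.I)) θ := by
      unfold ee'
      have := e1.neg.cexp
      rw [mul_neg] at this
      exact this
    have e4 : HasDerivAt (fun θ : ℝ => (1 - cw θ) ^ b)
        (b * (1 - cw θ) ^ (b - 1) * (-(cw θ * Complex.I))) θ := by
      have h5 : HasDerivAt (fun θ : ℝ => 1 - cw θ) (-(cw θ * Complex.I)) θ := e2.const_sub 1
      have h6 : 1 - cw θ ∈ Complex.slitPlane := Or.inl (by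
        have := re_one_sub (norm_cw θ)
        linarith)
      have h7 : HasDerivAt (fun z : ℂ => z ^ b) (b * (1 - cw θ) ^ (b - 1)) (1 - cw θ) := by
        simpa using (hasDerivAt_id (1 - cw θ)).cpow_const (c := b) h6
      exact h7.comp_of_eq θ h5 rfl
    have e5 := e4.mul (e3.pow (j + 1))
    refine e5.congr_deriv ?_
    have h8 : cw θ * ee' θ ^ (j + 1) = 1 / 2 * ee' θ ^ j := by
      rw [pow_succ', ← mul_assoc, cw_mul_ee]
    have h9 : ee' θ ^ (j + 1) = ee' θ ^ j * ee' θ := pow_succ _ _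
    simp only [Nat.add_sub_cancel, Pi.pow_apply]
    push_cast
    linear_combination -(b * (1 - cw θ) ^ (b - 1) * Complex.I) * h8 +
      (Complex.I * (j + 1) * (1 - cw θ) ^ b) * h9
  have h1 := intervalIntegral.integral_eq_sub_of_hasDerivAt (a := 0) (b := 2 * Real.pi)
    (fun θ _ => hd θ) (by
      refine Continuous.intervalIntegrable ?_ _ _
      exact ((continuous_gi j (b - 1)).const_mul _).sub ((continuous_gi (j + 1) b).const_mul _))
  have h2 : cw (2 * Real.pi) = cw 0 := by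
    have := cw_period 0
    rwa [zero_add] at this
  have h3 : ee' (2 * Real.pi) = ee' 0 := by
    unfold ee'
    push_cast
    rw [Complex.exp_neg, Complex.exp_two_pi_mul_I]
    simp
  simp only [h2, h3, sub_self] at h1
  rw [intervalIntegral.integral_sub, intervalIntegral.integral_const_mul,
    intervalIntegral.integral_const_mul] at h1
  · change -(Complex.I * b / 2) * GI j (b - 1) - Complex.I * (j + 1) * GI (j + 1) b = 0 at h1
    have hj : ((j : ℂ) + 1) ≠ 0 := by exact_mod_cast Nat.succ_ne_zero j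
    have h4 : Complex.I * ((j + 1) * GI (j + 1) b) = Complex.I * (-(b / 2) * GI j (b - 1)) := by
      linear_combination -h1
    have h5 := mul_left_cancel₀ Complex.I_ne_zero h4
    field_simp
    linear_combination 2 * h5
  · exact ((continuous_gi j (b - 1)).const_mul _).intervalIntegrable _ _
  · exact ((continuous_gi (j + 1) b).const_mul _).intervalIntegrable _ _

theorem GI_ne_zero (j : ℕ) (b : ℂ) (hb : ∀ m : ℕ, m < j → b ≠ m) : GI j b ≠ 0 := by
  induction j generalizing b with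
  | zero =>
    rw [GI_zero]
    have := Real.pi_ne_zero
    exact mul_ne_zero two_ne_zero (by exact_mod_cast this)
  | succ j ih =>
    rw [GI_succ]
    refine mul_ne_zero (neg_ne_zero.2 (div_ne_zero ?_ ?_)) (ih _ ?_)
    · have := hb 0 (Nat.succ_pos j)
      simpa using this
    · have : ((j : ℂ) + 1) ≠ 0 := by exact_mod_cast Nat.succ_ne_zero j
      exact mul_ne_zero two_ne_zero this
    · intro m hm h
      refine hb (m + 1) (by omega) ?_
      push_cast
      linear_combination h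

theorem continuous_GI (j : ℕ) : Continuous (GI j) := by
  induction j with
  | zero =>
    have : GI 0 = fun _ => (2 * Real.pi : ℂ) := funext GI_zero
    rw [this]
    exact continuous_const
  | succ j ih =>
    have : GI (j + 1) = fun b => -(b / (2 * (j + 1))) * GI j (b - 1) := funext (GI_succ j)
    rw [this]
    refine Continuous.mul (by fun_prop) (ih.comp (by fun_prop))

/-! ### The kernels -/

/-- the integrand of the kernel -/
def ki (l j : ℕ) (t θ : ℝ) : ℂ :=
  ((1 - cw θ)⁻¹) ^ l * Complex.exp (-(2 * Real.pi * t * kay (cw θ))) * ee' θ ^ j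

theorem continuous_ki (l j : ℕ) : Continuous fun x : ℝ × ℝ => ki l j x.1 x.2 := by
  unfold ki ee'
  have h3 : Continuous fun x : ℝ × ℝ => cw x.2 := continuous_cw.comp continuous_snd
  have h4 : Continuous fun x : ℝ × ℝ => kay (cw x.2) := by
    unfold kay
    exact (continuous_const.add h3).div (continuous_const.sub h3) fun x => cw_ne x.2
  have h5 : Continuous fun x : ℝ × ℝ => (1 - cw x.2)⁻¹ :=
    (continuous_const.sub h3).inv₀ fun x => cw_ne x.2
  refine ((h5.pow l).mul (Complex.continuous_exp.comp ?_)).mul (by fun_prop)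
  exact (((continuous_const.mul (Complex.continuous_ofReal.comp continuous_fst)).mul h4)).neg

theorem norm_ki_le (l j : ℕ) {t : ℝ} (ht : 0 ≤ t) (θ : ℝ) :
    ‖ki l j t θ‖ ≤ 2 ^ l * Real.exp (-(2 * t)) := by
  unfold ki
  rw [norm_mul, norm_mul, norm_pow, norm_pow, norm_ee, one_pow, mul_one, norm_inv,
    Complex.norm_exp]
  have h1 := le_norm_one_sub (norm_cw θ)
  have h2 := kay_re_lower (norm_cw θ)
  have hpi := Real.pi_gt_three
  have h3 : ‖1 - cw θ‖⁻¹ ≤ 2 := by
    rw [inv_le_comm₀ (by linarith) two_pos]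
    linarith
  have h4 : (-(2 * (Real.pi : ℂ) * t * kay (cw θ))).re = -(2 * Real.pi * t * (kay (cw θ)).re) := by
    have : (-(2 * (Real.pi : ℂ) * t * kay (cw θ))) = ((-(2 * Real.pi * t) : ℝ) : ℂ) * kay (cw θ) := by
      push_cast; ring
    rw [this, Complex.re_ofReal_mul]
    ring
  rw [h4]
  refine mul_le_mul (pow_le_pow_left₀ (by positivity) h3 l) (Real.exp_le_exp.2 ?_)
    (Real.exp_pos _).le (by positivity)
  have h5 : 3 * (1 / 3) ≤ Real.pi * (kay (cw θ)).re :=
    mul_le_mul hpi.le h2 (by norm_num) (by linarith)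
  nlinarith

theorem conj_cw (θ : ℝ) : conj (cw θ) = cw (-θ) := by
  unfold cw
  rw [map_mul, ← Complex.exp_conj]
  simp
  exact map_ofNat (starRingEnd ℂ) 2

theorem conj_ki (l j : ℕ) (t θ : ℝ) : conj (ki l j t θ) = ki l j t (-θ) := by
  unfold ki kay ee'
  rw [map_mul, map_mul, map_pow, map_pow, map_inv₀, map_sub, map_one, conj_cw,
    ← Complex.exp_conj, ← Complex.exp_conj]
  congr 3
  · congr 1
    simp [conj_cw]
    exact Or.inl (Or.inl (map_ofNat (starRingEnd ℂ) 2))
  · simp

theorem ki_period (l j : ℕ) (t : ℝ) : Function.Periodic (ki l j t) (2 * Real.pi) := by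
  intro θ
  unfold ki
  rw [cw_period]
  congr 2
  unfold ee'
  push_cast
  rw [add_mul, neg_add, Complex.exp_add, Complex.exp_neg (2 * (Real.pi : ℂ) * Complex.I),
    Complex.exp_two_pi_mul_I, inv_one, mul_one]

/-- the kernel -/
def psc (κ j : ℕ) (t : ℝ) : ℂ :=
  (3 / 4 * t : ℂ) ^ κ * ∫ θ in (0 : ℝ)..(2 * Real.pi), ki (2 * κ) j t θ

/-- the kernel, real -/
def psi (κ j : ℕ) (t : ℝ) : ℝ := (psc κ j t).re

theorem psc_eq (κ j : ℕ) (t : ℝ) : psc κ j t = (psi κ j t : ℂ) := by
  have h1 : conj (∫ θ in (0 : ℝ)..(2 * Real.pi), ki (2 * κ) j t θ) =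
      ∫ θ in (0 : ℝ)..(2 * Real.pi), ki (2 * κ) j t θ := by
    have e1 : conj (∫ θ in (0 : ℝ)..(2 * Real.pi), ki (2 * κ) j t θ) =
        ∫ θ in (0 : ℝ)..(2 * Real.pi), ki (2 * κ) j t (-θ) := by
      rw [intervalIntegral.integral_of_le (by have := Real.pi_pos; positivity),
        intervalIntegral.integral_of_le (by have := Real.pi_pos; positivity), ← integral_conj]
      exact integral_congr_ae (Eventually.of_forall fun θ => conj_ki _ _ _ _)
    rw [e1, intervalIntegral.integral_comp_neg, neg_zero]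
    have e2 := (ki_period (2 * κ) j t).intervalIntegral_add_eq (-(2 * Real.pi)) 0
    rw [neg_add_cancel, zero_add] at e2
    exact e2
  have h2 : conj (psc κ j t) = psc κ j t := by
    unfold psc
    rw [map_mul, h1, map_pow]
    congr 2
    simp
    left
    rw [map_ofNat, map_ofNat]
  unfold psi
  exact (Complex.conj_eq_iff_re.1 h2).symm

theorem norm_int_ki_le (l j : ℕ) {t : ℝ} (ht : 0 ≤ t) :
    ‖∫ θ in (0 : ℝ)..(2 * Real.pi), ki l j t θ‖ ≤ 2 ^ l * Real.exp (-(2 * t)) * (2 * Real.pi) := by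
  have h1 := intervalIntegral.norm_integral_le_of_norm_le_const (a := (0 : ℝ))
    (b := 2 * Real.pi) (f := ki l j t) (C := 2 ^ l * Real.exp (-(2 * t)))
    (fun θ _ => norm_ki_le l j ht θ)
  have hpi := Real.pi_pos
  rwa [sub_zero, abs_of_pos (by positivity)] at h1

theorem continuous_psc (κ j : ℕ) : Continuous (psc κ j) := by
  unfold psc
  refine Continuous.mul (by fun_prop) ?_
  exact intervalIntegral.continuous_parametric_intervalIntegral_of_continuous'
    (continuous_ki (2 * κ) j) 0 (2 * Real.pi)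

theorem continuous_psi (κ j : ℕ) : Continuous (psi κ j) :=
  Complex.continuous_re.comp (continuous_psc κ j)

/-- the functions to which the Mellin transform is applied -/
structure Kern (ψ : ℝ → ℝ) : Prop where
  cont : Continuous ψ
  bound : ∃ K : ℝ, 0 ≤ K ∧ ∀ t : ℝ, 0 < t → |ψ t| ≤ K * (t * Real.exp (-t))

theorem pow_exp_le (κ : ℕ) : ∃ K : ℝ, 0 ≤ K ∧ ∀ t : ℝ, 0 < t →
    t ^ (κ + 1) * Real.exp (-(2 * t)) ≤ K * (t * Real.exp (-t)) := by
  refine ⟨κ.factorial, by positivity, fun t ht => ?_⟩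
  have h1 : t ^ κ ≤ κ.factorial * Real.exp t := by
    have := Real.pow_div_factorial_le_exp t ht.le κ
    rwa [div_le_iff₀ (by positivity), mul_comm] at this
  have h2 : Real.exp (-(2 * t)) = Real.exp (-t) * Real.exp (-t) := by
    rw [← Real.exp_add]; congr 1; ring
  have h3 : Real.exp t * Real.exp (-t) = 1 := by rw [← Real.exp_add]; simp
  calc t ^ (κ + 1) * Real.exp (-(2 * t)) = t ^ κ * (t * Real.exp (-t) * Real.exp (-t)) := by
        rw [h2]; ring
    _ ≤ κ.factorial * Real.exp t * (t * Real.exp (-t) * Real.exp (-t)) :=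
        mul_le_mul_of_nonneg_right h1 (by positivity)
    _ = κ.factorial * (t * Real.exp (-t)) * (Real.exp t * Real.exp (-t)) := by ring
    _ = _ := by rw [h3, mul_one]

theorem kern_psi {κ : ℕ} (hκ : 0 < κ) (j : ℕ) : Kern (psi κ j) := by
  obtain ⟨m, rfl⟩ : ∃ m, κ = m + 1 := ⟨κ - 1, by omega⟩
  obtain ⟨K, hK, hb⟩ := pow_exp_le m
  refine ⟨continuous_psi _ _, 2 ^ (2 * (m + 1)) * (2 * Real.pi) * K, by
    have := Real.pi_pos; positivity, fun t ht => ?_⟩
  have h1 : |psi (m + 1) j t| = ‖psc (m + 1) j t‖ := by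
    rw [psc_eq, Complex.norm_real, Real.norm_eq_abs]
  have hpi := Real.pi_pos
  rw [h1]
  unfold psc
  rw [norm_mul, norm_pow]
  have h2 : ‖(3 / 4 * t : ℂ)‖ ≤ t := by
    have : (3 / 4 * t : ℂ) = ((3 / 4 * t : ℝ) : ℂ) := by push_cast; ring
    rw [this, Complex.norm_real, Real.norm_of_nonneg (by positivity)]
    linarith
  have h3 := norm_int_ki_le (2 * (m + 1)) j ht.le
  calc ‖(3 / 4 * t : ℂ)‖ ^ (m + 1) * ‖∫ θ in (0 : ℝ)..(2 * Real.pi), ki (2 * (m + 1)) j t θ‖
      ≤ t ^ (m + 1) * (2 ^ (2 * (m + 1)) * Real.exp (-(2 * t)) * (2 * Real.pi)) :=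
        mul_le_mul (pow_le_pow_left₀ (norm_nonneg _) h2 _) h3 (norm_nonneg _) (by positivity)
    _ = 2 ^ (2 * (m + 1)) * (2 * Real.pi) * (t ^ (m + 1) * Real.exp (-(2 * t))) := by ring
    _ ≤ 2 ^ (2 * (m + 1)) * (2 * Real.pi) * (K * (t * Real.exp (-t))) :=
        mul_le_mul_of_nonneg_left (hb t ht) (by positivity)
    _ = _ := by ring

/-- `t^k e^{-2πt}` -/
def phi (k : ℕ) (t : ℝ) : ℝ := t ^ k * Real.exp (-(2 * Real.pi * t))

theorem kern_phi {k : ℕ} (hk : 0 < k) : Kern (phi k) := by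
  obtain ⟨m, rfl⟩ : ∃ m, k = m + 1 := ⟨k - 1, by omega⟩
  obtain ⟨K, hK, hb⟩ := pow_exp_le m
  refine ⟨by unfold phi; fun_prop, K, hK, fun t ht => ?_⟩
  unfold phi
  rw [abs_of_nonneg (by positivity)]
  refine le_trans (mul_le_mul_of_nonneg_left (Real.exp_le_exp.2 ?_) (by positivity)) (hb t ht)
  have := Real.pi_gt_three
  nlinarith

/-! ### Mellin transforms -/

/-- the Mellin transform of a product -/
def MI (ψ ψ' : ℝ → ℝ) (s : ℂ) : ℂ :=
  ∫ t in Set.Ioi (0 : ℝ), ((ψ t * ψ' t : ℝ) : ℂ) * (t : ℂ) ^ (s - 2)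

theorem mi_integrable {ψ ψ' : ℝ → ℝ} (h : Kern ψ) (h' : Kern ψ') {s : ℂ} (hs : 0 < s.re) :
    IntegrableOn (fun t : ℝ => ((ψ t * ψ' t : ℝ) : ℂ) * (t : ℂ) ^ (s - 2)) (Set.Ioi 0) := by
  obtain ⟨K, hK, hb⟩ := h.bound
  obtain ⟨K', hK', hb'⟩ := h'.bound
  refine Integrable.mono' ((int_rpow_exp (s := s.re) (b := 2) (by linarith)
    two_pos).const_mul (K * K')) ?_ ?_
  · refine ContinuousOn.aestronglyMeasurable ?_ measurableSet_Ioi
    refine ContinuousOn.mul ?_ ?_
    · exact (Complex.continuous_ofReal.comp (h.cont.mul h'.cont)).continuousOn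
    · intro t ht
      exact (Complex.continuousAt_ofReal_cpow_const t (s - 2)
        (Or.inr (ne_of_gt ht))).continuousWithinAt
  · refine (ae_restrict_iff' measurableSet_Ioi).2 (Eventually.of_forall fun t ht => ?_)
    have ht0 : (0:ℝ) < t := ht
    rw [norm_mul, Complex.norm_cpow_eq_rpow_re_of_pos ht0, Complex.norm_real, Real.norm_eq_abs,
      abs_mul]
    have e2 : (s - 2).re = s.re - 2 := by simp
    rw [e2]
    have h1 := mul_le_mul (hb t ht0) (hb' t ht0) (abs_nonneg _) (by positivity)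
    have e3 : t ^ s.re = t ^ (s.re - 2) * (t * t) := by
      rw [← sq, ← Real.rpow_natCast t 2, ← Real.rpow_add ht0]; congr 1; push_cast; ring
    have e4 : Real.exp (-(2 * t)) = Real.exp (-t) * Real.exp (-t) := by
      rw [← Real.exp_add]; congr 1; ring
    calc |ψ t| * |ψ' t| * t ^ (s.re - 2)
        ≤ K * (t * Real.exp (-t)) * (K' * (t * Real.exp (-t))) * t ^ (s.re - 2) :=
          mul_le_mul_of_nonneg_right h1 (by positivity)
      _ = _ := by rw [e3, e4]; ring

/-- the exponent of the Gamma factor -/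
def ga (κ j : ℕ) (s : ℂ) : ℂ := 2 * κ + j + s - 1

theorem pow_real_cpow {x : ℝ} (hx : 0 < x) (z w : ℂ) (hz : z ≠ 0) :
    (z / (x : ℂ)) ^ w = z ^ w * ((x : ℂ) ^ w)⁻¹ := by
  have h1 : z / (x : ℂ) = ((x⁻¹ : ℝ) : ℂ) * z := by push_cast; field_simp
  have hxi : 0 < x⁻¹ := inv_pos.2 hx
  have hxc : (x : ℂ) ≠ 0 := by exact_mod_cast hx.ne'
  rw [h1, Complex.cpow_def_of_ne_zero (mul_ne_zero (by exact_mod_cast hxi.ne') hz),
    Complex.cpow_def_of_ne_zero hz, Complex.cpow_def_of_ne_zero hxc, ← Complex.exp_neg,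
    ← Complex.exp_add, Complex.log_ofReal_mul hxi hz, Real.log_inv, ← Complex.ofReal_log hx.le]
  congr 1
  push_cast
  ring

/-- **The Mellin transform of the kernel of the circle operator.** -/
theorem MI_eq {κ : ℕ} (hκ : 0 < κ) (j : ℕ) {s : ℂ} (hs : 0 < s.re) :
    MI (phi (κ + j)) (psi κ j) s = (3 / 4) ^ κ * (Complex.Gamma (ga κ j s) *
      ((((4 * Real.pi : ℝ)) : ℂ) ^ (ga κ j s))⁻¹) * GI j (j + s - 1) := by
  have hpi := Real.pi_pos
  set a := ga κ j s with ha
  have hκ1 : (1 : ℝ) ≤ κ := by exact_mod_cast hκ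
  have hare : a.re = 2 * κ + j + s.re - 1 := by rw [ha]; unfold ga; simp
  have ha0 : 0 < a.re := by
    rw [hare]
    have : (0 : ℝ) ≤ j := Nat.cast_nonneg j
    linarith
  -- the function of two variables
  set F : ℝ → ℝ → ℂ := fun t θ => (t : ℂ) ^ (a - 1) * Complex.exp (-(2 * Real.pi * t)) *
    ki (2 * κ) j t θ with hF
  have e1 : ∀ t ∈ Set.Ioi (0 : ℝ), ((phi (κ + j) t * psi κ j t : ℝ) : ℂ) * (t : ℂ) ^ (s - 2) =
      (3 / 4) ^ κ * ∫ θ in (0 : ℝ)..(2 * Real.pi), F t θ := by
    intro t ht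
    have ht0 : (0 : ℝ) < t := ht
    have htc : (t : ℂ) ≠ 0 := by exact_mod_cast ht0.ne'
    rw [hF]
    simp only
    rw [intervalIntegral.integral_const_mul, Complex.ofReal_mul, ← psc_eq]
    unfold psc phi
    have e2 : (t : ℂ) ^ (a - 1) = (t : ℂ) ^ (κ + j) * (t : ℂ) ^ κ * (t : ℂ) ^ (s - 2) := by
      rw [← pow_add, ← Complex.cpow_natCast, ← Complex.cpow_add _ _ htc]
      congr 1
      rw [ha]
      unfold ga
      push_cast
      ring
    rw [e2, mul_pow]
    push_cast
    ring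
  unfold MI
  rw [setIntegral_congr_fun measurableSet_Ioi e1, integral_const_mul]
  simp_rw [intervalIntegral.integral_of_le (show (0 : ℝ) ≤ 2 * Real.pi by positivity)]
  rw [integral_integral_swap, mul_assoc]
  · congr 1
    unfold GI
    rw [intervalIntegral.integral_of_le (show (0 : ℝ) ≤ 2 * Real.pi by positivity),
      ← integral_const_mul]
    refine integral_congr_ae (Eventually.of_forall fun θ => ?_)
    have hw := norm_cw θ
    have h0 := cw_ne θ
    have hr : (4 * Real.pi / (1 - cw θ) : ℂ) = 2 * Real.pi + 2 * Real.pi * kay (cw θ) := by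
      unfold kay
      field_simp
      ring
    have hrre : 0 < (4 * Real.pi / (1 - cw θ) : ℂ).re := by
      rw [hr]
      have h1 := kay_re_pos hw
      have h2 : (2 * Real.pi + 2 * Real.pi * kay (cw θ) : ℂ).re =
          2 * Real.pi + 2 * Real.pi * (kay (cw θ)).re := by
        have : (2 * Real.pi + 2 * Real.pi * kay (cw θ) : ℂ) = ((2 * Real.pi : ℝ) : ℂ) +
            ((2 * Real.pi : ℝ) : ℂ) * kay (cw θ) := by push_cast; ring
        rw [this, Complex.add_re, Complex.re_ofReal_mul, Complex.ofReal_re]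
      rw [h2]
      positivity
    have h3 := rot_formula ha0 hrre
    simp only [hF]
    have e3 : ∀ t : ℝ, (t : ℂ) ^ (a - 1) * Complex.exp (-(2 * Real.pi * t)) * ki (2 * κ) j t θ =
        ((1 - cw θ)⁻¹) ^ (2 * κ) * ee' θ ^ j *
          ((t : ℂ) ^ (a - 1) * Complex.exp (-(4 * Real.pi / (1 - cw θ) * t))) := by
      intro t
      unfold ki
      rw [hr]
      have : Complex.exp (-((2 * Real.pi + 2 * Real.pi * kay (cw θ)) * t)) =
          Complex.exp (-(2 * Real.pi * t)) * Complex.exp (-(2 * Real.pi * t * kay (cw θ))) := by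
        rw [← Complex.exp_add]; congr 1; ring
      rw [this]
      ring
    simp_rw [e3]
    rw [integral_const_mul, h3]
    have e4 : (1 / (4 * Real.pi / (1 - cw θ)) : ℂ) = (1 - cw θ) / ((4 * Real.pi : ℝ) : ℂ) := by
      push_cast
      rw [one_div_div]
    rw [e4, pow_real_cpow (by positivity) _ _ h0]
    have e5 : (1 - cw θ) ^ ((j : ℂ) + s - 1) = (1 - cw θ) ^ a * ((1 - cw θ)⁻¹) ^ (2 * κ) := by
      rw [show (j : ℂ) + s - 1 = a - ((2 * κ : ℕ) : ℂ) by rw [ha]; unfold ga; push_cast; ring,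
        Complex.cpow_sub _ _ h0, Complex.cpow_natCast, div_eq_mul_inv, inv_pow]
    rw [e5]
    ring
  · rw [Measure.prod_restrict]
    refine Integrable.mono' (g := fun x : ℝ × ℝ => (x.1 ^ (a.re - 1) * Real.exp (-(2 * x.1))) *
      2 ^ (2 * κ)) ?_ ?_ ?_
    · rw [← Measure.prod_restrict]
      exact (int_rpow_exp (s := a.re - 1) (b := 2) (by linarith) two_pos).mul_prod
        (integrable_const (μ := volume.restrict (Set.Ioc 0 (2 * Real.pi))) ((2 : ℝ) ^ (2 * κ)))
    · refine ContinuousOn.aestronglyMeasurable ?_ (measurableSet_Ioi.prod measurableSet_Ioc)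
      rw [hF]
      refine ContinuousOn.mul (ContinuousOn.mul ?_ ?_) (continuous_ki (2 * κ) j).continuousOn
      · intro x hx
        have h5 : ContinuousAt (fun t : ℝ => (t : ℂ) ^ (a - 1)) x.1 :=
          Complex.continuousAt_ofReal_cpow_const x.1 (a - 1) (Or.inr (ne_of_gt hx.1))
        exact (ContinuousAt.comp (f := Prod.fst) h5 continuousAt_fst).continuousWithinAt
      · exact Continuous.continuousOn (by fun_prop)
    · refine (ae_restrict_iff' (measurableSet_Ioi.prod measurableSet_Ioc)).2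
        (Eventually.of_forall fun x hx => ?_)
      have ht0 : (0:ℝ) < x.1 := hx.1
      simp only [Function.uncurry, hF]
      rw [norm_mul, norm_mul, Complex.norm_cpow_eq_rpow_re_of_pos ht0, Complex.norm_exp]
      have h6 := norm_ki_le (2 * κ) j ht0.le x.2
      have h7 : Real.exp (-(2 * (Real.pi : ℂ) * x.1)).re ≤ 1 := by
        rw [Real.exp_le_one_iff]
        have : (-(2 * (Real.pi : ℂ) * x.1)) = ((-(2 * Real.pi * x.1) : ℝ) : ℂ) := by
          push_cast; ring
        rw [this, Complex.ofReal_re]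
        have : 0 ≤ 2 * Real.pi * x.1 := by positivity
        linarith
      have e6 : (a - 1).re = a.re - 1 := by simp
      rw [e6]
      calc x.1 ^ (a.re - 1) * Real.exp (-(2 * (Real.pi : ℂ) * x.1)).re * ‖ki (2 * κ) j x.1 x.2‖
          ≤ x.1 ^ (a.re - 1) * 1 * (2 ^ (2 * κ) * Real.exp (-(2 * x.1))) := by
            gcongr
        _ = _ := by ring

theorem MI_lower {κ : ℕ} (hκ : 0 < κ) (j : ℕ) (τ : ℝ) : ∃ c : ℝ, 0 < c ∧ ∀ᶠ σ : ℝ in 𝓝[>] 1,
    c ≤ ‖MI (phi (κ + j)) (psi κ j) (σ + τ * Complex.I)‖ := by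
  have hpi := Real.pi_pos
  have hκ1 : (1 : ℝ) ≤ κ := by exact_mod_cast hκ
  have hj0 : (0 : ℝ) ≤ j := Nat.cast_nonneg j
  set Q : ℂ → ℂ := fun s => (3 / 4) ^ κ * (Complex.Gamma (ga κ j s) *
      ((((4 * Real.pi : ℝ)) : ℂ) ^ (ga κ j s))⁻¹) * GI j (j + s - 1) with hQ
  have hp : (((4 * Real.pi : ℝ)) : ℂ) ≠ 0 := by exact_mod_cast (by positivity : (4 * Real.pi : ℝ) ≠ 0)
  set s₀ : ℂ := 1 + τ * Complex.I with hs₀
  have hre : s₀.re = 1 := by rw [hs₀]; simp
  have hg : 0 < (ga κ j s₀).re := by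
    unfold ga
    simp only [Complex.sub_re, Complex.add_re, Complex.mul_re, hre]
    simp
    linarith
  have hne : Q s₀ ≠ 0 := by
    rw [hQ]
    refine mul_ne_zero (mul_ne_zero (pow_ne_zero _ (by norm_num)) (mul_ne_zero
      (Complex.Gamma_ne_zero_of_re_pos hg) (inv_ne_zero ?_))) (GI_ne_zero j _ fun m hm h => ?_)
    · rw [Ne, Complex.cpow_eq_zero_iff]
      exact fun h => hp h.1
    · have h1 := congrArg Complex.re h
      rw [hs₀] at h1
      simp at h1
      have h2 : m = j := by exact_mod_cast h1.symm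
      omega
  have hc : ContinuousAt Q s₀ := by
    rw [hQ]
    have hga : Continuous (ga κ j) := by unfold ga; fun_prop
    refine ContinuousAt.mul (ContinuousAt.mul continuousAt_const (ContinuousAt.mul ?_ ?_)) ?_
    · have : ContinuousAt Complex.Gamma (ga κ j s₀) := by
        refine (Complex.differentiableAt_Gamma _ fun m => ?_).continuousAt
        intro h
        rw [h] at hg
        simp at hg
        have : (0 : ℝ) ≤ m := Nat.cast_nonneg m
        linarith
      exact ContinuousAt.comp this hga.continuousAt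
    · refine ContinuousAt.inv₀ ?_ ?_
      · exact ContinuousAt.const_cpow hga.continuousAt (Or.inl hp)
      · rw [Ne, Complex.cpow_eq_zero_iff]
        exact fun h => hp h.1
    · exact ((continuous_GI j).comp (by fun_prop)).continuousAt
  have hl : Tendsto (fun σ : ℝ => (σ : ℂ) + τ * Complex.I) (𝓝[>] 1) (𝓝 s₀) := by
    have h : Continuous fun σ : ℝ => (σ : ℂ) + τ * Complex.I := by fun_prop
    have := h.tendsto 1
    rw [Complex.ofReal_one] at this
    exact this.mono_left nhdsWithin_le_nhds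
  have h1 := (hc.tendsto.comp hl).norm
  have hpos : 0 < ‖Q s₀‖ := norm_pos_iff.2 hne
  refine ⟨_, half_pos hpos, ?_⟩
  filter_upwards [h1.eventually (lt_mem_nhds (half_lt_self hpos)), self_mem_nhdsWithin] with σ hσ hσ1
  have hσ1' : (1 : ℝ) < σ := hσ1
  rw [MI_eq hκ j (by simp; linarith)]
  exact hσ.le

end

end Pool.Agent.Helper43x.NW
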