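import Pool.Agent.Helper43x.NW.Bdd
import Pool.Agent.Y149.CR.Gram

/-! Sequences with Hecke relations: Euler products of the series of the products. -/

set_option autoImplicit false

namespace Pool.Agent.Helper43x.NW

open Filter Topology
open Pool.Agent.TH941 (exists_roots' rpow_half)
open Pool.Agent.H341R2 (E lam lam_bounded)
open Pool.Agent.Y722.RS (CR CR_summable CR_rel CR_comm shift_summable Loc shift_nhds KC KC_nonneg)
open Pool.Agent.Y149.CR (CC S zr re_cpow KD KD_nonneg K2 norm_p pow_cpow log_lower S_lower)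

noncomputable section

/-- Hecke relations and bounds for a sequence -/
structure HS (M : ℕ) (c : ℕ → ℝ) : Prop where
  zero : c 0 = 0
  one : c 1 = 1
  mul : ∀ m n : ℕ, Nat.Coprime m n → c (m * n) = c m * c n
  pow : ∀ p j : ℕ, p.Prime → c (p ^ (j + 2)) = c p * c (p ^ (j + 1)) -
      (if p ∣ M then 0 else (p : ℝ) * c (p ^ j))
  good : ∀ p : ℕ, p.Prime → ¬ p ∣ M → |c p| ≤ 2 * Real.sqrt p
  bad : ∀ p : ℕ, p.Prime → p ∣ M → |c p| ≤ 1
  smc : Smc c

section
variable {M : ℕ} {c : ℕ → ℝ}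

theorem HS.prime_pow (h : HS M c) {p : ℕ} (hp : p.Prime) (hN : ¬ p ∣ M) (j : ℕ) :
    |c (p ^ j)| ≤ ((j : ℝ) + 1) * Real.sqrt p ^ j := by
  have hp0 : (0 : ℝ) < p := by exact_mod_cast hp.pos
  obtain ⟨α, β, hα, hβ, hs, hm⟩ := exists_roots' hp0 (h.good p hp hN)
  have hcl : ∀ j : ℕ, (c (p ^ j) : ℂ) = ∑ i ∈ Finset.range (j + 1), α ^ i * β ^ (j - i) ∧
      (c (p ^ (j + 1)) : ℂ) = ∑ i ∈ Finset.range (j + 2), α ^ i * β ^ (j + 1 - i) := by
    intro j
    induction j with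
    | zero =>
      constructor
      · simp [h.one]
      · rw [zero_add, pow_one, ← hs, Finset.sum_range_succ, Finset.sum_range_one]
        simp
        ring
    | succ j ih =>
      refine ⟨ih.2, ?_⟩
      have h1 : (c (p ^ (j + 2)) : ℂ) = c p * c (p ^ (j + 1)) - (p : ℂ) * c (p ^ j) := by
        have h2 := h.pow p j hp
        rw [if_neg hN] at h2
        rw [h2]
        push_cast
        ring
      rw [ih.1, ih.2, ← hs] at h1
      rw [show j + 1 + 1 = j + 2 by ring, h1]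
      have hm' : (p : ℂ) = α * β := by rw [hm]; simp
      rw [hm']
      have e1 : ∑ i ∈ Finset.range (j + 2), α ^ i * β ^ (j + 1 - i) =
          α * (∑ i ∈ Finset.range (j + 1), α ^ i * β ^ (j - i)) + β ^ (j + 1) := by
        rw [Finset.sum_range_succ', Finset.mul_sum]
        congr 1
        · refine Finset.sum_congr rfl fun i hi => ?_
          rw [Nat.add_sub_add_right]
          ring
        · simp
      have e2 : ∑ i ∈ Finset.range (j + 3), α ^ i * β ^ (j + 2 - i) =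
          α * (∑ i ∈ Finset.range (j + 2), α ^ i * β ^ (j + 1 - i)) + β ^ (j + 2) := by
        rw [Finset.sum_range_succ' _ (j + 2), Finset.mul_sum]
        congr 1
        · refine Finset.sum_congr rfl fun i hi => ?_
          rw [show j + 2 - (i + 1) = j + 1 - i by omega]
          ring
        · simp
      have e3 : β * (∑ i ∈ Finset.range (j + 2), α ^ i * β ^ (j + 1 - i)) -
          α * β * (∑ i ∈ Finset.range (j + 1), α ^ i * β ^ (j - i)) = β ^ (j + 2) := by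
        rw [e1]
        ring
      rw [show j + 1 + 1 + 1 = j + 3 by ring] at *
      rw [e2]
      linear_combination e3
  have h0 : |c (p ^ j)| = ‖(c (p ^ j) : ℂ)‖ := by rw [Complex.norm_real, Real.norm_eq_abs]
  rw [h0, (hcl j).1]
  refine (norm_sum_le _ _).trans ?_
  have h2 : ∀ i ∈ Finset.range (j + 1), ‖α ^ i * β ^ (j - i)‖ ≤ Real.sqrt p ^ j := by
    intro i hi
    rw [norm_mul, norm_pow, norm_pow, hα, hβ, ← pow_add]
    refine le_of_eq ?_
    congr 1
    have := Finset.mem_range.1 hi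
    omega
  refine (Finset.sum_le_card_nsmul _ _ _ h2).trans (le_of_eq ?_)
  rw [Finset.card_range, nsmul_eq_mul]
  push_cast
  ring

theorem HS.prime_pow_bad (h : HS M c) {p : ℕ} (hp : p.Prime) (hN : p ∣ M) (j : ℕ) :
    |c (p ^ j)| ≤ 1 := by
  induction j with
  | zero => simp [h.one]
  | succ j ih =>
    rcases Nat.eq_zero_or_pos j with rfl | hj
    · rw [zero_add, pow_one]; exact h.bad p hp hN
    · obtain ⟨i, rfl⟩ : ∃ i, j = i + 1 := ⟨j - 1, by omega⟩
      have h1 := h.pow p i hp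
      rw [if_pos hN, sub_zero] at h1
      rw [show i + 1 + 1 = i + 2 by ring, h1, abs_mul]
      calc |c p| * |c (p ^ (i + 1))| ≤ 1 * 1 :=
            mul_le_mul (h.bad p hp hN) ih (abs_nonneg _) zero_le_one
        _ = 1 := one_mul 1

/-- the Hecke relation at a good prime -/
theorem HS.rel (h : HS M c) {p : ℕ} (hp : p.Prime) (hpM : ¬ p ∣ M) (m : ℕ) :
    c (p * m) = c p * c m - if p ∣ m then p * c (m / p) else 0 := by
  rcases Nat.eq_zero_or_pos m with rfl | hm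
  · simp [h.zero]
  obtain ⟨j, m', hm', rfl⟩ := Nat.exists_eq_pow_mul_and_not_dvd hm.ne' p hp.ne_one
  have hc : ∀ i : ℕ, Nat.Coprime (p ^ i) m' := fun i =>
    Nat.Coprime.pow_left i ((Nat.Prime.coprime_iff_not_dvd hp).2 hm')
  rcases Nat.eq_zero_or_pos j with rfl | hj
  · rw [pow_zero, one_mul, if_neg hm', sub_zero]
    have := hc 1
    rw [pow_one] at this
    exact h.mul _ _ this
  · obtain ⟨i, rfl⟩ : ∃ i, j = i + 1 := ⟨j - 1, by omega⟩
    have e1 : p * (p ^ (i + 1) * m') = p ^ (i + 2) * m' := by ring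
    have e2 : p ^ (i + 1) * m' / p = p ^ i * m' := by
      rw [show p ^ (i + 1) * m' = p * (p ^ i * m') by ring, Nat.mul_div_cancel_left _ hp.pos]
    rw [e1, if_pos (Dvd.intro (p ^ i * m') (by ring)), e2, h.mul _ _ (hc _), h.mul _ _ (hc _),
      h.mul _ _ (hc _), h.pow _ _ hp, if_neg hpM]
    ring

/-- the normalised eigenvalue -/
def nt (c : ℕ → ℝ) (p : ℕ) : ℝ := c p / Real.sqrt p

open Classical in
/-- the local coefficients -/
theorem HS.loc (h : HS M c) {p : ℕ} (hp : p.Prime) :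
    Loc (fun k => c (p ^ k) / Real.sqrt p ^ k) (nt c p) (if p ∣ M then 0 else 1) := by
  have hp0 : (0 : ℝ) < p := by exact_mod_cast hp.pos
  have hs0 : 0 < Real.sqrt p := Real.sqrt_pos.2 hp0
  have hs2 : Real.sqrt p ^ 2 = p := Real.sq_sqrt hp0.le
  refine ⟨?_, ?_, ?_, ?_, ?_, ?_⟩
  · simp [h.one]
  · simp [nt]
  · intro k
    rw [h.pow _ _ hp]
    unfold nt
    split_ifs with h
    · rw [sub_zero, zero_mul, sub_zero, div_mul_div_comm, ← pow_succ']
    · rw [sub_div, div_mul_div_comm, ← pow_succ', one_mul]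
      congr 1
      rw [show k + 1 + 1 = k + 2 by ring, pow_add, hs2]
      field_simp
  · intro k
    have hk : 0 < Real.sqrt p ^ k := pow_pos hs0 k
    rw [abs_div, abs_of_pos hk, div_le_iff₀ hk]
    by_cases h' : p ∣ M
    · have h2 := h.prime_pow_bad hp h' k
      have h3 : (1 : ℝ) ≤ Real.sqrt p ^ k :=
        one_le_pow₀ (Real.one_le_sqrt.2 (by exact_mod_cast hp.one_le))
      have h4 : (1 : ℝ) ≤ (k : ℝ) + 1 := by
        have : (0 : ℝ) ≤ k := Nat.cast_nonneg k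
        linarith
      nlinarith
    · exact h.prime_pow hp h' k
  · split_ifs <;> norm_num
  · split_ifs <;> norm_num

theorem HS.nt_le (h : HS M c) {p : ℕ} (hp : p.Prime) : |nt c p| ≤ 2 := by
  classical
  exact (h.loc hp).t_le

end

section
variable {M₁ M₂ : ℕ} {c d : ℕ → ℝ}

/-- the local factor -/
def LFs (c d : ℕ → ℝ) (s : ℂ) (p : ℕ) : ℂ :=
  S (fun k => c (p ^ k) / Real.sqrt p ^ k) (fun k => d (p ^ k) / Real.sqrt p ^ k)
    ((p : ℂ) ^ (-s)) 0

theorem hasProd_CC (hf : HS M₁ c) (hg : HS M₂ d) {s : ℂ} (hs : 1 < s.re) :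
    HasProd (fun p : Nat.Primes => LFs c d s p) (CC c d s) := by
  have hsum := hf.smc.cc hg.smc hf.zero hs
  have h1 : ((c 1 * d 1 / ((1 : ℕ) : ℝ) : ℝ) : ℂ) * ((1 : ℕ) : ℂ) ^ (-s) = 1 := by
    rw [hf.one, hg.one]; simp
  have hmul : ∀ {m n : ℕ}, Nat.Coprime m n →
      ((c (m * n) * d (m * n) / ((m * n : ℕ) : ℝ) : ℝ) : ℂ) * ((m * n : ℕ) : ℂ) ^ (-s) =
      ((c m * d m / (m : ℝ) : ℝ) : ℂ) * (m : ℂ) ^ (-s) *
        (((c n * d n / (n : ℝ) : ℝ) : ℂ) * (n : ℂ) ^ (-s)) := by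
    intro m n h
    rw [hf.mul _ _ h, hg.mul _ _ h, Nat.cast_mul, Nat.cast_mul, Complex.natCast_mul_natCast_cpow,
      show c m * c n * (d m * d n) = (c m * d m) * (c n * d n) by ring,
      mul_div_mul_comm]
    push_cast
    ring
  have h := EulerProduct.eulerProduct_hasProd
    (f := fun n : ℕ => ((c n * d n / n : ℝ) : ℂ) * (n : ℂ) ^ (-s)) h1 hmul hsum (by
      rw [hf.zero]; simp)
  refine h.congr_fun fun p => ?_
  unfold LFs S
  refine tsum_congr fun k => ?_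
  have hp0 : (0 : ℝ) < (p : ℕ) := by exact_mod_cast p.2.pos
  have hs2 : Real.sqrt (p : ℕ) ^ k * Real.sqrt (p : ℕ) ^ k = ((p : ℕ) : ℝ) ^ k := by
    rw [← mul_pow, Real.mul_self_sqrt hp0.le]
  simp only [add_zero]
  rw [div_mul_div_comm, hs2, pow_cpow p.2.pos]
  push_cast
  rfl

theorem LFs_lower (hf : HS M₁ c) (hg : HS M₂ d) {s : ℂ} (hs : 1 < s.re) (p : Nat.Primes) :
    0 < ‖LFs c d s p‖ ∧ nt c p * nt d p * (((p : ℕ) : ℂ) ^ (-s)).re -
      KD * (((p : ℕ) : ℝ) ^ (-s.re)) ^ 2 ≤ Real.log ‖LFs c d s p‖ := by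
  classical
  obtain ⟨h0, h1, _⟩ := rpow_half p.2 hs.le
  have a := hf.loc p.2
  have b := hg.loc p.2
  have hx : ‖((p : ℕ) : ℂ) ^ (-s)‖ ≤ 1 / 2 := by rw [norm_p]; exact h1
  have h2 := log_lower a b hx
  rw [norm_p] at h2
  exact ⟨lt_of_lt_of_le (by norm_num) (S_lower a b hx), h2⟩

/-- **Lower bound for the series.** -/
theorem E_le_log (hf : HS M₁ c) (hg : HS M₂ d) (τ : ℝ) {ε : ℝ} (hε : 0 < ε) :
    (E ε fun p : Nat.Primes => nt c p * nt d p * zr τ p) ≤
      Real.log ‖CC c d (((1 + ε : ℝ) : ℂ) + τ * Complex.I)‖ + K2 := by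
  set s : ℂ := ((1 + ε : ℝ) : ℂ) + τ * Complex.I with hs'
  have hre : s.re = 1 + ε := by rw [hs']; simp
  have hs : 1 < s.re := by rw [hre]; linarith
  have hP := hasProd_CC hf hg hs
  have hsum1 : Summable fun p : Nat.Primes => nt c p * nt d p * (((p : ℕ) : ℂ) ^ (-s)).re := by
    refine Summable.of_norm_bounded ((Nat.Primes.summable_rpow.2
      (by linarith : -(1 + ε) < -1)).mul_left 4) fun p => ?_
    rw [norm_mul, norm_mul, Real.norm_eq_abs, Real.norm_eq_abs, Real.norm_eq_abs]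
    have h1 : |(((p : ℕ) : ℂ) ^ (-s)).re| ≤ ((p : ℕ) : ℝ) ^ (-(1 + ε)) := by
      refine (Complex.abs_re_le_norm _).trans (le_of_eq ?_)
      rw [norm_p, hre]
    refine mul_le_mul ?_ h1 (abs_nonneg _) (by norm_num)
    calc |nt c p| * |nt d p| ≤ 2 * 2 :=
          mul_le_mul (hf.nt_le p.2) (hg.nt_le p.2) (abs_nonneg _) (by norm_num)
      _ = 4 := by norm_num
  have hs2 : Summable fun p : Nat.Primes => ((p : ℕ) : ℝ) ^ (-2 : ℝ) :=
    Nat.Primes.summable_rpow.2 (by norm_num)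
  have hle2 : ∀ p : Nat.Primes, (((p : ℕ) : ℝ) ^ (-s.re)) ^ 2 ≤ ((p : ℕ) : ℝ) ^ (-2 : ℝ) := by
    intro p
    have hp1 : (1 : ℝ) ≤ (p : ℕ) := by exact_mod_cast p.2.one_le
    rw [← Real.rpow_natCast, ← Real.rpow_mul (by positivity)]
    refine Real.rpow_le_rpow_of_exponent_le hp1 ?_
    push_cast
    linarith
  have hsum2 : Summable fun p : Nat.Primes => (((p : ℕ) : ℝ) ^ (-s.re)) ^ 2 :=
    Summable.of_nonneg_of_le (fun p => by positivity) hle2 hs2
  have hsum3 := hsum1.sub (hsum2.mul_left KD)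
  have hfin : ∀ T : Finset Nat.Primes, Real.exp (∑ p ∈ T, (nt c p * nt d p *
      (((p : ℕ) : ℂ) ^ (-s)).re - KD * (((p : ℕ) : ℝ) ^ (-s.re)) ^ 2)) ≤
      ‖∏ p ∈ T, LFs c d s p‖ := by
    intro T
    rw [norm_prod, Real.exp_sum]
    refine Finset.prod_le_prod (fun p _ => (Real.exp_pos _).le) fun p _ => ?_
    obtain ⟨h1, h2⟩ := LFs_lower hf hg hs p
    rw [← Real.exp_log h1]
    exact Real.exp_le_exp.2 h2
  have hlim1 : Tendsto (fun T : Finset Nat.Primes => Real.exp (∑ p ∈ T, (nt c p * nt d p *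
      (((p : ℕ) : ℂ) ^ (-s)).re - KD * (((p : ℕ) : ℝ) ^ (-s.re)) ^ 2))) atTop
      (𝓝 (Real.exp (∑' p : Nat.Primes, (nt c p * nt d p *
      (((p : ℕ) : ℂ) ^ (-s)).re - KD * (((p : ℕ) : ℝ) ^ (-s.re)) ^ 2)))) :=
    (Real.continuous_exp.tendsto _).comp hsum3.hasSum
  have hlim2 : Tendsto (fun T : Finset Nat.Primes => ‖∏ p ∈ T, LFs c d s p‖) atTop
      (𝓝 ‖CC c d s‖) := Tendsto.norm hP
  have h3 := le_of_tendsto_of_tendsto' hlim1 hlim2 hfin
  have h4 := Real.log_le_log (Real.exp_pos _) h3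
  rw [Real.log_exp, hsum1.tsum_sub (hsum2.mul_left KD), tsum_mul_left] at h4
  have h5 : ∑' p : Nat.Primes, (((p : ℕ) : ℝ) ^ (-s.re)) ^ 2 ≤
      ∑' p : Nat.Primes, ((p : ℕ) : ℝ) ^ (-2 : ℝ) := hsum2.tsum_le_tsum hle2 hs2
  have h6 := mul_le_mul_of_nonneg_left h5 KD_nonneg
  unfold K2
  have h7 : (E ε fun p : Nat.Primes => nt c p * nt d p * zr τ p) =
      ∑' p : Nat.Primes, nt c p * nt d p * (((p : ℕ) : ℂ) ^ (-s)).re := by
    unfold E
    refine tsum_congr fun p => ?_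
    rw [hs', re_cpow]
    ring
  rw [h7]
  linarith

/-- from a bound for the series to a bound for the primes -/
theorem cross_of_bdd (hf : HS M₁ c) (hg : HS M₂ d) (τ : ℝ) {C : ℝ}
    (hC : ∀ᶠ σ : ℝ in 𝓝[>] 1, ‖CC c d (σ + τ * Complex.I)‖ ≤ C) :
    ∃ C : ℝ, ∀ᶠ ε : ℝ in 𝓝[>] 0, (E ε fun p : Nat.Primes => nt c p * nt d p * zr τ p) ≤ C := by
  refine ⟨Real.log (|C| + 1) + K2, ?_⟩
  filter_upwards [shift_nhds.eventually hC, self_mem_nhdsWithin] with ε h3 h4
  have hε : (0 : ℝ) < ε := h4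
  refine (E_le_log hf hg τ hε).trans ?_
  have h5 : Real.log ‖CC c d (((1 + ε : ℝ) : ℂ) + τ * Complex.I)‖ ≤ Real.log (|C| + 1) := by
    rcases eq_or_lt_of_le (norm_nonneg (CC c d (((1 + ε : ℝ) : ℂ) + τ * Complex.I)))
      with h6 | h6
    · rw [← h6, Real.log_zero]
      exact Real.log_nonneg (by have := abs_nonneg C; linarith)
    · refine Real.log_le_log h6 ?_
      have := le_abs_self C
      linarith
  linarith

/-- the series at real points -/
theorem CC_real (hf : HS M₁ c) (s : ℝ) : CC c d ((s : ℂ) + ((0 : ℝ) : ℂ) * Complex.I) =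
    (CR c d s : ℂ) := by
  rw [Complex.ofReal_zero, zero_mul, add_zero]
  unfold CC CR
  rw [Complex.ofReal_tsum]
  refine tsum_congr fun n => ?_
  rcases Nat.eq_zero_or_pos n with hn | hn
  · subst hn
    rw [hf.zero]
    simp
  · rw [Complex.ofReal_mul _ ((n : ℝ) ^ (-s)), Complex.ofReal_cpow (Nat.cast_nonneg n)]
    push_cast
    rfl

/-- **Different sequences.** -/
theorem cross_zero (hf : HS M₁ c) (hg : HS M₂ d) {C : ℝ}
    (hC : ∀ᶠ s : ℝ in 𝓝[>] 1, |CR c d s| ≤ C) :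
    ∃ C : ℝ, ∀ᶠ ε : ℝ in 𝓝[>] 0, (E ε fun p : Nat.Primes => nt c p * nt d p) ≤ C := by
  obtain ⟨C', h⟩ := cross_of_bdd hf hg 0 (C := C) (hC.mono fun s hs => by
    rw [CC_real hf, Complex.norm_real, Real.norm_eq_abs]
    exact hs)
  refine ⟨C', h.mono fun ε h2 => ?_⟩
  have e : (fun p : Nat.Primes => nt c p * nt d p) =
      fun p : Nat.Primes => nt c p * nt d p * zr 0 p := by
    funext p
    rw [Pool.Agent.Y149.CR.zr_zero, mul_one]
  rw [e]
  exact h2

/-- **The norm of a sequence.** -/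
theorem self_le (hf : HS M₁ c) {C : ℝ} (hC : ∀ᶠ s : ℝ in 𝓝[>] 1, (s - 1) * CR c c s ≤ C) :
    ∃ C : ℝ, ∀ᶠ ε : ℝ in 𝓝[>] 0,
      (E ε fun p : Nat.Primes => nt c p * nt c p) ≤ Real.log (1 / ε) + C := by
  refine ⟨Real.log (|C| + 1) + K2, ?_⟩
  filter_upwards [shift_nhds.eventually hC, self_mem_nhdsWithin] with ε h3 h4
  have hε : (0 : ℝ) < ε := h4
  have h1 := E_le_log hf hf 0 hε
  have e : (fun p : Nat.Primes => nt c p * nt c p) =
      fun p : Nat.Primes => nt c p * nt c p * zr 0 p := by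
    funext p
    rw [Pool.Agent.Y149.CR.zr_zero, mul_one]
  rw [← e, CC_real hf, Complex.norm_real, Real.norm_eq_abs] at h1
  refine h1.trans ?_
  rw [add_sub_cancel_left] at h3
  have h0 : 0 < CR c c (1 + ε) := by
    have hs := hf.smc.cr hf.smc (s := 1 + ε) (by linarith)
    have h8 := hs.le_tsum 1 (fun n _ => by
      have : 0 ≤ c n * c n := mul_self_nonneg _
      positivity)
    have h9 : c 1 * c 1 / ((1 : ℕ) : ℝ) * ((1 : ℕ) : ℝ) ^ (-(1 + ε)) = 1 := by
      rw [hf.one]; simp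
    rw [h9] at h8
    exact lt_of_lt_of_le one_pos h8
  have h5 : Real.log |CR c c (1 + ε)| ≤ Real.log (1 / ε) + Real.log (|C| + 1) := by
    rw [abs_of_pos h0, ← Real.log_mul (by positivity) (by positivity)]
    refine Real.log_le_log h0 ?_
    rw [one_div, inv_mul_eq_div, le_div_iff₀ hε, mul_comm]
    have := le_abs_self C
    linarith
  linarith

end

end

end Pool.Agent.Helper43x.NW
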