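import Pool.Agent.Helper43x.NW.Cross
import Pool.Agent.Helper43x.NW.Seq
import Pool.Agent.Helper43x.NW.Defs

/-! Newforms: the sequences of the normalised coefficients are almost orthogonal at all heights. -/

set_option autoImplicit false

namespace Pool.Agent.Helper43x.NW

open Filter Topology CongruenceSubgroup
open scoped MatrixGroups
open Pool.Agent.W165.RS (ac ac_zero)
open Pool.Agent.H341R2 (E lam lam_bounded)
open Pool.Agent.Y722.RS (CR CR_summable CR_rel CR_comm shift_summable)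
open Pool.Agent.Y149.CR (CC zr)

noncomputable section

theorem CC_comm (c d : ℕ → ℝ) (s : ℂ) : CC c d s = CC d c s := by
  unfold CC
  refine tsum_congr fun n => ?_
  rw [mul_comm (c n)]

section
variable {κ M₁ M₂ : ℕ} [NeZero M₁] [NeZero M₂]

theorem D_bdd_aux {j : ℕ} (hκ : 0 < κ) {f : SK (κ + j) M₁} {g : SK κ M₂}
    (hf : ∀ n, (ac f n).im = 0) (hg : ∀ n, (ac g n).im = 0) (sf : HS M₁ (rn f))
    (sg : HS M₂ (rn g)) {p : ℕ} (hp : p.Prime) (h1 : ¬ p ∣ M₁) (h2 : ¬ p ∣ M₂)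
    (hne : rn f p ≠ rn g p) :
    ∃ C : ℝ, ∀ᶠ s : ℝ in 𝓝[>] 1, |CR (rn f) (rn g) s| ≤ C := by
  have : NeZero p := ⟨hp.ne_zero⟩
  have hco : Nat.Coprime p (M₁ * M₂) := (Nat.Prime.coprime_iff_not_dvd hp).2 fun h =>
    ((Nat.Prime.dvd_mul hp).1 h).elim h1 h2
  obtain ⟨C, hC⟩ := cross_bdd hco hκ j (real_restr (M₁ * M₂) (dvd_mul_right _ _) hf)
    (real_restr (M₁ * M₂) (dvd_mul_left _ _) hg) (f := restr (M₁ * M₂) (dvd_mul_right _ _) f)
    (g := restr (M₁ * M₂) (dvd_mul_left _ _) g) sf.smc sg.smc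
  have q1 : rn (restr (M₁ * M₂) (dvd_mul_right _ _) f) = rn f := rfl
  have q2 : rn (restr (M₁ * M₂) (dvd_mul_left _ _) g) = rn g := rfl
  rw [q1, q2] at hC
  have hd : 0 < |rn g p - rn f p| := abs_pos.2 (sub_ne_zero.2 hne.symm)
  refine ⟨C / |rn g p - rn f p|, ?_⟩
  filter_upwards [hC, self_mem_nhdsWithin] with s hs hs1
  have hs1' : (1 : ℝ) < s := hs1
  have tf := sf.smc s hs1'
  have tg := sg.smc s hs1'
  have e1 := CR_rel (a := rn f) (b := rn g) (sg.rel hp h2) (CR_summable tf tg)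
    (CR_summable tf (shift_summable tg))
  have e2 := CR_rel (a := rn g) (b := rn f) (sf.rel hp h1) (CR_summable tg tf)
    (CR_summable tg (shift_summable tf))
  rw [CR_comm (rn g) (rn f)] at e2
  generalize CR (rn f) (fun n => rn g (p * n)) s = A at hs e1 e2
  generalize CR (rn g) (fun n => rn f (p * n)) s = B at hs e1 e2
  generalize CR (rn f) (rn g) s = D at e1 e2 ⊢
  have hp1 : (1 : ℝ) ≤ p := by exact_mod_cast hp.one_le
  have hx0 : 0 ≤ (p : ℝ) ^ (-s) := by positivity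
  have hx1 : (p : ℝ) ^ (-s) ≤ 1 := Real.rpow_le_one_of_one_le_of_nonpos hp1 (by linarith)
  have h3 : (rn g p - rn f p) * D = (1 - (p : ℝ) ^ (-s)) * (A - B) := by linear_combination e2 - e1
  have h4 : |rn g p - rn f p| * |D| ≤ C := by
    rw [← abs_mul, h3, abs_mul, abs_of_nonneg (by linarith : (0 : ℝ) ≤ 1 - (p : ℝ) ^ (-s))]
    calc (1 - (p : ℝ) ^ (-s)) * |A - B| ≤ 1 * |A - B| :=
          mul_le_mul_of_nonneg_right (by linarith) (abs_nonneg _)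
      _ ≤ C := by rw [one_mul]; exact hs
  rw [le_div_iff₀ hd, mul_comm]
  exact h4

theorem CC_bdd_aux {j : ℕ} (hκ : 0 < κ) {f : SK (κ + j) M₁} {g : SK κ M₂}
    (hf : ∀ n, (ac f n).im = 0) (hg : ∀ n, (ac g n).im = 0) (sf : HS M₁ (rn f))
    (sg : HS M₂ (rn g)) {τ : ℝ} (hτ : τ ≠ 0) :
    ∃ C : ℝ, ∀ᶠ σ : ℝ in 𝓝[>] 1, ‖CC (rn f) (rn g) (σ + τ * Complex.I)‖ ≤ C := by
  obtain ⟨m, hm, hM⟩ := MI_lower hκ j τ
  have w1 := wv_Ph' hκ j (real_restr (M₁ * M₂) (dvd_mul_right _ _) hf)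
  have w2 := wv_CO hκ j (real_restr (M₁ * M₂) (dvd_mul_left _ _) hg)
  have q1 : rn (restr (M₁ * M₂) (dvd_mul_right _ _) f) = rn f := rfl
  have q2 : rn (restr (M₁ * M₂) (dvd_mul_left _ _) g) = rn g := rfl
  rw [q1] at w1
  rw [q2] at w2
  exact CC_bdd' w1 w2 sf.zero sg.zero sf.smc sg.smc hτ hm hM

end

section
variable {κ₁ κ₂ M₁ M₂ : ℕ} [NeZero M₁] [NeZero M₂]

theorem D_bdd (h₁ : 0 < κ₁) (h₂ : 0 < κ₂) {f : SK κ₁ M₁} {g : SK κ₂ M₂}
    (hf : ∀ n, (ac f n).im = 0) (hg : ∀ n, (ac g n).im = 0) (sf : HS M₁ (rn f))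
    (sg : HS M₂ (rn g)) {p : ℕ} (hp : p.Prime) (h1 : ¬ p ∣ M₁) (h2 : ¬ p ∣ M₂)
    (hne : rn f p ≠ rn g p) :
    ∃ C : ℝ, ∀ᶠ s : ℝ in 𝓝[>] 1, |CR (rn f) (rn g) s| ≤ C := by
  rcases le_total κ₂ κ₁ with h | h
  · obtain ⟨j, rfl⟩ := Nat.exists_eq_add_of_le h
    exact D_bdd_aux h₂ hf hg sf sg hp h1 h2 hne
  · obtain ⟨j, rfl⟩ := Nat.exists_eq_add_of_le h
    obtain ⟨C, hC⟩ := D_bdd_aux h₁ hg hf sg sf hp h2 h1 hne.symm
    exact ⟨C, hC.mono fun s hs => by rw [CR_comm]; exact hs⟩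

theorem CC_bdd (h₁ : 0 < κ₁) (h₂ : 0 < κ₂) {f : SK κ₁ M₁} {g : SK κ₂ M₂}
    (hf : ∀ n, (ac f n).im = 0) (hg : ∀ n, (ac g n).im = 0) (sf : HS M₁ (rn f))
    (sg : HS M₂ (rn g)) {τ : ℝ} (hτ : τ ≠ 0) :
    ∃ C : ℝ, ∀ᶠ σ : ℝ in 𝓝[>] 1, ‖CC (rn f) (rn g) (σ + τ * Complex.I)‖ ≤ C := by
  rcases le_total κ₂ κ₁ with h | h
  · obtain ⟨j, rfl⟩ := Nat.exists_eq_add_of_le h
    exact CC_bdd_aux h₂ hf hg sf sg hτ
  · obtain ⟨j, rfl⟩ := Nat.exists_eq_add_of_le h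
    obtain ⟨C, hC⟩ := CC_bdd_aux h₁ hg hf sg sf hτ
    exact ⟨C, hC.mono fun s hs => by rw [CC_comm]; exact hs⟩

end

/-! ### newforms -/

section
variable (f : Newform)

instance : NeZero f.level := ⟨f.level_pos.ne'⟩

theorem ac_new (n : ℕ) : ac f.form n = (f.a n : ℂ) := ac_unique f.form _ f.fourier n

theorem new_real (n : ℕ) : (ac f.form n).im = 0 := by
  rw [ac_new, Complex.ofReal_im]

theorem rn_new (n : ℕ) : rn f.form n = f.a n / (n : ℝ) ^ (f.κ - 1) := by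
  unfold rn
  rw [ac_new, Complex.ofReal_re]

theorem new_one : rn f.form 1 = 1 := by
  rw [rn_new, f.one]
  simp

theorem new_seq : HS f.level (rn f.form) where
  zero := rn_zero f.form
  one := new_one f
  mul := fun m n h => by
    rw [rn_new, rn_new, rn_new, f.mul m n h, Nat.cast_mul, mul_pow, mul_div_mul_comm]
  pow := fun p j hp => by
    have hp0 : (0 : ℝ) < p := by exact_mod_cast hp.pos
    rw [rn_new, rn_new, rn_new, rn_new, f.pow p j hp]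
    obtain ⟨k, hk⟩ : ∃ k, f.κ = k + 1 := ⟨f.κ - 1, by have := f.κ_pos; omega⟩
    have hk' : f.κ - 1 = k := by omega
    have hk2 : 2 * f.κ - 1 = 2 * k + 1 := by omega
    rw [hk', hk2]
    have hpk : ((p : ℝ) ^ k) ≠ 0 := by positivity
    have e2 : (((p ^ (j + 2) : ℕ) : ℝ)) ^ k = ((p : ℝ) ^ k) ^ (j + 2) := by
      push_cast
      rw [← pow_mul, ← pow_mul, mul_comm]
    have e1 : (((p ^ (j + 1) : ℕ) : ℝ)) ^ k = ((p : ℝ) ^ k) ^ (j + 1) := by
      push_cast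
      rw [← pow_mul, ← pow_mul, mul_comm]
    have e0 : (((p ^ j : ℕ) : ℝ)) ^ k = ((p : ℝ) ^ k) ^ j := by
      push_cast
      rw [← pow_mul, ← pow_mul, mul_comm]
    have e3 : (p : ℝ) ^ (2 * k + 1) = ((p : ℝ) ^ k) ^ 2 * p := by
      rw [← pow_mul]
      ring
    rw [e2, e1, e0, e3]
    generalize (p : ℝ) ^ k = q at hpk
    split_ifs
    · field_simp
      ring
    · field_simp
      ring
  good := fun p hp h => by
    have hp0 : (0 : ℝ) < p := by exact_mod_cast hp.pos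
    rw [rn_new, abs_div, abs_of_pos (by positivity : (0 : ℝ) < (p : ℝ) ^ (f.κ - 1)),
      div_le_iff₀ (by positivity)]
    refine (f.good p hp h).trans (le_of_eq ?_)
    obtain ⟨k, hk⟩ : ∃ k, f.κ = k + 1 := ⟨f.κ - 1, by have := f.κ_pos; omega⟩
    have hk' : f.κ - 1 = k := by omega
    have hk2 : 2 * f.κ - 1 = 2 * k + 1 := by omega
    rw [hk', hk2, pow_succ, pow_mul', Real.sqrt_mul (by positivity), Real.sqrt_sq (by positivity)]
    ring
  bad := fun p hp h => by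
    have hp0 : (0 : ℝ) < p := by exact_mod_cast hp.pos
    rw [rn_new, abs_div, abs_of_pos (by positivity : (0 : ℝ) < (p : ℝ) ^ (f.κ - 1)),
      div_le_one (by positivity)]
    exact f.bad p hp h
  smc := (rs_seq f.κ_pos (new_real f) (new_one f)).1

/-- the normalised Hecke eigenvalue -/
def nf (f : Newform) (p : ℕ) : ℝ := nt (rn f.form) p

theorem nf_eq {p : ℕ} (hp : p.Prime) :
    nf f p = f.a p / ((p : ℝ) ^ (f.κ - 1) * Real.sqrt p) := by
  unfold nf nt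
  rw [rn_new, div_div]

variable {f} {g : Newform}

theorem differ_ne {p : ℕ} (hp : p.Prime) (h : f.a p * (p : ℝ) ^ g.κ ≠ g.a p * (p : ℝ) ^ f.κ) :
    rn f.form p ≠ rn g.form p := by
  have hp0 : (0 : ℝ) < p := by exact_mod_cast hp.pos
  rw [rn_new, rn_new]
  intro h1
  apply h
  rw [div_eq_div_iff (by positivity) (by positivity)] at h1
  have e1 : (p : ℝ) ^ g.κ = (p : ℝ) ^ (g.κ - 1) * p := by
    rw [← pow_succ]
    congr 1
    have := g.κ_pos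
    omega
  have e2 : (p : ℝ) ^ f.κ = (p : ℝ) ^ (f.κ - 1) * p := by
    rw [← pow_succ]
    congr 1
    have := f.κ_pos
    omega
  rw [e1, e2]
  linear_combination (p : ℝ) * h1

theorem new_cross (h : Differ f g) :
    ∃ C : ℝ, ∀ᶠ ε : ℝ in 𝓝[>] 0, (E ε fun p : Nat.Primes => nf f p * nf g p) ≤ C := by
  obtain ⟨p, hp, h1, h2, h3⟩ := h
  obtain ⟨C, hC⟩ := D_bdd f.κ_pos g.κ_pos (new_real f) (new_real g) (new_seq f) (new_seq g) hp h1 h2
    (differ_ne hp h3)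
  exact cross_zero (new_seq f) (new_seq g) hC

theorem new_twist (f g : Newform) {τ : ℝ} (hτ : τ ≠ 0) :
    ∃ C : ℝ, ∀ᶠ ε : ℝ in 𝓝[>] 0, (E ε fun p : Nat.Primes => nf f p * nf g p * zr τ p) ≤ C := by
  obtain ⟨C, hC⟩ := CC_bdd f.κ_pos g.κ_pos (new_real f) (new_real g) (new_seq f) (new_seq g) hτ
  exact cross_of_bdd (new_seq f) (new_seq g) τ hC

theorem new_self (f : Newform) : ∃ C : ℝ, ∀ᶠ ε : ℝ in 𝓝[>] 0,
    (E ε fun p : Nat.Primes => nf f p ^ 2) ≤ lam ε + C := by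
  obtain ⟨C, hC⟩ := (rs_seq f.κ_pos (new_real f) (new_one f)).2
  obtain ⟨C', h1⟩ := self_le (new_seq f) hC
  obtain ⟨C'', h2⟩ := lam_bounded
  refine ⟨C' + C'', ?_⟩
  filter_upwards [h1, h2] with ε h3 h4
  have e1 : (fun p : Nat.Primes => nf f p ^ 2) =
      fun p : Nat.Primes => nt (rn f.form) p * nt (rn f.form) p := by
    funext p
    unfold nf
    ring
  rw [e1]
  have e3 : Real.log (1 / ε) = -Real.log ε := by rw [one_div, Real.log_inv]
  rw [e3] at h3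
  have h5 := (abs_le.1 h4).1
  linarith

theorem nf_le (f : Newform) (p : Nat.Primes) : |nf f p| ≤ 2 := (new_seq f).nt_le p.2

end

end

end Pool.Agent.Helper43x.NW
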