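import Pool.Agent.Helper43x.NW.New
import Pool.Agent.Y149.TL.Sub

/-! The mean square for tensor products with newforms. -/

set_option autoImplicit false

open Finset Filter Topology Complex Polynomial

namespace Pool.Agent.Helper43x.NW

open Pool.Agent.TH941 (exists_roots')
open Pool.Agent.H341R2 (E lam)
open Pool.Agent.Y149.CM (LFun)
open Pool.Agent.Y149.PK (tens sq_perturb tuples card_tup sum_tup_succ)
open Pool.Agent.Y149.TL (Motive edge IsEuler size HasOrder tensL LineFam wT norm_mt Pure line_log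
  line_order tens_pure tens_sum cpow_half greedy tensL_perm ph norm_ph mul_ph)
open Pool.Agent.H341R2 (lam_tendsto)
open Pool.Agent.W540.BE (EP NormSys)
open Pool.Agent.Y149.LN (normSysP E_eq_EP bessel_D)
open Pool.Agent.Y149.PK (E_smul abs_E_le lam_pos E_one)

/-- **Bessel's inequality** on the line, for one sign. -/
theorem bes_one {ι : Type} {R : ι → ι → Prop} {M : ℕ} {T : ι → Nat.Primes → ℝ} {b v : ℝ}
    (h : LineFam R M T b v) (S : Finset (ι × ℝ)) (Q : Nat.Primes → ℂ) {c : ℝ}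
    (hQ : ∀ p, ‖Q p‖ ≤ c) {s : ℝ} (hs : s = 1 ∨ s = -1) {η : ℝ} (hη : 0 < η) :
    ∀ᶠ ε : ℝ in 𝓝[>] 0,
      ∑ a ∈ S, (max (s * ((E ε fun p => (Q p * wT T a p).re) / lam ε)) 0) ^ 2 ≤
      M * v ^ 2 * c ^ 2 + η := by
  classical
  have hc0 : 0 ≤ c := (norm_nonneg _).trans (hQ ⟨2, Nat.prime_two⟩)
  set δ : ℝ := η / (2 * (c ^ 2 + 1)) with hδ
  have hδ0 : 0 < δ := by positivity
  have hlam1 : Tendsto (fun ε : ℝ => EP (fun p : Nat.Primes => (p : ℕ)) ε (fun _ => 1) / lam ε)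
      (𝓝[>] 0) (𝓝 1) := by
    refine tendsto_const_nhds.congr' ?_
    filter_upwards [lam_pos] with ε hε
    have e : EP (fun p : Nat.Primes => (p : ℕ)) ε (fun _ => 1) = lam ε := E_one ε
    rw [e, div_self hε.ne']
  have hs1 : s ^ 2 = 1 := by rcases hs with rfl | rfl <;> norm_num
  have hsa : |s| = 1 := by rcases hs with rfl | rfl <;> norm_num
  have h1 := bessel_D normSysP lam_tendsto hlam1 S (fun a p => ph (Q p) * wT T a p)
    (fun p => s * ‖Q p‖) (bu := b) (bT := c) (D := M * v ^ 2 + δ)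
    (by have := h.v0; positivity)
    (fun a p => by rw [norm_mul, norm_ph, one_mul]; exact h.norm_wT a p)
    (fun p => by
      rw [abs_mul, hsa, one_mul, abs_of_nonneg (norm_nonneg _)]
      exact hQ p) (fun B => by
      obtain ⟨C, hC⟩ := h.var_le S B
      refine ⟨C, ?_⟩
      filter_upwards [hC, lam_pos] with ε h1 h2 w hw
      have e1 : (EP (fun p : Nat.Primes => (p : ℕ)) ε fun p =>
          ‖∑ a ∈ S, (w a : ℂ) * (ph (Q p) * wT T a p)‖ ^ 2) =
          E ε fun p => ‖∑ a ∈ S, (w a : ℂ) * wT T a p‖ ^ 2 := by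
        rw [E_eq_EP]
        congr 1
        funext p
        have e2 : ∑ a ∈ S, (w a : ℂ) * (ph (Q p) * wT T a p) =
            ph (Q p) * ∑ a ∈ S, (w a : ℂ) * wT T a p := by
          rw [Finset.mul_sum]
          exact Finset.sum_congr rfl fun a _ => by ring
        rw [e2, norm_mul, norm_ph, one_mul]
      rw [e1]
      refine (h1 w hw).trans ?_
      refine add_le_add_left (mul_le_mul_of_nonneg_right (by linarith) ?_) _
      exact mul_nonneg (Finset.sum_nonneg fun _ _ => sq_nonneg _) h2.le)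
    (fun a ε => s * ((E ε fun p => (Q p * wT T a p).re) / lam ε)) (fun a _ => by
      refine tendsto_const_nhds.congr fun ε => ?_
      have e2 : (EP (fun p : Nat.Primes => (p : ℕ)) ε
          fun p => s * ‖Q p‖ * (ph (Q p) * wT T a p).re) =
          s * E ε fun p => (Q p * wT T a p).re := by
        rw [← E_smul, E_eq_EP]
        congr 1
        funext p
        have e3 : (Q p * wT T a p).re = ‖Q p‖ * (ph (Q p) * wT T a p).re := by
          conv_lhs => rw [← mul_ph (Q p)]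
          rw [mul_assoc, Complex.re_ofReal_mul]
        rw [e3]
        ring
      rw [e2]
      ring) (η := η / 2) (by positivity)
  have hδb : δ * c ^ 2 ≤ η / 2 := by
    rw [hδ, div_mul_eq_mul_div, div_le_iff₀ (by positivity)]
    nlinarith [sq_nonneg c]
  filter_upwards [h1, lam_pos, self_mem_nhdsWithin] with ε h2 h3 h4
  have hε : (0 : ℝ) < ε := h4
  have h6 : (EP (fun p : Nat.Primes => (p : ℕ)) ε fun p => (s * ‖Q p‖) ^ 2) / lam ε ≤ c ^ 2 := by
    rw [div_le_iff₀ h3]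
    have h5 : (EP (fun p : Nat.Primes => (p : ℕ)) ε fun p => (s * ‖Q p‖) ^ 2) ≤
        c ^ 2 * lam ε := by
      refine (le_abs_self _).trans (abs_E_le hε fun p => ?_)
      rw [abs_pow, abs_mul, hsa, one_mul, abs_of_nonneg (norm_nonneg _)]
      exact pow_le_pow_left₀ (norm_nonneg _) (hQ p) 2
    exact h5
  have h7 := mul_le_mul_of_nonneg_left h6 (by have := h.v0; positivity :
    (0 : ℝ) ≤ M * v ^ 2 + δ)
  linarith

theorem max_sub_lim {x y : ℝ → ℝ} {s : ℝ} (hs : s = 1 ∨ s = -1)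
    (h : Tendsto (fun ε => y ε - x ε) (𝓝[>] 0) (𝓝 0)) :
    Tendsto (fun ε => max (s * y ε) 0 - max (s * x ε) 0) (𝓝[>] 0) (𝓝 0) := by
  have hsa : |s| = 1 := by rcases hs with rfl | rfl <;> norm_num
  refine squeeze_zero_norm (fun ε => ?_) (by simpa using h.norm)
  rw [Real.norm_eq_abs]
  refine (abs_max_sub_max_le_abs _ _ _).trans ?_
  rw [← mul_sub, abs_mul, hsa, one_mul]

/-- the weight of `M(f)` -/
def uw (f : Newform) : ℤ := 2 * (f.κ : ℤ) - 1

theorem uw_rpow (f : Newform) {p : ℕ} (hp : p.Prime) :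
    (p : ℝ) ^ ((uw f : ℝ) / 2) = (p : ℝ) ^ (f.κ - 1) * Real.sqrt p := by
  have hp0 : (0 : ℝ) < p := by exact_mod_cast hp.pos
  rw [Real.sqrt_eq_rpow, ← Real.rpow_natCast, ← Real.rpow_add hp0]
  congr 1
  rw [Nat.cast_sub (by have := f.κ_pos; omega)]
  unfold uw
  push_cast
  ring

theorem frob_roots (f : Newform) {p : ℕ} (hp : p.Prime) (h : ¬ p ∣ f.level) :
    ∃ α β : ℂ, frobN f p = {α, β} ∧ α + β = f.a p ∧ ‖α‖ = (p : ℝ) ^ ((uw f : ℝ) / 2) ∧
      ‖β‖ = (p : ℝ) ^ ((uw f : ℝ) / 2) := by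
  have hp0 : (0 : ℝ) < p := by exact_mod_cast hp.pos
  have hq : (0 : ℝ) < (p : ℝ) ^ (2 * f.κ - 1) := by positivity
  obtain ⟨α, β, hα, hβ, hs, hm⟩ := exists_roots' hq (f.good p hp h)
  have hn : Real.sqrt ((p : ℝ) ^ (2 * f.κ - 1)) = (p : ℝ) ^ ((uw f : ℝ) / 2) := by
    rw [Real.sqrt_eq_rpow, ← Real.rpow_natCast, ← Real.rpow_mul hp0.le]
    congr 1
    rw [Nat.cast_sub (by have := f.κ_pos; omega)]
    unfold uw
    push_cast
    ring
  refine ⟨α, β, ?_, hs, by rw [hα, hn], by rw [hβ, hn]⟩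
  have e : (X ^ 2 - C (f.a p : ℂ) * X + C ((p : ℂ) ^ (2 * f.κ - 1)) : ℂ[X]) =
      (X - C α) * (X - C β) := by
    have hm' : ((p : ℂ) ^ (2 * f.κ - 1)) = α * β := by rw [hm]; push_cast; rfl
    rw [hm', ← hs, map_add, map_mul]
    ring
  unfold frobN
  rw [e, roots_mul (mul_ne_zero (X_sub_C_ne_zero α) (X_sub_C_ne_zero β)), roots_X_sub_C,
    roots_X_sub_C]
  rfl

theorem frobN_pure (f : Newform) (p : Nat.Primes) (h : ¬ (p : ℕ) ∣ f.level) :
    Pure (uw f) 2 p (frobN f p) := by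
  obtain ⟨α, β, h1, -, h2, h3⟩ := frob_roots f p.2 h
  refine ⟨fun z hz => ?_, ?_⟩
  · rw [h1] at hz
    simp only [Multiset.insert_eq_cons, Multiset.mem_cons, Multiset.mem_singleton] at hz
    rcases hz with rfl | rfl
    · exact h2
    · exact h3
  · rw [h1]
    simp

theorem frobN_sum (f : Newform) (p : Nat.Primes) (h : ¬ (p : ℕ) ∣ f.level) :
    (frobN f p).sum = ((nf f p : ℝ) : ℂ) * ((((p : ℕ) : ℝ) ^ ((uw f : ℝ) / 2) : ℝ) : ℂ) := by
  obtain ⟨α, β, h1, h2, -, -⟩ := frob_roots f p.2 h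
  have hp0 : (0 : ℝ) < (p : ℕ) := by exact_mod_cast p.2.pos
  have hs := Real.sqrt_pos.2 hp0
  rw [h1]
  simp only [Multiset.insert_eq_cons, Multiset.sum_cons, Multiset.sum_singleton]
  rw [h2, ← Complex.ofReal_mul, nf_eq f p.2, uw_rpow f p.2]
  congr 1
  field_simp

theorem good_primes (f : Newform) : ∀ᶠ p : Nat.Primes in cofinite, ¬ (p : ℕ) ∣ f.level := by
  rw [eventually_cofinite]
  simp only [not_not]
  have h1 : ({p : Nat.Primes | (p : ℕ) ∣ f.level}).Finite := by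
    refine Set.Finite.of_finite_image (f := fun p : Nat.Primes => (p : ℕ)) ?_
      (fun x _ y _ h => Subtype.ext h)
    refine (Set.finite_le_nat f.level).subset ?_
    rintro _ ⟨p, hp, rfl⟩
    exact Nat.le_of_dvd f.level_pos hp
  exact h1

section
variable {ι : Type} {F : ι → Newform}

/-- **The family of newforms on the line.** -/
theorem line_new (hF : ∀ i j, i ≠ j → Differ (F i) (F j)) :
    LineFam (fun i j : ι => i = j) 1 (fun i p => nf (F i) p) 2 1 := by
  refine ⟨fun i p => nf_le (F i) p, zero_le_one, fun i => ?_, fun i j hij => new_cross (hF i j hij),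
    fun i j τ hτ => new_twist (F i) (F j) hτ, fun i j h => h.symm, fun i S hS => ?_⟩
  · obtain ⟨C, hC⟩ := new_self (F i)
    exact ⟨C, hC.mono fun ε h => by rw [one_pow, one_mul]; exact h⟩
  · exact Finset.card_le_one.2 fun x hx y hy => (hS x hx).symm.trans (hS y hy)

variable {w : ℤ} {N : ℕ} {δ : Nat.Primes → Multiset ℂ}

/-- **One newform, the mean square.** -/
theorem one_mean (hF : ∀ i j, i ≠ j → Differ (F i) (F j))
    (hδ : ∀ᶠ p in cofinite, Pure w N p (δ p))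
    (S : Finset (ι × ℝ)) {B : ι × ℝ → Nat.Primes → ℂ[X]} (hB : ∀ x ∈ S,
      IsEuler (w + uw (F x.1)) (fun p => tens (δ p) (frobN (F x.1) p)) (B x))
    {s : ℝ} (hs : s = 1 ∨ s = -1) {η : ℝ} (hη : 0 < η) : ∀ᶠ ε : ℝ in 𝓝[>] 0,
      (∀ x ∈ S, LFun (B x) (edge (w + uw (F x.1)) x.2 + ε) ≠ 0) ∧
      ∑ x ∈ S, max (s * size (w + uw (F x.1)) (B x) x.2 ε) 0 ^ 2 ≤ (N : ℝ) ^ 2 + η := by
  classical
  have hfam := line_new hF
  set T : ι → Nat.Primes → ℝ := fun i p => nf (F i) p with hT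
  set Q : Nat.Primes → ℂ := Pool.Agent.Y149.TL.mt w N δ with hQ
  have hlink : ∀ x ∈ S, (∀ᶠ ε : ℝ in 𝓝[>] 0, LFun (B x) (edge (w + uw (F x.1)) x.2 + ε) ≠ 0) ∧
      Tendsto (fun ε : ℝ => size (w + uw (F x.1)) (B x) x.2 ε -
        E ε (fun p => (Q p * wT T x p).re) / lam ε) (𝓝[>] 0) (𝓝 0) := by
    intro x hx
    have hg := good_primes (F x.1)
    refine line_log (hB x hx) (N := N * 2) (hδ.and hg |>.mono fun p hp =>
      tens_pure hp.1 (frobN_pure (F x.1) p hp.2)) x.2 (C0 := N * 2) (fun p => ?_)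
      (hδ.and hg |>.mono fun p hp => ?_)
    · refine (Complex.abs_re_le_norm _).trans ?_
      rw [norm_mul]
      exact mul_le_mul (norm_mt w N δ p) (hfam.norm_wT x p) (norm_nonneg _) (Nat.cast_nonneg _)
    · have hp0 : (0 : ℝ) < (p : ℕ) := by exact_mod_cast p.2.pos
      congr 1
      rw [tens_sum, frobN_sum (F x.1) p hp.2]
      have e1 : Q p = (δ p).sum / ((((p : ℕ) : ℝ) ^ ((w : ℝ) / 2) : ℝ) : ℂ) := by
        rw [hQ]
        unfold Pool.Agent.Y149.TL.mt
        rw [if_pos hp.1]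
      have e2 : ((((p : ℕ) : ℝ) ^ (((w + uw (F x.1) : ℤ) : ℝ) / 2) : ℝ) : ℂ) =
          ((((p : ℕ) : ℝ) ^ ((w : ℝ) / 2) : ℝ) : ℂ) *
            ((((p : ℕ) : ℝ) ^ ((uw (F x.1) : ℝ) / 2) : ℝ) : ℂ) := by
        rw [← Complex.ofReal_mul, ← Real.rpow_add hp0]
        congr 2
        push_cast
        ring
      have e3 := cpow_half (uw (F x.1)) p
      have e4 := cpow_half w p
      rw [e1, e2]
      unfold wT
      rw [hT]
      field_simp
  have h1 : ∀ᶠ ε : ℝ in 𝓝[>] 0, ∀ x ∈ S, LFun (B x) (edge (w + uw (F x.1)) x.2 + ε) ≠ 0 := by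
    rw [Filter.eventually_all_finset]
    exact fun x hx => (hlink x hx).1
  refine h1.and (sq_perturb S
    (fun x ε => max (s * (E ε (fun p => (Q p * wT T x p).re) / lam ε)) 0)
    (fun x ε => max (s * size (w + uw (F x.1)) (B x) x.2 ε) 0) _ (by positivity)
    (fun η' hη' => ?_) (fun x hx => max_sub_lim hs (hlink x hx).2) hη)
  have h2 := bes_one hfam S Q (norm_mt w N δ) hs hη'
  refine h2.mono fun ε h3 => h3.trans (le_of_eq ?_)
  push_cast
  ring

/-- **One newform, the orders.** -/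
theorem one_order (hF : ∀ i j, i ≠ j → Differ (F i) (F j))
    (hδ : ∀ᶠ p in cofinite, Pure w N p (δ p))
    (S : Finset (ι × ℝ)) {B : ι × ℝ → Nat.Primes → ℂ[X]} (hB : ∀ x ∈ S,
      IsEuler (w + uw (F x.1)) (fun p => tens (δ p) (frobN (F x.1) p)) (B x))
    {r : ι × ℝ → ℤ} (hr : ∀ x ∈ S, HasOrder (w + uw (F x.1)) (B x) x.2 (r x))
    {s : ℤ} (hs : s = 1 ∨ s = -1) :
    ∑ x ∈ S, max (s * r x) 0 ^ 2 ≤ (N : ℤ) ^ 2 := by
  have hs' : (-(s : ℝ)) = 1 ∨ (-(s : ℝ)) = -1 := by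
    rcases hs with rfl | rfl
    · right; norm_num
    · left; norm_num
  have h1 : ∑ x ∈ S, (max ((s : ℝ) * r x) 0) ^ 2 ≤ (N : ℝ) ^ 2 := by
    refine le_of_forall_pos_le_add fun η hη => ?_
    have h2 : Tendsto (fun ε : ℝ => ∑ x ∈ S,
        max (-(s : ℝ) * size (w + uw (F x.1)) (B x) x.2 ε) 0 ^ 2) (𝓝[>] 0)
        (𝓝 (∑ x ∈ S, max (-(s : ℝ) * -(r x : ℝ)) 0 ^ 2)) :=
      tendsto_finsetSum _ fun x hx =>
        (((line_order (hr x hx)).const_mul (-(s : ℝ))).max tendsto_const_nhds).pow 2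
    simp only [neg_mul_neg] at h2
    refine le_of_tendsto h2 ?_
    exact (one_mean hF hδ S hB hs' hη).mono fun ε h3 => h3.2
  have e : ∀ x, (max ((s : ℝ) * r x) 0) = ((max (s * r x) 0 : ℤ) : ℝ) := by
    intro x
    push_cast
    rfl
  simp_rw [e] at h1
  exact_mod_cast h1

theorem wt_cons (F : ι → Newform) (e : ι) (l : List ι) : wt F (e :: l) = wt F l + uw (F e) := by
  unfold wt uw
  rw [List.map_cons, List.sum_cons]
  ring

theorem tensL_pure {β : Multiset ℂ} {p : Nat.Primes} (hβ : Pure w N p β) (l : List ι)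
    (hγ : ∀ e ∈ l, ¬ (p : ℕ) ∣ (F e).level) :
    Pure (w + wt F l) (N * 2 ^ l.length) p (tensL β (fun i => frobN (F i) p) l) := by
  induction l with
  | nil => simpa [tensL, wt] using hβ
  | cons e l ih =>
    have h1 := tens_pure (ih fun f hf => hγ f (by simp [hf]))
      (frobN_pure (F e) p (hγ e (by simp)))
    rw [tensL, List.length_cons, pow_succ, ← mul_assoc, wt_cons, ← add_assoc]
    exact h1

theorem tensL_eventually (F : ι → Newform) (hδ : ∀ᶠ p in cofinite, Pure w N p (δ p))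
    (l : List ι) : ∀ᶠ p : Nat.Primes in cofinite, Pure (w + wt F l) (N * 2 ^ l.length) p
      (tensL (δ p) (fun i => frobN (F i) p) l) := by
  classical
  have h1 : ∀ᶠ p : Nat.Primes in cofinite, ∀ e ∈ l.toFinset, ¬ (p : ℕ) ∣ (F e).level := by
    rw [Filter.eventually_all_finset]
    exact fun e _ => good_primes (F e)
  exact (hδ.and h1).mono fun p hp => tensL_pure hp.1 l fun e he => hp.2 e (List.mem_toFinset.2 he)

/-! ### Tuples -/

theorem cons_factor {H : Motive} {e : ι} {l : List ι} {B : Nat.Primes → ℂ[X]}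
    (h : IsLFactor H F (e :: l) B) :
    IsEuler (H.weight + wt F l + uw (F e)) (fun p =>
      tens (tensL (H.frob p) (fun i => frobN (F i) p) l) (frobN (F e) p)) B := by
  unfold IsLFactor at h
  rw [wt_cons, ← add_assoc] at h
  exact h

theorem ofFn_cons {k : ℕ} (e : ι) (l : Fin k → ι) :
    List.ofFn (Fin.cons e l : Fin (k + 1) → ι) = e :: List.ofFn l := by
  rw [List.ofFn_succ]
  simp only [Fin.cons_zero, Fin.cons_succ]

/-- **The mean square over the tuples.** -/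
theorem tuple_mean (hF : ∀ i j, i ≠ j → Differ (F i) (F j)) (H : Motive) (k : ℕ) (J : Finset ι)
    (Θ : Finset ℝ) {B : (Fin (k + 1) → ι) → Nat.Primes → ℂ[X]}
    (hB : ∀ l, (∀ i, l i ∈ J) → IsLFactor H F (List.ofFn l) (B l)) {s : ℝ} (hs : s = 1 ∨ s = -1)
    {η : ℝ} (hη : 0 < η) : ∀ᶠ ε : ℝ in 𝓝[>] 0,
      (∀ l ∈ tuples J (k + 1), ∀ τ ∈ Θ,
        LFun (B l) (edge (H.weight + wt F (List.ofFn l)) τ + ε) ≠ 0) ∧
      ∑ l ∈ tuples J (k + 1), ∑ τ ∈ Θ,
        max (s * size (H.weight + wt F (List.ofFn l)) (B l) τ ε) 0 ^ 2 ≤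
        (H.rank : ℝ) ^ 2 * 4 ^ k * (J.card : ℝ) ^ k + η := by
  classical
  set c : ℝ := (J.card : ℝ) ^ k with hc
  have hc0 : 0 ≤ c := by positivity
  have hw : ∀ (e : ι) (l : Fin k → ι), H.weight + wt F (List.ofFn (Fin.cons e l : Fin (k + 1) → ι)) =
      H.weight + wt F (List.ofFn l) + uw (F e) := by
    intro e l
    rw [ofFn_cons, wt_cons, add_assoc]
  have h1 : ∀ᶠ ε : ℝ in 𝓝[>] 0, ∀ l ∈ tuples J k,
      (∀ x ∈ J ×ˢ Θ, LFun (B (Fin.cons x.1 l))
        (edge (H.weight + wt F (List.ofFn l) + uw (F x.1)) x.2 + ε) ≠ 0) ∧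
      ∑ x ∈ J ×ˢ Θ, max (s * size (H.weight + wt F (List.ofFn l) + uw (F x.1))
        (B (Fin.cons x.1 l)) x.2 ε) 0 ^ 2 ≤
        ((H.rank * 2 ^ k : ℕ) : ℝ) ^ 2 + η / (c + 1) := by
    rw [Filter.eventually_all_finset]
    intro l hl
    have h2 := tensL_eventually (w := H.weight) (N := H.rank) F H.Pure (List.ofFn l)
    have h3 := one_mean hF h2 (J ×ˢ Θ) (B := fun x => B (Fin.cons x.1 l)) (fun x hx => by
      refine cons_factor ?_
      rw [← ofFn_cons]
      refine hB _ fun i => ?_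
      refine Fin.cases ?_ (fun j => ?_) i
      · exact (Finset.mem_product.1 hx).1
      · exact Fintype.mem_piFinset.1 hl j) hs (η := η / (c + 1)) (by positivity)
    rw [List.length_ofFn] at h3
    exact h3
  filter_upwards [h1] with ε h2
  refine ⟨fun l hl τ hτ => ?_, ?_⟩
  · have hl' := Fintype.mem_piFinset.1 hl
    have h3 := (h2 (Fin.tail l) (Fintype.mem_piFinset.2 fun i => hl' i.succ)).1 (l 0, τ)
      (Finset.mem_product.2 ⟨hl' 0, hτ⟩)
    rw [← hw, Fin.cons_self_tail] at h3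
    exact h3
  · rw [sum_tup_succ, Finset.sum_product_right]
    have h3 : ∀ l ∈ tuples J k, ∑ e ∈ J, ∑ τ ∈ Θ,
        max (s * size (H.weight + wt F (List.ofFn (Fin.cons e l : Fin (k + 1) → ι)))
          (B (Fin.cons e l)) τ ε) 0 ^ 2 ≤
        ((H.rank * 2 ^ k : ℕ) : ℝ) ^ 2 + η / (c + 1) := by
      intro l hl
      refine le_trans (le_of_eq ?_) (h2 l hl).2
      rw [Finset.sum_product]
      refine Finset.sum_congr rfl fun e _ => Finset.sum_congr rfl fun τ _ => ?_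
      rw [hw]
    refine (Finset.sum_le_card_nsmul _ _ _ h3).trans ?_
    rw [card_tup, nsmul_eq_mul]
    push_cast
    rw [← hc]
    have h4 : ((2 : ℝ) ^ k) ^ 2 = 4 ^ k := by
      rw [← pow_mul, mul_comm, pow_mul]
      norm_num
    rw [mul_pow, h4]
    have h5 : c * (η / (c + 1)) ≤ η := by
      rw [← mul_div_assoc, div_le_iff₀ (by positivity)]
      nlinarith
    nlinarith

/-- **The orders for the tuples.** -/
theorem tuple_order (hF : ∀ i j, i ≠ j → Differ (F i) (F j)) (H : Motive) (k : ℕ) (J : Finset ι)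
    {B : (Fin (k + 1) → ι) → Nat.Primes → ℂ[X]} (S : Finset ((Fin (k + 1) → ι) × ℝ))
    (hJ : ∀ x ∈ S, ∀ i, x.1 i ∈ J) (hB : ∀ x ∈ S, IsLFactor H F (List.ofFn x.1) (B x.1))
    {r : (Fin (k + 1) → ι) × ℝ → ℤ}
    (hr : ∀ x ∈ S, HasOrder (H.weight + wt F (List.ofFn x.1)) (B x.1) x.2 (r x))
    {s : ℤ} (hs : s = 1 ∨ s = -1) :
    ∑ x ∈ S, max (s * r x) 0 ^ 2 ≤ (H.rank : ℤ) ^ 2 * 4 ^ k * (J.card : ℤ) ^ k := by
  classical
  have h1 : ∀ x ∈ S, Fin.tail x.1 ∈ tuples J k := fun x hx =>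
    Fintype.mem_piFinset.2 fun i => hJ x hx i.succ
  rw [← Finset.sum_fiberwise_of_maps_to h1]
  have h2 : ∀ l ∈ tuples J k, ∑ x ∈ S with Fin.tail x.1 = l, max (s * r x) 0 ^ 2 ≤
      ((H.rank * 2 ^ k : ℕ) : ℤ) ^ 2 := by
    intro l hl
    have h3 := tensL_eventually (w := H.weight) (N := H.rank) F H.Pure (List.ofFn l)
    set S' : Finset (ι × ℝ) := (S.filter fun x => Fin.tail x.1 = l).image
      fun x => (x.1 0, x.2) with hS'
    have hmem : ∀ y ∈ S', ((Fin.cons y.1 l : Fin (k + 1) → ι), y.2) ∈ S := by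
      intro y hy
      obtain ⟨x, hx, rfl⟩ := Finset.mem_image.1 hy
      obtain ⟨hx1, hx2⟩ := Finset.mem_filter.1 hx
      have : ((Fin.cons (x.1 0) l : Fin (k + 1) → ι), x.2) = x := by
        rw [← hx2, Fin.cons_self_tail]
      rw [this]
      exact hx1
    have h4 := one_order hF h3 S' (B := fun y => B (Fin.cons y.1 l))
      (fun y hy => cons_factor (by rw [← ofFn_cons]; exact hB _ (hmem y hy)))
      (r := fun y => r ((Fin.cons y.1 l : Fin (k + 1) → ι), y.2)) (fun y hy => by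
        have h5 := hr _ (hmem y hy)
        simp only at h5
        rw [ofFn_cons, wt_cons, ← add_assoc] at h5
        exact h5) hs
    rw [List.length_ofFn] at h4
    refine le_trans (le_of_eq ?_) h4
    rw [hS', Finset.sum_image]
    · refine Finset.sum_congr rfl fun x hx => ?_
      have hx2 := (Finset.mem_filter.1 hx).2
      have : ((Fin.cons (x.1 0) l : Fin (k + 1) → ι), x.2) = x := by
        rw [← hx2, Fin.cons_self_tail]
      rw [this]
    · intro x hx y hy hxy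
      have hx2 := (Finset.mem_filter.1 (Finset.mem_coe.1 hx)).2
      have hy2 := (Finset.mem_filter.1 (Finset.mem_coe.1 hy)).2
      simp only [Prod.mk.injEq] at hxy
      refine Prod.ext ?_ hxy.2
      rw [← Fin.cons_self_tail x.1, ← Fin.cons_self_tail y.1, hx2, hy2, hxy.1]
  refine (Finset.sum_le_card_nsmul _ _ _ h2).trans (le_of_eq ?_)
  rw [card_tup, nsmul_eq_mul]
  push_cast
  have h4 : ((2 : ℤ) ^ k) ^ 2 = 4 ^ k := by
    rw [← pow_mul, mul_comm, pow_mul]
    norm_num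
  rw [mul_pow, h4]
  ring

/-! ### One infinite family -/

theorem wt_perm {l l' : List ι} (h : l.Perm l') : wt F l = wt F l' := (h.map _).sum_eq

theorem factor_perm {H : Motive} {l l' : List ι} (h : l.Perm l')
    {B : Nat.Primes → ℂ[X]} (hB : IsLFactor H F l B) : IsLFactor H F l' B := by
  unfold IsLFactor at *
  rw [← wt_perm h]
  have e : (fun p : Nat.Primes => tensL (H.frob p) (fun i => frobN (F i) p) l') =
      fun p : Nat.Primes => tensL (H.frob p) (fun i => frobN (F i) p) l := by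
    funext p
    rw [tensL_perm _ _ h]
  rw [e]
  exact hB

/-- the members which are bad together with the members of `A` -/
def Bad (H : Motive) (F : ι → Newform) (A : Finset ι) : Set ι :=
  {e | ∃ (B : Nat.Primes → ℂ[X]) (τ : ℝ) (r : ℤ), r ≠ 0 ∧ IsLFactor H F (e :: A.toList) B ∧
    HasOrder (H.weight + wt F A.toList + uw (F e)) B τ r}

theorem bad_finite (hF : ∀ i j, i ≠ j → Differ (F i) (F j)) (H : Motive) (A : Finset ι) :
    (Bad H F A).Finite := by
  classical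
  by_contra hinf
  set K : ℕ := 2 * (H.rank * 2 ^ A.card) ^ 2 with hK
  obtain ⟨S, hS1, hS2⟩ := Set.Infinite.exists_subset_card_eq hinf (K + 1)
  have hch : ∀ e : ι, ∃ (B : Nat.Primes → ℂ[X]) (τ : ℝ) (r : ℤ), e ∈ S → r ≠ 0 ∧
      IsLFactor H F (e :: A.toList) B ∧
        HasOrder (H.weight + wt F A.toList + uw (F e)) B τ r := by
    intro e
    by_cases he : e ∈ S
    · obtain ⟨B, τ, r, h1⟩ := hS1 he
      exact ⟨B, τ, r, fun _ => h1⟩
    · exact ⟨fun _ => 0, 0, 0, fun h' => absurd h' he⟩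
  choose B τ r hB using hch
  have h1 := tensL_eventually (w := H.weight) (N := H.rank) F H.Pure A.toList
  rw [Finset.length_toList] at h1
  have h2 : ∀ {s : ℤ}, (s = 1 ∨ s = -1) → _ := fun {s} hs =>
    one_order hF h1 (S.image fun e => (e, τ e)) (B := fun x => B x.1)
    (fun x hx => by
      obtain ⟨e, he, rfl⟩ := Finset.mem_image.1 hx
      exact cons_factor (hB e he).2.1) (r := fun x => r x.1) (fun x hx => by
      obtain ⟨e, he, rfl⟩ := Finset.mem_image.1 hx
      exact (hB e he).2.2) hs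
  have h2p := h2 (Or.inl rfl : (1 : ℤ) = 1 ∨ (1 : ℤ) = -1)
  have h2m := h2 (Or.inr rfl : (-1 : ℤ) = 1 ∨ (-1 : ℤ) = -1)
  rw [Finset.sum_image (fun x _ y _ hxy => congrArg Prod.fst hxy)] at h2p h2m
  have h3 : (S.card : ℤ) ≤ ∑ e ∈ S, (max (1 * r e) 0 ^ 2 + max (-1 * r e) 0 ^ 2) := by
    rw [Finset.card_eq_sum_ones, Nat.cast_sum]
    refine Finset.sum_le_sum fun e he => ?_
    have h4 := (hB e he).1
    rw [Nat.cast_one, one_mul, neg_one_mul]
    rcases lt_or_gt_of_ne h4 with h5 | h5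
    · rw [max_eq_left (by omega : (0 : ℤ) ≤ -r e)]
      nlinarith [sq_nonneg (max (r e) 0)]
    · rw [max_eq_left (by omega : (0 : ℤ) ≤ r e)]
      nlinarith [sq_nonneg (max (-r e) 0)]
  rw [Finset.sum_add_distrib] at h3
  have h4 := h3.trans (add_le_add h2p h2m)
  rw [hS2] at h4
  have h5 : ((K + 1 : ℕ) : ℤ) ≤ (K : ℤ) := by
    refine h4.trans (le_of_eq ?_)
    rw [hK]
    push_cast
    ring
  omega

/-- **One infinite family for countably many motives.** -/
theorem universal [Infinite ι] (hF : ∀ i j, i ≠ j → Differ (F i) (F j)) (H : ℕ → Motive) :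
    ∃ 𝒥 : Set ι, 𝒥.Infinite ∧ ∀ j, ∃ G : Finset ι, (∀ x ∈ G, x ∈ 𝒥) ∧
      ∀ (k : ℕ) (l : Fin k → ι), Function.Injective l → (∀ i, l i ∈ 𝒥) → (∃ i, l i ∉ G) →
      ∀ B : Nat.Primes → ℂ[X], IsLFactor (H j) F (List.ofFn l) B →
      ∀ (τ : ℝ) (r : ℤ), HasOrder ((H j).weight + wt F (List.ofFn l)) B τ r → r = 0 := by
  classical
  obtain ⟨𝒥, hinf, h1⟩ := greedy (Bad := fun j A => Bad (H j) F A) fun j A => bad_finite hF (H j) A
  refine ⟨𝒥, hinf, fun j => ?_⟩
  obtain ⟨G, hG, h2⟩ := h1 j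
  refine ⟨G, hG, fun k l hl hmem hex B hB τ r hr => ?_⟩
  set A : Finset ι := Finset.univ.image l with hA
  obtain ⟨e, he, hbad⟩ := h2 A (fun x hx => by
    obtain ⟨i, _, rfl⟩ := Finset.mem_image.1 hx
    exact hmem i) (by
    obtain ⟨i, hi⟩ := hex
    exact ⟨l i, Finset.mem_image_of_mem l (Finset.mem_univ i), hi⟩)
  have hperm : (List.ofFn l).Perm (e :: (A.erase e).toList) := by
    have g1 : A.toList.Perm (e :: (A.erase e).toList) := by
      conv_lhs => rw [← Finset.insert_erase he]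
      exact Finset.toList_insert (Finset.notMem_erase e A)
    refine List.Perm.trans ?_ g1
    rw [List.perm_ext_iff_of_nodup (List.nodup_ofFn.2 hl) (Finset.nodup_toList _)]
    intro x
    rw [Finset.mem_toList, List.mem_ofFn, hA, Finset.mem_image]
    simp
  by_contra hr0
  refine hbad ⟨B, τ, r, hr0, factor_perm hperm hB, ?_⟩
  have e1 : (H j).weight + wt F (A.erase e).toList + uw (F e) =
      (H j).weight + wt F (List.ofFn l) := by
    rw [wt_perm (F := F) hperm, wt_cons, add_assoc]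
  rw [e1]
  exact hr

end

end Pool.Agent.Helper43x.NW
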