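import Pool.Agent.Helper43x.NW.Mel
import Pool.Agent.Y149.CR.Comp
import Pool.Agent.W165.RS.Strip

/-! Functions on the upper half-plane with a unimodular automorphy factor and a Fourier expansion with
kernels; the integral over the strip. -/

set_option autoImplicit false

namespace Pool.Agent.Helper43x.NW

open MeasureTheory Filter Topology UpperHalfPlane CongruenceSubgroup
open scoped ENNReal MatrixGroups Modular
open Pool.Agent.W165.RS (SS measurableSet_SS lintegral_H extend_apply' parseval ee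
  continuous_ee Inv Dec)

noncomputable section

/-- **The strip integral.** -/
theorem strip_q {H : ℍ → ℂ} (hH : Continuous H) {q : ℕ → ℝ → ℝ} (hq : ∀ n, Continuous (q n))
    (hs : ∀ (x : ℝ) {y : ℝ} (hy : 0 < y), HasSum (fun n : ℕ => (q n y : ℂ) * ee n x)
      (H ⟨x + y * Complex.I, by simpa using hy⟩))
    (ha : ∀ {y : ℝ}, 0 < y → Summable fun n => ‖(q n y : ℂ)‖) {u : ℝ → ℝ≥0∞} (hu : Measurable u)
    (hu' : ∀ y, u y ≠ ∞) :
    ∫⁻ z in SS, ENNReal.ofReal (‖H z‖ ^ 2) * u z.im =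
      ∑' n : ℕ, ∫⁻ y in Set.Ioi (0 : ℝ), ENNReal.ofReal (q n y ^ 2 * (1 / y) ^ 2) * u y := by
  have him : Measurable (fun z : ℍ => z.im) := continuous_im.measurable
  have hF : Measurable fun z : ℍ => ENNReal.ofReal (‖H z‖ ^ 2) :=
    ENNReal.measurable_ofReal.comp (hH.norm.pow 2).measurable
  have hmH : Measurable (SS.indicator fun z : ℍ => ENNReal.ofReal (‖H z‖ ^ 2) * u z.im) :=
    (hF.mul (hu.comp him)).indicator measurableSet_SS
  -- the horocycles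
  have horo : ∀ {y : ℝ} (hy : 0 < y), ∫⁻ x in Set.Ico (0:ℝ) 1,
      ENNReal.ofReal (‖H ⟨x + y * Complex.I, by simpa using hy⟩‖ ^ 2) =
      ∑' n : ℕ, ENNReal.ofReal (q n y ^ 2) := by
    intro y hy
    have hp := parseval (ha hy)
    have hgc : Continuous fun x : ℝ => ‖∑' n : ℕ, (q n y : ℂ) * ee n x‖ ^ 2 := by
      refine (Continuous.norm ?_).pow 2
      refine continuous_tsum (fun n => (continuous_const.mul (continuous_ee n))) (ha hy) ?_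
      intro n x
      rw [norm_mul, Pool.Agent.W165.RS.norm_ee, mul_one]
    have e1 : ∀ x : ℝ, H ⟨x + y * Complex.I, by simpa using hy⟩ =
        ∑' n : ℕ, (q n y : ℂ) * ee n x := fun x => (hs x hy).tsum_eq.symm
    simp_rw [e1]
    rw [← ofReal_integral_eq_lintegral_ofReal (hgc.integrableOn_Icc.mono_set
      Set.Ico_subset_Icc_self) (Eventually.of_forall fun x => by positivity)]
    rw [integral_Ico_eq_integral_Ioc, ← intervalIntegral.integral_of_le zero_le_one, ← hp.tsum_eq,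
      ENNReal.ofReal_tsum_of_nonneg (fun n => by positivity) hp.summable]
    refine tsum_congr fun n => ?_
    rw [Complex.norm_real, Real.norm_eq_abs, sq_abs]
  rw [← lintegral_indicator measurableSet_SS, lintegral_H _ hmH]
  have h1 : ∀ y ∈ Set.Ioi (0:ℝ), (∫⁻ x : ℝ, Function.extend UpperHalfPlane.coe
      (SS.indicator fun z : ℍ => ENNReal.ofReal (‖H z‖ ^ 2) * u z.im) 0 (x + y * Complex.I) *
        ENNReal.ofReal ((1 / y) ^ 2)) =
      ∑' n : ℕ, ENNReal.ofReal (q n y ^ 2 * (1 / y) ^ 2) * u y := by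
    intro y hy
    have hy' : 0 < y := hy
    have e1 : ∀ x : ℝ, Function.extend UpperHalfPlane.coe
      (SS.indicator fun z : ℍ => ENNReal.ofReal (‖H z‖ ^ 2) * u z.im) 0 (x + y * Complex.I) *
        ENNReal.ofReal ((1 / y) ^ 2) = (Set.Ico (0:ℝ) 1).indicator (fun x : ℝ =>
        ENNReal.ofReal (‖H ⟨x + y * Complex.I, by simpa using hy'⟩‖ ^ 2) *
          (ENNReal.ofReal ((1 / y) ^ 2) * u y)) x := by
      intro x
      rw [extend_apply' _ x hy']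
      by_cases hx : x ∈ Set.Ico (0:ℝ) 1
      · rw [Set.indicator_of_mem hx, Set.indicator_of_mem]
        · have e2 : (⟨x + y * Complex.I, by simpa using hy'⟩ : ℍ).im = y := by
            simp [UpperHalfPlane.im]
          rw [e2]
          ring
        · have e3 : (⟨x + y * Complex.I, by simpa using hy'⟩ : ℍ).re = x := by
            simp [UpperHalfPlane.re]
          show 0 ≤ _ ∧ _ < 1
          rw [e3]; exact hx
      · rw [Set.indicator_of_notMem hx, Set.indicator_of_notMem, zero_mul]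
        intro h
        have e3 : (⟨x + y * Complex.I, by simpa using hy'⟩ : ℍ).re = x := by
            simp [UpperHalfPlane.re]
        have h' : 0 ≤ (⟨x + y * Complex.I, by simpa using hy'⟩ : ℍ).re ∧
          (⟨x + y * Complex.I, by simpa using hy'⟩ : ℍ).re < 1 := h
        rw [e3] at h'
        exact hx h'
    simp_rw [e1]
    rw [lintegral_indicator measurableSet_Ico, lintegral_mul_const', horo hy',
      ← ENNReal.tsum_mul_right]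
    · refine tsum_congr fun n => ?_
      rw [ENNReal.ofReal_mul (by positivity)]
      ring
    · exact ENNReal.mul_ne_top ENNReal.ofReal_ne_top (hu' y)
  rw [setLIntegral_congr_fun measurableSet_Ioi h1, lintegral_tsum]
  intro n
  refine (Measurable.mul ?_ hu).aemeasurable
  refine ENNReal.measurable_ofReal.comp (Measurable.mul ((hq n).measurable.pow_const 2) ?_)
  fun_prop

/-- A function of unimodular weight `w` on `Γ₀(N)` with real Fourier coefficients `c n / n` and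
kernel `ψ`. -/
structure Wv (w N : ℕ) (c : ℕ → ℝ) (ψ : ℝ → ℝ) (H : ℍ → ℂ) : Prop where
  cont : Continuous H
  kern : Kern ψ
  inv : ∀ γ : SL(2, ℤ), γ ∈ Gamma0 N → ∀ z : ℍ,
    H ((γ : GL (Fin 2) ℝ) • z) = jj (γ : GL (Fin 2) ℝ) z ^ w * H z
  dec : ∀ g : SL(2, ℤ), ∃ K : ℝ, 0 ≤ K ∧ ∀ z : ℍ, ‖H ((g : GL (Fin 2) ℝ) • z)‖ * z.im ≤ K
  sum : ∀ (x : ℝ) {y : ℝ} (hy : 0 < y), HasSum (fun n : ℕ =>
    ((c n / n * ψ (n * y) : ℝ) : ℂ) * ee n x) (H ⟨x + y * Complex.I, by simpa using hy⟩)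
  abs : ∀ {y : ℝ}, 0 < y → Summable fun n : ℕ => ‖((c n / n * ψ (n * y) : ℝ) : ℂ)‖

/-- the square of the absolute value of the sum -/
def FU (H₁ H₂ : ℍ → ℂ) (u : ℝ) (z : ℍ) : ℝ≥0∞ := ENNReal.ofReal (‖H₁ z + (u : ℂ) * H₂ z‖ ^ 2)

section
variable {w N : ℕ} {c₁ c₂ : ℕ → ℝ} {ψ₁ ψ₂ : ℝ → ℝ} {H₁ H₂ : ℍ → ℂ}

theorem FU_cont (h₁ : Wv w N c₁ ψ₁ H₁) (h₂ : Wv w N c₂ ψ₂ H₂) (u : ℝ) :
    Continuous fun z => H₁ z + (u : ℂ) * H₂ z := h₁.cont.add (continuous_const.mul h₂.cont)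

theorem FU_meas (h₁ : Wv w N c₁ ψ₁ H₁) (h₂ : Wv w N c₂ ψ₂ H₂) (u : ℝ) :
    Measurable (FU H₁ H₂ u) :=
  ENNReal.measurable_ofReal.comp ((FU_cont h₁ h₂ u).norm.pow 2).measurable

theorem FU_smul {γ : GL (Fin 2) ℝ} {H₁' H₂' : ℍ → ℂ} {z : ℍ} (w : ℕ)
    (h₁ : H₁ (γ • z) = jj γ z ^ w * H₁' z) (h₂ : H₂ (γ • z) = jj γ z ^ w * H₂' z) (u : ℝ) :
    FU H₁ H₂ u (γ • z) = FU H₁' H₂' u z := by
  unfold FU
  have e : H₁ (γ • z) + (u : ℂ) * H₂ (γ • z) = jj γ z ^ w * (H₁' z + (u : ℂ) * H₂' z) := by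
    rw [h₁, h₂]; ring
  rw [e, norm_mul, norm_pow, norm_jj, one_pow, one_mul]

theorem FU_inv (h₁ : Wv w N c₁ ψ₁ H₁) (h₂ : Wv w N c₂ ψ₂ H₂) (u : ℝ) : Inv N (FU H₁ H₂ u) := by
  intro γ hγ z
  rw [ModularGroup.sl_moeb]
  exact FU_smul w (h₁.inv γ hγ z) (h₂.inv γ hγ z) u

theorem FU_dec (h₁ : Wv w N c₁ ψ₁ H₁) (h₂ : Wv w N c₂ ψ₂ H₂) (u : ℝ) : Dec (FU H₁ H₂ u) := by
  intro g
  obtain ⟨K₁, hK₁, hb₁⟩ := h₁.dec g
  obtain ⟨K₂, hK₂, hb₂⟩ := h₂.dec g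
  refine ⟨ENNReal.ofReal ((K₁ + |u| * K₂) ^ 2), ENNReal.ofReal_ne_top, fun z _ => ?_⟩
  rw [ModularGroup.sl_moeb]
  unfold FU
  rw [← ENNReal.ofReal_mul (by positivity), ← mul_pow]
  refine ENNReal.ofReal_le_ofReal (pow_le_pow_left₀ (mul_nonneg (norm_nonneg _) z.im_pos.le) ?_ 2)
  have h1 := hb₁ z
  have h2 := hb₂ z
  have h3 := norm_add_le (H₁ ((g : GL (Fin 2) ℝ) • z)) ((u : ℂ) * H₂ ((g : GL (Fin 2) ℝ) • z))
  rw [norm_mul, Complex.norm_real, Real.norm_eq_abs] at h3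
  calc ‖H₁ ((g : GL (Fin 2) ℝ) • z) + (u : ℂ) * H₂ ((g : GL (Fin 2) ℝ) • z)‖ * z.im
      ≤ (‖H₁ ((g : GL (Fin 2) ℝ) • z)‖ + |u| * ‖H₂ ((g : GL (Fin 2) ℝ) • z)‖) * z.im :=
        mul_le_mul_of_nonneg_right h3 z.im_pos.le
    _ = ‖H₁ ((g : GL (Fin 2) ℝ) • z)‖ * z.im + |u| * (‖H₂ ((g : GL (Fin 2) ℝ) • z)‖ * z.im) := by
        ring
    _ ≤ K₁ + |u| * K₂ := add_le_add h1 (mul_le_mul_of_nonneg_left h2 (abs_nonneg u))

/-- the Fourier coefficients of the sum -/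
def qq (c₁ c₂ : ℕ → ℝ) (ψ₁ ψ₂ : ℝ → ℝ) (u : ℝ) (n : ℕ) (y : ℝ) : ℝ :=
  c₁ n / n * ψ₁ (n * y) + u * (c₂ n / n * ψ₂ (n * y))

theorem strip_FU (h₁ : Wv w N c₁ ψ₁ H₁) (h₂ : Wv w N c₂ ψ₂ H₂) (u : ℝ) {v : ℝ → ℝ≥0∞}
    (hv : Measurable v) (hv' : ∀ y, v y ≠ ∞) :
    ∫⁻ z in SS, FU H₁ H₂ u z * v z.im = ∑' n : ℕ, ∫⁻ y in Set.Ioi (0 : ℝ),
      ENNReal.ofReal (qq c₁ c₂ ψ₁ ψ₂ u n y ^ 2 * (1 / y) ^ 2) * v y := by
  refine strip_q (FU_cont h₁ h₂ u) (fun n => ?_) (fun x y hy => ?_) (fun {y} hy => ?_) hv hv'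
  · unfold qq
    exact (continuous_const.mul (h₁.kern.cont.comp (by fun_prop))).add
      (continuous_const.mul (continuous_const.mul (h₂.kern.cont.comp (by fun_prop))))
  · refine ((h₁.sum x hy).add ((h₂.sum x hy).mul_left (u : ℂ))).congr_fun fun n => ?_
    unfold qq
    push_cast
    ring
  · refine Summable.of_nonneg_of_le (fun n => norm_nonneg _) (fun n => ?_)
      ((h₁.abs hy).add ((h₂.abs hy).mul_left |u|))
    unfold qq
    rw [Complex.ofReal_add]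
    refine (norm_add_le _ _).trans (add_le_add le_rfl (le_of_eq ?_))
    rw [Complex.ofReal_mul u, norm_mul, Complex.norm_real u, Real.norm_eq_abs]

/-! ### Integrals of the densities -/

/-- the value of the integral of a density -/
def vq (c₁ c₂ : ℕ → ℝ) (ψ₁ ψ₂ : ℝ → ℝ) (u : ℝ) (s : ℂ) (n : ℕ) : ℂ :=
  MI ψ₁ ψ₁ s * (((c₁ n * c₁ n / n : ℝ) : ℂ) * (n : ℂ) ^ (-s)) +
    2 * u * MI ψ₁ ψ₂ s * (((c₁ n * c₂ n / n : ℝ) : ℂ) * (n : ℂ) ^ (-s)) +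
    u ^ 2 * MI ψ₂ ψ₂ s * (((c₂ n * c₂ n / n : ℝ) : ℂ) * (n : ℂ) ^ (-s))

/-- the complex density -/
def pq (c₁ c₂ : ℕ → ℝ) (ψ₁ ψ₂ : ℝ → ℝ) (u : ℝ) (s : ℂ) (e : ℕ) (n : ℕ) (y : ℝ) : ℂ :=
  ((qq c₁ c₂ ψ₁ ψ₂ u n y ^ 2 * (1 / y) ^ 2 : ℝ) : ℂ) * ((y / (e : ℝ) ^ 2 : ℝ) : ℂ) ^ s

theorem scale_integral {g : ℝ → ℂ} (hg : IntegrableOn g (Set.Ioi 0)) {n : ℕ} (hn : 0 < n) :
    IntegrableOn (fun y : ℝ => g (n * y)) (Set.Ioi 0) ∧
      ∫ y in Set.Ioi (0 : ℝ), g (n * y) = (n : ℂ)⁻¹ * ∫ t in Set.Ioi (0 : ℝ), g t := by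
  have hn' : (0 : ℝ) < n := by exact_mod_cast hn
  constructor
  · have h := (integrableOn_Ioi_comp_mul_left_iff g (0 : ℝ) hn').2 (by rwa [mul_zero])
    exact h
  · have h := integral_comp_mul_left_Ioi g (0 : ℝ) hn'
    rw [h, mul_zero, Complex.real_smul]
    push_cast
    rfl

theorem term_integral {ψ ψ' : ℝ → ℝ} (h : Kern ψ) (h' : Kern ψ') {s : ℂ} (hs : 0 < s.re) {n : ℕ}
    (hn : 0 < n) :
    IntegrableOn (fun y : ℝ => ((ψ (n * y) * ψ' (n * y) : ℝ) : ℂ) * (y : ℂ) ^ (s - 2))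
      (Set.Ioi 0) ∧
    ∫ y in Set.Ioi (0 : ℝ), ((ψ (n * y) * ψ' (n * y) : ℝ) : ℂ) * (y : ℂ) ^ (s - 2) =
      (n : ℂ) * (n : ℂ) ^ (-s) * MI ψ ψ' s := by
  have hn' : (0 : ℝ) < n := by exact_mod_cast hn
  have hnc : (n : ℂ) ≠ 0 := by exact_mod_cast hn.ne'
  obtain ⟨h1, h2⟩ := scale_integral (mi_integrable h h' hs) hn
  have e1 : ∀ y ∈ Set.Ioi (0 : ℝ), ((ψ (n * y) * ψ' (n * y) : ℝ) : ℂ) * (y : ℂ) ^ (s - 2) =
      (n : ℂ) ^ (2 - s) * (((ψ (n * y) * ψ' (n * y) : ℝ) : ℂ) *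
        ((n * y : ℝ) : ℂ) ^ (s - 2)) := by
    intro y hy
    have hy' : (0 : ℝ) < y := hy
    rw [Complex.ofReal_mul (n : ℝ) y, Complex.mul_cpow_ofReal_nonneg hn'.le hy'.le,
      Complex.ofReal_natCast]
    have e2 : (n : ℂ) ^ (2 - s) * (n : ℂ) ^ (s - 2) = 1 := by
      rw [← Complex.cpow_add _ _ hnc]; simp
    calc ((ψ (n * y) * ψ' (n * y) : ℝ) : ℂ) * (y : ℂ) ^ (s - 2)
        = ((n : ℂ) ^ (2 - s) * (n : ℂ) ^ (s - 2)) *
          (((ψ (n * y) * ψ' (n * y) : ℝ) : ℂ) * (y : ℂ) ^ (s - 2)) := by rw [e2, one_mul]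
      _ = _ := by ring
  constructor
  · exact (integrableOn_congr_fun e1 measurableSet_Ioi).2 (h1.const_mul _)
  · rw [setIntegral_congr_fun measurableSet_Ioi e1, integral_const_mul, h2]
    have e3 : (n : ℂ) ^ (2 - s) * (n : ℂ)⁻¹ = (n : ℂ) * (n : ℂ) ^ (-s) := by
      have a1 : (n : ℂ) * (n : ℂ) ^ (-s) = (n : ℂ) ^ (1 + -s) := by
        rw [Complex.cpow_add _ _ hnc, Complex.cpow_one]
      rw [a1, ← Complex.cpow_neg_one, ← Complex.cpow_add _ _ hnc]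
      congr 1
      ring
    rw [← mul_assoc, e3]
    rfl

theorem pq_integral (k₁ : Kern ψ₁) (k₂ : Kern ψ₂) (z₁ : c₁ 0 = 0) (z₂ : c₂ 0 = 0) (u : ℝ) {s : ℂ}
    (hs : 0 < s.re) {e : ℕ} (he : 0 < e) (n : ℕ) :
    IntegrableOn (pq c₁ c₂ ψ₁ ψ₂ u s e n) (Set.Ioi 0) ∧
      ∫ y in Set.Ioi (0 : ℝ), pq c₁ c₂ ψ₁ ψ₂ u s e n y =
        (e : ℂ) ^ (-(2 * s)) * vq c₁ c₂ ψ₁ ψ₂ u s n := by
  have he' : (0 : ℝ) < e := by exact_mod_cast he
  rcases Nat.eq_zero_or_pos n with hn | hn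
  · subst hn
    have e1 : pq c₁ c₂ ψ₁ ψ₂ u s e 0 = fun _ => 0 := by
      funext y
      unfold pq qq
      rw [z₁, z₂]
      simp
    have e2 : vq c₁ c₂ ψ₁ ψ₂ u s 0 = 0 := by
      unfold vq
      rw [z₁, z₂]
      simp
    rw [e1, e2]
    exact ⟨integrableOn_zero, by simp⟩
  · have hnc : (n : ℂ) ≠ 0 := by exact_mod_cast hn.ne'
    obtain ⟨i11, v11⟩ := term_integral k₁ k₁ hs hn
    obtain ⟨i12, v12⟩ := term_integral k₁ k₂ hs hn
    obtain ⟨i22, v22⟩ := term_integral k₂ k₂ hs hn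
    set a : ℂ := ((c₁ n / n : ℝ) : ℂ) with ha
    set b : ℂ := ((c₂ n / n : ℝ) : ℂ) with hb
    have e1 : ∀ y ∈ Set.Ioi (0 : ℝ), pq c₁ c₂ ψ₁ ψ₂ u s e n y = (e : ℂ) ^ (-(2 * s)) *
        (a ^ 2 * (((ψ₁ (n * y) * ψ₁ (n * y) : ℝ) : ℂ) * (y : ℂ) ^ (s - 2)) +
        2 * u * a * b * (((ψ₁ (n * y) * ψ₂ (n * y) : ℝ) : ℂ) * (y : ℂ) ^ (s - 2)) +
        u ^ 2 * b ^ 2 * (((ψ₂ (n * y) * ψ₂ (n * y) : ℝ) : ℂ) * (y : ℂ) ^ (s - 2))) := by
      intro y hy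
      have hy' : (0 : ℝ) < y := hy
      have hyc : (y : ℂ) ≠ 0 := by exact_mod_cast hy'.ne'
      unfold pq qq
      rw [Pool.Agent.Y149.CR.div_cpow_real hy' (by positivity)]
      have e3 : (((e : ℝ) ^ 2 : ℝ) : ℂ) ^ (-s) = (e : ℂ) ^ (-(2 * s)) := by
        rw [sq, Complex.ofReal_mul, Complex.mul_cpow_ofReal_nonneg he'.le he'.le,
          Complex.ofReal_natCast, ← Complex.cpow_add _ _ (by exact_mod_cast he'.ne')]
        congr 1
        ring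
      have e4 : (y : ℂ) ^ (s - 2) = (y : ℂ) ^ s * (1 / y) ^ 2 := by
        rw [Complex.cpow_sub _ _ hyc]
        have : (y : ℂ) ^ (2 : ℂ) = (y : ℂ) ^ 2 := by
          exact_mod_cast Complex.cpow_natCast (y : ℂ) 2
        rw [this]
        field_simp
      rw [e3, e4, ha, hb]
      push_cast
      ring
    have j11 := (i11.const_mul (a ^ 2))
    have j12 := (i12.const_mul (2 * u * a * b))
    have j22 := (i22.const_mul (u ^ 2 * b ^ 2))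
    constructor
    · refine (integrableOn_congr_fun e1 measurableSet_Ioi).2 ?_
      exact ((j11.add j12).add j22).const_mul _
    · rw [setIntegral_congr_fun measurableSet_Ioi e1, integral_const_mul]
      congr 1
      have h1 := integral_add (j11.add j12) j22
      have h2 := integral_add j11 j12
      simp only [Pi.add_apply] at h1
      rw [h1, h2, integral_const_mul, integral_const_mul, integral_const_mul, v11, v12, v22]
      unfold vq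
      rw [ha, hb]
      push_cast
      field_simp

end

end

end Pool.Agent.Helper43x.NW
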